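import Pool.Agent.MP_6aeaf9_an.H53.Basic

/-! The Poincare-Miranda theorem in the plane. -/

namespace Pool.Agent.MP_6aeaf9_an.H53

open Set Filter Topology Real

theorem angle_step {φ : ℝ → ℝ} {a b s t : ℝ} (hφ : Continuous φ) (hs : s ∈ Icc a b)
    (ht : t ∈ Icc a b) (h : ∀ r ∈ Icc a b, sin (φ r) ≤ 0) (h1 : 0 ≤ cos (φ s))
    (h2 : cos (φ t) ≤ 0) : φ t ≤ φ s := by
  by_contra hn
  push Not at hn
  have hv : ∀ y ∈ Icc (φ s) (φ t), sin y ≤ 0 := by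
    intro y hy
    obtain ⟨r, hr, rfl⟩ := isPreconnected_Icc.intermediate_value hs ht hφ.continuousOn hy
    exact h r hr
  have hm : ∀ y ∈ Icc (φ s) (φ t), ∀ z ∈ Icc (φ s) (φ t), y ≤ z → cos y ≤ cos z := by
    intro y hy z hz hyz
    exact mono_of_deriv hyz (fun r _ => hasDerivAt_cos r)
      (fun r hr => neg_nonneg.mpr (hv r ⟨hy.1.trans hr.1.le, hr.2.le.trans hz.2⟩))
  have hz : ∀ y ∈ Icc (φ s) (φ t), cos y = 0 := by
    intro y hy
    have h3 := hm _ ⟨le_rfl, hn.le⟩ y hy hy.1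
    have h4 := hm y hy _ ⟨hn.le, le_rfl⟩ hy.2
    linarith
  obtain ⟨c, hc, he⟩ := mvt hn (fun r _ => hasDerivAt_cos r)
  rw [hz _ ⟨hn.le, le_rfl⟩, hz _ ⟨le_rfl, hn.le⟩] at he
  have h5 : sin c = 0 := by
    have : -sin c * (φ t - φ s) = 0 := by linarith
    rcases mul_eq_zero.mp this with h6 | h6
    · linarith
    · linarith
  have h6 := hz c (Ioo_subset_Icc_self hc)
  have := sin_sq_add_cos_sq c
  rw [h5, h6] at this; norm_num at this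

theorem miranda {w1 w2 : ℝ × ℝ → ℝ} (h1 : Continuous w1) (h2 : Continuous w2) {x0 x1 y0 y1 : ℝ}
    (hx : x0 ≤ x1) (hy : y0 ≤ y1)
    (hL : ∀ y ∈ Icc y0 y1, 0 ≤ w1 (x0, y)) (hR : ∀ y ∈ Icc y0 y1, w1 (x1, y) ≤ 0)
    (hB : ∀ x ∈ Icc x0 x1, w2 (x, y0) ≤ 0) (hT : ∀ x ∈ Icc x0 x1, 0 ≤ w2 (x, y1)) :
    ∃ x ∈ Icc x0 x1, ∃ y ∈ Icc y0 y1, w1 (x, y) = 0 ∧ w2 (x, y) = 0 := by
  by_contra hn
  push Not at hn
  let cl : ℝ × ℝ → ℝ × ℝ := fun z => (max x0 (min z.1 x1), max y0 (min z.2 y1))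
  have hcl : Continuous cl := by fun_prop
  have hclm : ∀ z, (cl z).1 ∈ Icc x0 x1 ∧ (cl z).2 ∈ Icc y0 y1 := fun z =>
    ⟨⟨le_max_left _ _, max_le hx (min_le_right _ _)⟩, ⟨le_max_left _ _, max_le hy (min_le_right _ _)⟩⟩
  have hcle : ∀ x ∈ Icc x0 x1, ∀ y ∈ Icc y0 y1, cl (x, y) = (x, y) := by
    intro x hx' y hy'
    simp only [cl, min_eq_left hx'.2, min_eq_left hy'.2, max_eq_right hx'.1, max_eq_right hy'.1]
  let g : ℝ × ℝ → ℂ := fun z => (w1 (cl z) : ℂ) + (w2 (cl z) : ℂ) * Complex.I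
  have hg : Continuous g := by fun_prop
  have hg0 : ∀ z, g z ≠ 0 := by
    intro z hz
    have hre := congrArg Complex.re hz
    have him := congrArg Complex.im hz
    simp [g] at hre him
    exact hn _ (hclm z).1 _ (hclm z).2 hre him
  obtain ⟨f, ⟨-, hf⟩, -⟩ := Complex.isCoveringMapOn_exp.existsUnique_continuousMap_lifts
    (⟨g, hg⟩ : C(ℝ × ℝ, ℂ)) (a₀ := (0, 0)) (Complex.exp_log (hg0 _)) (fun z => hg0 z)
  have hfz : ∀ z, Complex.exp (f z) = g z := fun z => congrFun hf z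
  let θ : ℝ × ℝ → ℝ := fun z => (f z).im
  have hθ : Continuous θ := Complex.continuous_im.comp f.continuous
  have hc : ∀ x ∈ Icc x0 x1, ∀ y ∈ Icc y0 y1, w1 (x, y) = exp (f (x, y)).re * cos (θ (x, y)) ∧
      w2 (x, y) = exp (f (x, y)).re * sin (θ (x, y)) := by
    intro x hx' y hy'
    have hre := congrArg Complex.re (hfz (x, y))
    have him := congrArg Complex.im (hfz (x, y))
    rw [Complex.exp_re] at hre
    rw [Complex.exp_im] at him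
    simp [g, hcle x hx' y hy'] at hre him
    exact ⟨hre.symm, him.symm⟩
  have cp : ∀ x ∈ Icc x0 x1, ∀ y ∈ Icc y0 y1, 0 ≤ w1 (x, y) → 0 ≤ cos (θ (x, y)) := by
    intro x hx' y hy' h
    rw [(hc x hx' y hy').1] at h
    exact nonneg_of_mul_nonneg_right h (exp_pos _) |> fun h => h
  have cn : ∀ x ∈ Icc x0 x1, ∀ y ∈ Icc y0 y1, w1 (x, y) ≤ 0 → cos (θ (x, y)) ≤ 0 := by
    intro x hx' y hy' h
    rw [(hc x hx' y hy').1] at h
    by_contra hh; push Not at hh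
    have := mul_pos (exp_pos (f (x, y)).re) hh; linarith
  have sp : ∀ x ∈ Icc x0 x1, ∀ y ∈ Icc y0 y1, 0 ≤ w2 (x, y) → 0 ≤ sin (θ (x, y)) := by
    intro x hx' y hy' h
    rw [(hc x hx' y hy').2] at h
    by_contra hh; push Not at hh
    have := mul_neg_of_pos_of_neg (exp_pos (f (x, y)).re) hh; linarith
  have sn : ∀ x ∈ Icc x0 x1, ∀ y ∈ Icc y0 y1, w2 (x, y) ≤ 0 → sin (θ (x, y)) ≤ 0 := by
    intro x hx' y hy' h
    rw [(hc x hx' y hy').2] at h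
    by_contra hh; push Not at hh
    have := mul_pos (exp_pos (f (x, y)).re) hh; linarith
  have mx0 : x0 ∈ Icc x0 x1 := ⟨le_rfl, hx⟩
  have mx1 : x1 ∈ Icc x0 x1 := ⟨hx, le_rfl⟩
  have my0 : y0 ∈ Icc y0 y1 := ⟨le_rfl, hy⟩
  have my1 : y1 ∈ Icc y0 y1 := ⟨hy, le_rfl⟩
  have e1 : θ (x1, y0) ≤ θ (x0, y0) :=
    angle_step (φ := fun r => θ (r, y0)) (by fun_prop) mx0 mx1
      (fun r hr => sn r hr y0 my0 (hB r hr)) (cp _ mx0 _ my0 (hL _ my0)) (cn _ mx1 _ my0 (hR _ my0))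
  have e2 : θ (x1, y1) + π / 2 ≤ θ (x1, y0) + π / 2 :=
    angle_step (φ := fun r => θ (x1, r) + π / 2) (by fun_prop) my0 my1
      (fun r hr => by rw [sin_add_pi_div_two]; exact cn _ mx1 r hr (hR r hr))
      (by rw [cos_add_pi_div_two]; exact neg_nonneg.mpr (sn _ mx1 _ my0 (hB _ mx1)))
      (by rw [cos_add_pi_div_two]; exact neg_nonpos.mpr (sp _ mx1 _ my1 (hT _ mx1)))
  have e3 : θ (x0, y1) + π ≤ θ (x1, y1) + π :=
    angle_step (φ := fun r => θ (r, y1) + π) (by fun_prop) mx1 mx0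
      (fun r hr => by rw [sin_add_pi]; exact neg_nonpos.mpr (sp r hr _ my1 (hT r hr)))
      (by rw [cos_add_pi]; exact neg_nonneg.mpr (cn _ mx1 _ my1 (hR _ my1)))
      (by rw [cos_add_pi]; exact neg_nonpos.mpr (cp _ mx0 _ my1 (hL _ my1)))
  have e4 : θ (x0, y0) - π / 2 ≤ θ (x0, y1) - π / 2 :=
    angle_step (φ := fun r => θ (x0, r) - π / 2) (by fun_prop) my1 my0
      (fun r hr => by rw [sin_sub_pi_div_two]; exact neg_nonpos.mpr (cp _ mx0 r hr (hL r hr)))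
      (by rw [cos_sub_pi_div_two]; exact sp _ mx0 _ my1 (hT _ mx0))
      (by rw [cos_sub_pi_div_two]; exact sn _ mx0 _ my0 (hB _ mx0))
  have e5 : θ (x1, y1) = θ (x0, y0) := by linarith
  have a1 := cp _ mx0 _ my0 (hL _ my0)
  have a2 := sn _ mx0 _ my0 (hB _ mx0)
  have a3 := cn _ mx1 _ my1 (hR _ my1)
  have a4 := sp _ mx1 _ my1 (hT _ mx1)
  rw [e5] at a3 a4
  have := sin_sq_add_cos_sq (θ (x0, y0))
  rw [le_antisymm a2 a4, le_antisymm a3 a1] at this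
  norm_num at this

end Pool.Agent.MP_6aeaf9_an.H53
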