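import Pool.Agent.MP_6aeaf9_an.H53.Cone

/-! Amplitude estimates for trajectories that stay outside the cone. -/

namespace Pool.Agent.MP_6aeaf9_an.H53

open Set Filter Topology Real

theorem rule1 {f p q g : ℝ} (h : ¬InV f p q g) (hf : 0 ≤ f) (hp : 0 ≤ p) : q < 0 ∧ 0 < g := by
  unfold InV at h; grind

theorem rule1' {f p q g : ℝ} (h : ¬InV f p q g) (hf : 0 ≤ -f) (hp : 0 ≤ -p) :
    -q < 0 ∧ 0 < -g := by
  unfold InV at h; grind

theorem rule2' {f p q g : ℝ} (h : ¬InV f p q g) (hp : p ≤ 0) (hq : q ≤ 0) : 0 < g := by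
  unfold InV at h; grind

theorem backward_structure {f p q g r : ℝ → ℝ} {T t0 τ : ℝ}
    (df : ∀ t ∈ Icc 0 T, HasDerivAt f (p t) t) (dp : ∀ t ∈ Icc 0 T, HasDerivAt p (q t) t)
    (dq : ∀ t ∈ Icc 0 T, HasDerivAt q (r t) t) (cg : ContinuousOn g (Icc 0 T)) (g0 : g 0 = 0)
    (hr : ∀ t, 0 < g t → 0 ≤ r t)
    (rule : ∀ t ∈ Ioc 0 T, 0 ≤ f t → 0 ≤ p t → q t < 0 ∧ 0 < g t)
    (ht0 : 0 < t0) (ht : t0 ≤ τ) (hτ : τ ≤ T) (hf0 : f t0 ≤ 0) (hf : 0 < f τ) (hp : 0 ≤ p τ) :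
    ∃ t7 t8, 0 ≤ t7 ∧ t7 < t8 ∧ t8 < τ ∧ t0 ≤ t8 ∧ f t8 = 0 ∧ g t7 = 0 ∧
      (∀ t ∈ Icc t7 τ, q t < 0) ∧ (∀ t ∈ Ico t7 τ, 0 < p t) ∧ (∀ t ∈ Ioc t7 τ, 0 < g t) ∧
      (∀ t ∈ Ico t7 t8, f t < 0) ∧ (∀ t ∈ Ioc t8 τ, 0 < f t) := by
  obtain ⟨t8, h8, f8, fp⟩ := last_zero ht
    ((contOn_of_deriv df).mono (Icc_subset_Icc ht0.le hτ)) hf0 hf
  have h80 : 0 < t8 := ht0.trans_le h8.1
  have pp := back_pos (a := t8) (b := τ) (fun t ht => dp t ⟨h80.le.trans ht.1, ht.2.trans hτ⟩)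
    (fun t ht h => (rule t ⟨h80.trans ht.1, ht.2.trans hτ⟩ (fp t ht).le h).1) hp
  have qg : ∀ t ∈ Icc t8 τ, q t < 0 ∧ 0 < g t := by
    intro t ht
    refine rule t ⟨h80.trans_le ht.1, ht.2.trans hτ⟩ ?_ ?_
    · rcases ht.1.eq_or_lt with h | h
      · rw [← h, f8]
      · exact (fp t ⟨h, ht.2⟩).le
    · rcases ht.2.eq_or_lt with h | h
      · rw [h]; exact hp
      · exact (pp t ⟨ht.1, h⟩).le
  have m8 : t8 ∈ Icc t8 τ := ⟨le_rfl, h8.2.le⟩
  have h8T : t8 ≤ T := h8.2.le.trans hτ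
  obtain ⟨t7, h7, g7, gp⟩ := last_zero h80.le (cg.mono (Icc_subset_Icc_right h8T)) g0.le (qg t8 m8).2
  have q7 : ∀ t ∈ Icc t7 t8, q t < 0 := fun t ht => lt_of_le_of_lt
    (mono_of_deriv ht.2 (fun u hu => dq u ⟨(h7.1.trans ht.1).trans hu.1, hu.2.trans h8T⟩)
      (fun u hu => hr u (gp u ⟨ht.1.trans_lt hu.1, hu.2.le⟩))) (qg t8 m8).1
  have p7 : ∀ t ∈ Icc t7 t8, 0 < p t := fun t ht => lt_of_lt_of_le (pp t8 ⟨le_rfl, h8.2⟩)
    (anti_of_deriv ht.2 (fun u hu => dp u ⟨(h7.1.trans ht.1).trans hu.1, hu.2.trans h8T⟩)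
      (fun u hu => (q7 u ⟨ht.1.trans hu.1.le, hu.2.le⟩).le))
  refine ⟨t7, t8, h7.1, h7.2, h8.2, h8.1, f8, g7, fun t ht => ?_, fun t ht => ?_, fun t ht => ?_,
    fun t ht => ?_, fp⟩
  · rcases le_total t t8 with h | h
    · exact q7 t ⟨ht.1, h⟩
    · exact (qg t ⟨h, ht.2⟩).1
  · rcases le_total t t8 with h | h
    · exact p7 t ⟨ht.1, h⟩
    · exact pp t ⟨h, ht.2⟩
  · rcases le_total t t8 with h | h
    · exact gp t ⟨ht.1, h⟩
    · exact (qg t ⟨h, ht.2⟩).2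
  · rw [← f8]
    exact smono_of_deriv ht.2 (fun u hu => df u ⟨(h7.1.trans ht.1).trans hu.1, hu.2.trans h8T⟩)
      (fun u hu => p7 u ⟨ht.1.trans hu.1.le, hu.2.le⟩)

variable {s : ℝ → ℝ} {T a b : ℝ} {f p q g ν : ℝ → ℝ}

theorem Sol.desc_p (h : Sol s T a b f p q g ν)
    (hN : ∀ t ∈ Ioc 0 T, ¬InV (f t) (p t) (q t) (g t)) {t : ℝ} (ht : t ≤ T)
    (hf : ∀ r ∈ Icc 0 t, 0 ≤ f r) : ∀ r ∈ Icc 0 t, p r ≤ 0 := by
  intro r hr
  rcases hr.1.eq_or_lt with h0 | h0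
  · rw [← h0, h.p0]
  by_contra hn
  have := back_pos (a := 0) (b := r) (fun u hu => h.dp u ⟨hu.1, (hu.2.trans hr.2).trans ht⟩)
    (fun u hu hp => (rule1 (hN u ⟨hu.1, (hu.2.trans hr.2).trans ht⟩)
      (hf u ⟨hu.1.le, hu.2.trans hr.2⟩) hp).1) (not_le.mp hn).le 0 ⟨le_rfl, h0⟩
  rw [h.p0] at this; exact lt_irrefl _ this

theorem Sol.desc_ν (h : Sol s T a b f p q g ν)
    (hN : ∀ t ∈ Ioc 0 T, ¬InV (f t) (p t) (q t) (g t)) {t : ℝ} (ht : t ≤ T)
    (hf : ∀ r ∈ Icc 0 t, 0 ≤ f r) : ∀ r ∈ Icc 0 t, f r ≤ ν r := by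
  intro r hr
  have := cmp_of_deriv hr.1 (fun u hu => h.df u ⟨hu.1, (hu.2.trans hr.2).trans ht⟩)
    (fun u hu => h.dν u ⟨hu.1, (hu.2.trans hr.2).trans ht⟩)
    (fun u hu => le_min le_rfl (h.desc_p hN ht hf u ⟨hu.1.le, hu.2.le.trans hr.2⟩))
  rw [h.f0, h.ν0] at this; linarith

theorem Sol.desc_anti (h : Sol s T a b f p q g ν)
    (hN : ∀ t ∈ Ioc 0 T, ¬InV (f t) (p t) (q t) (g t)) {t : ℝ} (ht : t ≤ T)
    (hf : ∀ r ∈ Icc 0 t, 0 ≤ f r) {u v : ℝ} (hu : 0 ≤ u) (huv : u ≤ v) (hv : v ≤ t) : f v ≤ f u :=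
  anti_of_deriv huv (fun r hr => h.df r ⟨hu.trans hr.1, (hr.2.trans hv).trans ht⟩)
    (fun r hr => h.desc_p hN ht hf r ⟨hu.trans hr.1.le, hr.2.le.trans hv⟩)

theorem Sol.desc_g (hs : GoodS s) (h : Sol s T a b f p q g ν)
    (hN : ∀ t ∈ Ioc 0 T, ¬InV (f t) (p t) (q t) (g t)) {t : ℝ} (ht : t ≤ T)
    (hf : ∀ r ∈ Icc 0 t, 0 ≤ f r) {r : ℝ} (hr : r ∈ Icc 0 t) (hq : q r ≤ 0) :
    ∀ u ∈ Ioo 0 r, 0 < g u := by
  have hp := h.desc_p hN ht hf
  have := back_pos (y := fun u => -q u) (a := 0) (b := r)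
    (fun u hu => (h.dq u ⟨hu.1, (hu.2.trans hr.2).trans ht⟩).fun_neg)
    (fun u hu hq' => neg_lt_zero.mpr (hs.pos _ (rule2' (hN u ⟨hu.1, (hu.2.trans hr.2).trans ht⟩)
      (hp u ⟨hu.1.le, hu.2.trans hr.2⟩) (neg_nonneg.mp hq')))) (neg_nonneg.mpr hq)
  intro u hu
  exact rule2' (hN u ⟨hu.1, (hu.2.le.trans hr.2).trans ht⟩) (hp u ⟨hu.1.le, hu.2.le.trans hr.2⟩)
    (by linarith [this u ⟨hu.1.le, hu.2⟩])

theorem Sol.desc_slope (hs : GoodS s) (h : Sol s T a b f p q g ν)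
    (hN : ∀ t ∈ Ioc 0 T, ¬InV (f t) (p t) (q t) (g t)) {t : ℝ} (ht0 : 0 ≤ t) (ht : t ≤ T)
    (hf : ∀ r ∈ Icc 0 t, 0 ≤ f r) : -p t * t ≤ 2 * a := by
  have h1 : ∀ r ∈ Icc 0 t, p r - r * q r ≤ 0 := by
    intro r hr
    rcases le_total 0 (q r) with hq | hq
    · have := h.desc_p hN ht hf r hr
      have := mul_nonneg hr.1 hq
      linarith
    · have hg := h.desc_g hs hN ht hf hr hq
      have := anti_of_deriv (y := fun u => p u - u * q u) (y' := fun u => -(u * s (g u))) hr.1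
        (fun u hu => by
          have m : u ∈ Icc 0 T := ⟨hu.1, (hu.2.trans hr.2).trans ht⟩
          exact ((h.dp u m).fun_sub ((hasDerivAt_id' u).fun_mul (h.dq u m))).congr_deriv (by ring))
        (fun u hu => neg_nonpos.mpr (mul_nonneg hu.1.le (hs.pos _ (hg u hu)).le))
      rw [h.p0] at this; linarith
  have := mono_of_deriv (y := fun u => u * p u - 2 * f u) (y' := fun u => -(p u - u * q u)) ht0
    (fun u hu => by
      have m : u ∈ Icc 0 T := ⟨hu.1, hu.2.trans ht⟩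
      exact (((hasDerivAt_id' u).fun_mul (h.dp u m)).fun_sub
        ((h.df u m).const_mul 2)).congr_deriv (by ring))
    (fun u hu => neg_nonneg.mpr (h1 u (Ioo_subset_Icc_self hu)))
  rw [h.f0] at this
  linarith [hf t ⟨ht0, le_rfl⟩]

theorem Sol.desc_q (hs : GoodS s) (h : Sol s T a b f p q g ν)
    (hN : ∀ t ∈ Ioc 0 T, ¬InV (f t) (p t) (q t) (g t)) {t : ℝ} (ht0 : 0 ≤ t) (ht : t ≤ T)
    (hf : ∀ r ∈ Icc 0 t, 0 ≤ f r) (hq : q t ≤ 0) : -q t * t ≤ -p t := by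
  have hg := h.desc_g hs hN ht hf ⟨ht0, le_rfl⟩ hq
  have := le_of_deriv_le (c := q t) ht0 (fun u hu => h.dp u ⟨hu.1, hu.2.trans ht⟩)
    (fun u hu => mono_of_deriv hu.2.le (fun r hr => h.dq r ⟨hu.1.le.trans hr.1, hr.2.trans ht⟩)
      (fun r hr => (hs.pos _ (hg r ⟨hu.1.trans hr.1, hr.2⟩)).le))
  rw [h.p0] at this; linarith

theorem Sol.time_bound (hs : GoodS s) (h : Sol s T a b f p q g ν) {t : ℝ} (ht0 : 0 ≤ t)
    (ht : t + 180 ≤ T) (hk : ∀ r ∈ Icc t (t + 180), kap (f r) (ν r) ≤ -(9 / 100))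
    (hf : ∀ r ∈ Icc t (t + 180), 0 ≤ f r ∧ f r ≤ 100) : False := by
  have hg : ∀ u v, t ≤ u → u ≤ v → v ≤ t + 180 → g v - g u ≤ -(9 / 100) * (v - u) :=
    fun u v h1 h2 h3 => le_of_deriv_le h2 (fun r hr => h.dg r ⟨by linarith [hr.1], by linarith [hr.2]⟩)
      (fun r hr => hk r ⟨by linarith [hr.1], by linarith [hr.2]⟩)
  rcases le_total (g (t + 90)) 0 with h1 | h1
  · have := third_diff (f := fun u => -f u) (p := fun u => -p u) (q := fun u => -q u)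
      (r := fun u => -s (g u)) (t := t + 135) (h := 15) (γ := 1) (by norm_num)
      (fun u hu => (h.df u ⟨by linarith [hu.1], by linarith [hu.2]⟩).fun_neg)
      (fun u hu => (h.dp u ⟨by linarith [hu.1], by linarith [hu.2]⟩).fun_neg)
      (fun u hu => (h.dq u ⟨by linarith [hu.1], by linarith [hu.2]⟩).fun_neg)
      (fun u hu => by
        have h2 := hg (t + 90) u (by linarith) (by linarith [hu.1]) (by linarith [hu.2])
        have := hs.lb' (y := g u) (m := 2) (by norm_num) (by linarith [hu.1])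
        linarith)
    have a1 := hf (t + 135 + 3 * 15) ⟨by linarith, by linarith⟩
    have a2 := hf (t + 135 + 2 * 15) ⟨by linarith, by linarith⟩
    have a3 := hf (t + 135 + 15) ⟨by linarith, by linarith⟩
    have a4 := hf (t + 135) ⟨by linarith, by linarith⟩
    linarith [a1.1, a2.2, a3.1, a4.2]
  · have := third_diff (t := t) (h := 15) (γ := 1) (by norm_num)
      (fun u hu => h.df u ⟨by linarith [hu.1], by linarith [hu.2]⟩)
      (fun u hu => h.dp u ⟨by linarith [hu.1], by linarith [hu.2]⟩)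
      (fun u hu => h.dq u ⟨by linarith [hu.1], by linarith [hu.2]⟩)
      (fun u hu => by
        have h2 := hg u (t + 90) hu.1 (by linarith [hu.2]) (by linarith)
        have := hs.lb (g u) 2 (by norm_num) (by linarith [hu.2])
        linarith)
    have a1 := hf (t + 3 * 15) ⟨by linarith, by linarith⟩
    have a2 := hf (t + 2 * 15) ⟨by linarith, by linarith⟩
    have a3 := hf (t + 15) ⟨by linarith, by linarith⟩
    have a4 := hf t ⟨by linarith, by linarith⟩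
    linarith [a1.2, a2.1, a3.2, a4.1]

theorem Sol.descent (hs : GoodS s) (h : Sol s T a b f p q g ν)
    (hN : ∀ t ∈ Ioc 0 T, ¬InV (f t) (p t) (q t) (g t)) (ha : a ∈ Ioc (1:ℝ) 100)
    (hT : 100000 ≤ T) (hE : f T + 2 * p T + q T = 0) :
    ∃ tc ∈ Ioc (0:ℝ) 100000, f tc = 49 / 100 ∧ ∀ r ∈ Icc 0 tc, 0 < f r := by
  have cf := contOn_of_deriv h.df
  have hex : ∃ t ∈ Icc 0 T, f t ≤ 49 / 100 := by
    by_contra hn
    push Not at hn
    have hf : ∀ r ∈ Icc 0 T, 0 ≤ f r := fun r hr => by linarith [hn r hr]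
    have h1 := h.desc_slope hs hN (by linarith) le_rfl hf
    have h2 := hn T ⟨by linarith, le_rfl⟩
    have h3 := h.desc_p hN le_rfl hf T ⟨by linarith, le_rfl⟩
    have h4 : -p T ≤ 1 / 100 := by nlinarith [ha.2]
    rcases le_total (q T) 0 with hq | hq
    · have := h.desc_q hs hN (by linarith) le_rfl hf hq
      nlinarith
    · linarith
  obtain ⟨t, ht, hft⟩ := hex
  obtain ⟨tc, hc, hc0, hcp⟩ := first_zero (y := fun r => f r - 49 / 100) ht.1
    ((cf.mono (Icc_subset_Icc_right ht.2)).sub continuousOn_const)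
    (by rw [h.f0]; linarith [ha.1]) (by linarith)
  have hcT : tc ≤ T := hc.2.trans ht.2
  have hge : ∀ r ∈ Icc 0 tc, 49 / 100 ≤ f r := by
    intro r hr
    rcases hr.2.eq_or_lt with h1 | h1
    · rw [h1]; linarith
    · linarith [hcp r ⟨hr.1, h1⟩]
  have hf : ∀ r ∈ Icc 0 tc, 0 ≤ f r := fun r hr => by linarith [hge r hr]
  refine ⟨tc, ⟨hc.1, ?_⟩, by linarith, fun r hr => by linarith [hge r hr]⟩
  obtain ⟨t9, h9, h90, -⟩ := first_zero (y := fun r => f r - 9 / 10) hc.1.le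
    ((cf.mono (Icc_subset_Icc_right hcT)).sub continuousOn_const)
    (by rw [h.f0]; linarith [ha.1]) (by linarith)
  have hle : ∀ r ∈ Icc t9 tc, f r ≤ 9 / 10 := fun r hr => by
    linarith [h.desc_anti hN hcT hf h9.1.le hr.1 hr.2]
  have h1 : tc < t9 + 180 := by
    by_contra hn
    push Not at hn
    refine h.time_bound hs h9.1.le (hn.trans hcT) (fun r hr => ?_) (fun r hr => ?_)
    · have m : r ∈ Icc 0 tc := ⟨h9.1.le.trans hr.1, hr.2.trans hn⟩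
      have a1 := hge r m
      have a2 := hle r ⟨hr.1, m.2⟩
      rw [kap_eq (by linarith) (by linarith) (Or.inl (h.desc_ν hN hcT hf r m))]
      nlinarith
    · have m : r ∈ Icc 0 tc := ⟨h9.1.le.trans hr.1, hr.2.trans hn⟩
      exact ⟨hf r m, by linarith [hle r ⟨hr.1, m.2⟩]⟩
  by_contra hn
  push Not at hn
  have h2 := ge_of_deriv_ge (c := -(1 / 450)) h9.2
    (fun r hr => h.df r ⟨h9.1.le.trans hr.1, hr.2.trans hcT⟩)
    (fun r hr => by
      have := h.desc_slope hs hN (t := r) (h9.1.le.trans hr.1.le) (hr.2.le.trans hcT)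
        (fun u hu => hf u ⟨hu.1, hu.2.trans hr.2.le⟩)
      have h3 : 90000 ≤ r := by linarith [hr.1]
      nlinarith [ha.2])
  linarith

/-- backward structure from a point with `f < 0`, `p ≤ 0` after the first zero -/
theorem Sol.down (hs : GoodS s) (h : Sol s T a b f p q g ν)
    (hN : ∀ t ∈ Ioc 0 T, ¬InV (f t) (p t) (q t) (g t)) (ha : a ≤ 100) {tz τ : ℝ} (hz0 : 0 < tz)
    (hz : f tz = 0) (hzf : ∀ r ∈ Icc 0 tz, 0 ≤ f r) (hτ : tz ≤ τ) (hτT : τ ≤ T)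
    (hup : ∀ r ∈ Icc tz τ, f r ≤ 1 / 2) (hf : f τ < 0) (hp : p τ ≤ 0) :
    ∃ t3 t4, 0 ≤ t3 ∧ t3 < t4 ∧ t4 < τ ∧ tz ≤ t4 ∧ f t4 = 0 ∧ f t3 ≤ 1 ∧
      -(1 / 4) * (t4 - t3) ≤ g t4 ∧
      (∀ t ∈ Icc t3 τ, 0 < q t) ∧ (∀ t ∈ Ico t3 τ, p t < 0) ∧ (∀ t ∈ Ioc t3 τ, g t < 0) ∧
      (∀ t ∈ Ioc t4 τ, f t < 0) := by
  obtain ⟨t3, t4, a1, a2, a3, a4, a5, a6, a7, a8, a9, -, a11⟩ := backward_structure
    (f := fun u => -f u) (p := fun u => -p u) (q := fun u => -q u) (g := fun u => -g u)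
    (r := fun u => -s (g u)) (fun u hu => (h.df u hu).fun_neg) (fun u hu => (h.dp u hu).fun_neg)
    (fun u hu => (h.dq u hu).fun_neg) (contOn_of_deriv h.dg).neg (by simp [h.g0])
    (fun u hu => neg_nonneg.mpr (hs.nonpos (by linarith)))
    (fun u hu h1 h2 => rule1' (hN u hu) h1 h2) hz0 hτ hτT (by linarith) (by linarith) (by linarith)
  have g3 : g t3 = 0 := by linarith
  refine ⟨t3, t4, a1, a2, a3, a4, by linarith, ?_, ?_, fun t ht => by linarith [a7 t ht],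
    fun t ht => by linarith [a8 t ht], fun t ht => by linarith [a9 t ht],
    fun t ht => by linarith [a11 t ht]⟩
  · rcases le_total tz t3 with h1 | h1
    · linarith [hup t3 ⟨h1, by linarith⟩]
    · by_contra hn
      push Not at hn
      have hzT : tz ≤ T := hτ.trans hτT
      have h2 := h.desc_ν hN hzT hzf t3 ⟨a1, h1⟩
      have h3 := h.desc_anti hN hzT hzf le_rfl a1 h1
      rw [h.f0] at h3
      obtain ⟨u, hu, hgu⟩ := exists_right_gt a2 (h.dg t3 ⟨a1, by linarith⟩) (by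
        rw [kap_eq (by linarith) (by linarith) (Or.inl h2)]; nlinarith)
      linarith [a9 u ⟨hu.1, by linarith [hu.2]⟩]
  · have := ge_of_deriv_ge (c := -(1 / 4)) a2.le
      (fun r hr => h.dg r ⟨a1.trans hr.1, by linarith [hr.2]⟩) (fun _ _ => (kap_bounds _ _).1)
    linarith

theorem Sol.low (hs : GoodS s) (h : Sol s T a b f p q g ν)
    (hN : ∀ t ∈ Ioc 0 T, ¬InV (f t) (p t) (q t) (g t)) (ha : a ≤ 100) {tz σ : ℝ} (hz0 : 0 < tz)
    (hz : f tz = 0) (hzf : ∀ r ∈ Icc 0 tz, 0 ≤ f r) (hσT : σ ≤ T)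
    (hup : ∀ r ∈ Icc tz σ, f r ≤ 1 / 2) : ∀ r ∈ Icc tz σ, -1 < f r := by
  intro r hr
  by_contra hn
  push Not at hn
  obtain ⟨τ, hτ, hτ0, hτp⟩ := first_zero (y := fun u => f u + 1) hr.1
    (((contOn_of_deriv h.df).mono (Icc_subset_Icc hz0.le (hr.2.trans hσT))).add continuousOn_const)
    (by linarith) (by linarith)
  have hτT : τ ≤ T := (hτ.2.trans hr.2).trans hσT
  have hp : p τ ≤ 0 := by
    by_contra hp
    obtain ⟨u, hu, hfu⟩ := exists_left_gt (y := fun u => -f u) hτ.1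
      (h.df τ ⟨by linarith [hτ.1], hτT⟩).fun_neg (by linarith)
    linarith [hτp u ⟨hu.1.le, hu.2⟩]
  obtain ⟨t3, t4, a1, a2, a3, a4, a5, a6, a7, a8, a9, a10, a11⟩ := h.down hs hN ha hz0 hz hzf
    hτ.1.le hτT (fun u hu => hup u ⟨hu.1, (hu.2.trans hτ.2).trans hr.2⟩) (by linarith) hp
  have m : ∀ u ∈ Icc t3 τ, u ∈ Icc 0 T := fun u hu => ⟨a1.trans hu.1, hu.2.trans hτT⟩
  have pm : ∀ u v, t3 ≤ u → u ≤ v → v ≤ τ → p u ≤ p v := fun u v h1 h2 h3 =>
    mono_of_deriv h2 (fun w hw => h.dp w (m w ⟨h1.trans hw.1, hw.2.trans h3⟩))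
      (fun w hw => (a8 w ⟨h1.trans hw.1.le, hw.2.le.trans h3⟩).le)
  have b1 := le_of_deriv_le (c := p t4) a2.le (fun w hw => h.df w (m w ⟨hw.1, by linarith [hw.2]⟩))
    (fun w hw => pm w t4 hw.1.le hw.2.le a3.le)
  have b2 := ge_of_deriv_ge (c := p t4) a3.le (fun w hw => h.df w (m w ⟨by linarith [hw.1], hw.2⟩))
    (fun w hw => pm t4 w a2.le hw.1.le hw.2.le)
  have b3 := a9 t4 ⟨a2.le, a3⟩
  have b4 : t4 - t3 ≤ τ - t4 := by nlinarith
  have hl : 0 < τ - t4 := by linarith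
  have b5 := chord (y := fun u => -f u - (u - t4) / (τ - t4)) (y' := fun u => -p u - 1 / (τ - t4))
    (y'' := fun u => -q u) (a := t4) (b := τ)
    (fun w hw => ((h.df w (m w ⟨by linarith [hw.1], hw.2⟩)).fun_neg.fun_sub
      (((hasDerivAt_id' w).sub_const t4).div_const _)))
    (fun w hw => (h.dp w (m w ⟨by linarith [hw.1], hw.2⟩)).fun_neg.sub_const _)
    (fun w hw => by linarith [a8 w ⟨by linarith [hw.1], hw.2.le⟩])
    (by simp [a5]) (by rw [div_self hl.ne']; linarith)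
  have b6 := cmp_of_deriv (y := fun u => (u - t4) ^ 2 / (2 * (τ - t4)))
    (y' := fun u => (u - t4) / (τ - t4)) a3.le
    (fun w _ => ((((hasDerivAt_id' w).sub_const t4).fun_pow 2).div_const _).congr_deriv
      (by field_simp; simp; ring))
    (fun w hw => h.dg w (m w ⟨by linarith [hw.1], hw.2⟩))
    (fun w hw => by
      have c1 := b5 w (Ioo_subset_Icc_self hw)
      have c2 := a11 w ⟨hw.1, hw.2.le⟩
      have c3 := hτp w ⟨by linarith [hw.1], hw.2⟩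
      rw [kap_eq (by linarith) (by linarith) (Or.inr (by linarith))]
      nlinarith)
  have b7 : (τ - t4) ^ 2 / (2 * (τ - t4)) = (τ - t4) / 2 := by field_simp
  have b8 := a10 τ ⟨by linarith, le_rfl⟩
  simp only [sub_self, ne_eq, OfNat.ofNat_ne_zero, not_false_eq_true, zero_pow, zero_div] at b6
  linarith

theorem Sol.min_bound (hs : GoodS s) (h : Sol s T a b f p q g ν)
    (hN : ∀ t ∈ Ioc 0 T, ¬InV (f t) (p t) (q t) (g t)) (ha : a ≤ 100) {tz τ : ℝ} (hz0 : 0 < tz)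
    (hz : f tz = 0) (hzf : ∀ r ∈ Icc 0 tz, 0 ≤ f r) (hτ : tz ≤ τ) (hτT : τ ≤ T)
    (hup : ∀ r ∈ Icc tz τ, f r ≤ 1 / 2) (hp : p τ = 0) : -(36 / 100) < f τ := by
  by_contra hn
  push Not at hn
  have hlow := h.low hs hN ha hz0 hz hzf hτT hup
  obtain ⟨t3, t4, a1, a2, a3, a4, a5, a6, a7, a8, a9, a10, a11⟩ := h.down hs hN ha hz0 hz hzf
    hτ hτT hup (by linarith) hp.le
  have m : ∀ u ∈ Icc t3 τ, u ∈ Icc 0 T := fun u hu => ⟨a1.trans hu.1, hu.2.trans hτT⟩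
  have h1 : ∀ u ∈ Icc t3 τ, 0 ≤ (τ - u) * q u + p u := by
    intro u hu
    have := anti_of_deriv (y := fun u => (τ - u) * q u + p u) (y' := fun u => (τ - u) * s (g u)) hu.2
      (fun w hw => by
        have mw := m w ⟨hu.1.trans hw.1, hw.2⟩
        exact ((((hasDerivAt_id' w).const_sub τ).fun_mul (h.dq w mw)).fun_add
          (h.dp w mw)).congr_deriv (by ring))
      (fun w hw => mul_nonpos_of_nonneg_of_nonpos (by linarith [hw.2])
        (hs.neg (a10 w ⟨hu.1.trans_lt hw.1, hw.2.le⟩)).le)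
    simp only [sub_self, zero_mul, hp] at this
    linarith
  have h2 : ∀ u ∈ Icc t3 τ, 0 ≤ -((τ - u) * p u) - 2 * (f u - f τ) := by
    intro u hu
    have := anti_of_deriv (y := fun u => -((τ - u) * p u) - 2 * (f u - f τ))
      (y' := fun u => -((τ - u) * q u + p u)) hu.2
      (fun w hw => by
        have mw := m w ⟨hu.1.trans hw.1, hw.2⟩
        exact ((((hasDerivAt_id' w).const_sub τ).fun_mul (h.dp w mw)).fun_neg.fun_sub
          (((h.df w mw).sub_const (f τ)).const_mul 2)).congr_deriv (by ring))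
      (fun w hw => neg_nonpos.mpr (h1 w ⟨hu.1.trans hw.1.le, hw.2.le⟩))
    simp only [sub_self, zero_mul] at this
    linarith
  have h3 : ∀ u v, t3 ≤ u → u ≤ v → v < τ →
      (f v - f τ) / (τ - v) ^ 2 ≤ (f u - f τ) / (τ - u) ^ 2 := by
    intro u v hu huv hv
    refine anti_of_deriv (y := fun u => (f u - f τ) / (τ - u) ^ 2)
      (y' := fun u => -(-((τ - u) * p u) - 2 * (f u - f τ)) / (τ - u) ^ 3) huv (fun w hw => ?_)
      (fun w hw => ?_)
    · have mw := m w ⟨hu.trans hw.1, hw.2.trans hv.le⟩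
      have hne : τ - w ≠ 0 := by linarith [hw.2]
      refine (((h.df w mw).sub_const (f τ)).fun_div
        (((hasDerivAt_id' w).const_sub τ).fun_pow 2) (pow_ne_zero 2 hne)).congr_deriv ?_
      field_simp
      simp; ring
    · exact div_nonpos_of_nonpos_of_nonneg
        (neg_nonpos.mpr (h2 w ⟨hu.trans hw.1.le, by linarith [hw.2]⟩))
        (pow_nonneg (by linarith [hw.2]) 3)
  set μ := -f τ with hμ
  have hl : 0 < τ - t4 := by linarith
  have hl2 : 0 < (τ - t4) ^ 2 := by positivity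
  have b1 := h3 t3 t4 le_rfl a2.le a3
  rw [a5, div_le_div_iff₀ hl2 (pow_pos (by linarith) 2)] at b1
  have b6 := cmp_of_deriv (y := fun u => μ * u + μ * (τ - u) ^ 3 / (3 * (τ - t4) ^ 2))
    (y' := fun u => μ - μ * (τ - u) ^ 2 / (τ - t4) ^ 2) a3.le
    (fun w _ => (((hasDerivAt_id' w).const_mul μ).fun_add
      (((((hasDerivAt_id' w).const_sub τ).fun_pow 3).const_mul μ).div_const _)).congr_deriv
      (by field_simp; simp; ring))
    (fun w hw => h.dg w (m w ⟨by linarith [hw.1], hw.2⟩))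
    (fun w hw => by
      have c1 := h3 t4 w a2.le hw.1.le hw.2
      rw [a5, div_le_iff₀ (pow_pos (by linarith [hw.2]) 2)] at c1
      have c2 := a11 w ⟨hw.1, hw.2.le⟩
      have c3 := hlow w ⟨by linarith [hw.1], hw.2.le⟩
      rw [kap_eq (by linarith) (by linarith) (Or.inr (by linarith))]
      have c4 : (0 - f τ) / (τ - t4) ^ 2 * (τ - w) ^ 2 = μ * (τ - w) ^ 2 / (τ - t4) ^ 2 := by
        rw [hμ]; ring
      nlinarith)
  have b7 : μ * (τ - t4) ^ 3 / (3 * (τ - t4) ^ 2) = μ * (τ - t4) / 3 := by field_simp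
  have b8 := a10 τ ⟨by linarith, le_rfl⟩
  simp only [sub_self, ne_eq, OfNat.ofNat_ne_zero, not_false_eq_true, zero_pow, mul_zero,
    zero_div, b7] at b6
  have hμ1 : 36 / 100 ≤ μ := by linarith
  set l := t4 - t3 with hl'
  set l' := τ - t4 with hl''
  have e1 : τ - t3 = l + l' := by rw [hl', hl'']; ring
  rw [e1] at b1
  have c1 : 8 * μ * l' / 3 ≤ l := by nlinarith
  have c2 : μ * (l + l') ^ 2 ≤ (1 + μ) * l' ^ 2 := by nlinarith
  have c3 : (8 * μ * l' / 3 + l') ^ 2 ≤ (l + l') ^ 2 :=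
    pow_le_pow_left₀ (by positivity) (by linarith) 2
  have c4 : μ * (8 * μ / 3 + 1) ^ 2 * l' ^ 2 ≤ (1 + μ) * l' ^ 2 := by nlinarith
  have c5 := le_of_mul_le_mul_right c4 hl2
  nlinarith

theorem Sol.up (hs : GoodS s) (h : Sol s T a b f p q g ν)
    (hN : ∀ t ∈ Ioc 0 T, ¬InV (f t) (p t) (q t) (g t)) (ha : a ≤ 100) {tz : ℝ} (hz0 : 0 < tz)
    (hz : f tz = 0) (hzf : ∀ r ∈ Icc 0 tz, 0 ≤ f r) : ∀ r ∈ Icc tz T, f r < 49 / 100 := by
  intro r hr
  by_contra hn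
  push Not at hn
  have cf := contOn_of_deriv h.df
  obtain ⟨σ, hσ, hσ0, hσp⟩ := first_zero (y := fun u => 49 / 100 - f u) hr.1
    (continuousOn_const.sub (cf.mono (Icc_subset_Icc hz0.le hr.2))) (by linarith) (by linarith)
  have hσT : σ ≤ T := hσ.2.trans hr.2
  have hup : ∀ u ∈ Icc tz σ, f u ≤ 49 / 100 := by
    intro u hu
    rcases hu.2.eq_or_lt with h1 | h1
    · rw [h1]; linarith
    · linarith [hσp u ⟨hu.1, h1⟩]
  have hup' : ∀ u ∈ Icc tz σ, f u ≤ 1 / 2 := fun u hu => by linarith [hup u hu]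
  have hp : 0 ≤ p σ := by
    by_contra hp
    obtain ⟨u, hu, hfu⟩ := exists_left_gt hσ.1 (h.df σ ⟨by linarith [hσ.1], hσT⟩) (not_le.mp hp)
    linarith [hσp u ⟨hu.1.le, hu.2⟩]
  obtain ⟨t7, t8, a1, a2, a3, a4, a5, a6, a7, a8, a9, a10, a11⟩ := backward_structure
    h.df h.dp h.dq (contOn_of_deriv h.dg) h.g0 (fun u hu => hs.nonneg hu.le)
    (fun u hu h1 h2 => rule1 (hN u hu) h1 h2) hz0 hσ.1.le hσT hz.le (by linarith) hp
  have f7 := a10 t7 ⟨le_rfl, a2⟩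
  have h7 : tz < t7 := by
    by_contra hh
    linarith [hzf t7 ⟨a1, not_lt.mp hh⟩]
  -- the minimum
  obtain ⟨τ, hτ, hmin⟩ := isCompact_Icc.exists_isMinOn (nonempty_Icc.mpr hσ.1.le)
    (cf.mono (Icc_subset_Icc hz0.le hσT))
  have hm7 : f τ ≤ f t7 := hmin (show t7 ∈ Icc tz σ from ⟨h7.le, by linarith⟩)
  have hτ1 : tz < τ := lt_of_le_of_ne hτ.1 (fun hh => by rw [← hh] at hm7; linarith)
  have hτ2 : τ < σ := lt_of_le_of_ne hτ.2 (fun hh => by rw [hh] at hm7; linarith)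
  have hp0 : p τ = 0 := (hmin.isLocalMin (Icc_mem_nhds hτ1 hτ2)).hasDerivAt_eq_zero
    (h.df τ ⟨by linarith, by linarith⟩)
  have hF := h.min_bound hs hN ha hz0 hz hzf hτ.1 (hτ.2.trans hσT)
    (fun u hu => hup' u ⟨hu.1, hu.2.trans hτ.2⟩) hp0
  set F := -f t7 with hFd
  have hF1 : F ≤ 36 / 100 := by linarith
  have hF0 : 0 < F := by linarith
  have m : ∀ u ∈ Icc t7 σ, u ∈ Icc 0 T := fun u hu => ⟨a1.trans hu.1, hu.2.trans hσT⟩
  have pm : ∀ u v, t7 ≤ u → u ≤ v → v ≤ σ → p v ≤ p u := fun u v h1 h2 h3 =>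
    anti_of_deriv h2 (fun w hw => h.dp w (m w ⟨h1.trans hw.1, hw.2.trans h3⟩))
      (fun w hw => (a7 w ⟨h1.trans hw.1.le, hw.2.le.trans h3⟩).le)
  have b1 := ge_of_deriv_ge (c := p t8) a2.le (fun w hw => h.df w (m w ⟨hw.1, by linarith [hw.2]⟩))
    (fun w hw => pm w t8 hw.1.le hw.2.le a3.le)
  have b2 := le_of_deriv_le (c := p t8) a3.le (fun w hw => h.df w (m w ⟨by linarith [hw.1], hw.2⟩))
    (fun w hw => pm t8 w a2.le hw.1.le hw.2.le)
  have hl : 0 < t8 - t7 := by linarith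
  have hl' : 0 < σ - t8 := by linarith
  have c1 := chord (y := fun u => f u + F * (t8 - u) / (t8 - t7))
    (y' := fun u => p u + F * (-1) / (t8 - t7)) (y'' := q) (a := t7) (b := t8)
    (fun w hw => (h.df w (m w ⟨hw.1, by linarith [hw.2]⟩)).fun_add
      ((((hasDerivAt_id' w).const_sub t8).const_mul F).div_const _))
    (fun w hw => (h.dp w (m w ⟨hw.1, by linarith [hw.2]⟩)).add_const _)
    (fun w hw => (a7 w ⟨hw.1.le, by linarith [hw.2]⟩).le)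
    (by rw [mul_div_assoc, div_self hl.ne']; linarith) (by simp [a5])
  have c2 := chord (y := fun u => f u - 49 / 100 * (u - t8) / (σ - t8))
    (y' := fun u => p u - 49 / 100 * 1 / (σ - t8)) (y'' := q) (a := t8) (b := σ)
    (fun w hw => (h.df w (m w ⟨by linarith [hw.1], hw.2⟩)).fun_sub
      ((((hasDerivAt_id' w).sub_const t8).const_mul (49 / 100)).div_const _))
    (fun w hw => (h.dp w (m w ⟨by linarith [hw.1], hw.2⟩)).sub_const _)
    (fun w hw => (a7 w ⟨by linarith [hw.1], hw.2.le⟩).le)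
    (by simp [a5]) (by rw [mul_div_assoc, div_self hl'.ne']; linarith)
  have d1 := cmp_of_deriv (z := fun u => -(F ^ 2 * (t8 - u) ^ 3 / (3 * (t8 - t7) ^ 2))
      - F * (t8 - u) ^ 2 / (2 * (t8 - t7)))
    (z' := fun u => (F * (t8 - u) / (t8 - t7)) ^ 2 + F * (t8 - u) / (t8 - t7)) a2.le
    (fun w hw => h.dg w (m w ⟨hw.1, by linarith [hw.2]⟩))
    (fun w _ => ((((((hasDerivAt_id' w).const_sub t8).fun_pow 3).const_mul (F ^ 2)).div_const
      _).fun_neg.fun_sub (((((hasDerivAt_id' w).const_sub t8).fun_pow 2).const_mul F).div_const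
      _)).congr_deriv (by field_simp; simp; ring))
    (fun w hw => by
      have e1 := c1 w (Ioo_subset_Icc_self hw)
      have e2 := a10 w ⟨hw.1.le, hw.2⟩
      have e3 : f τ ≤ f w := hmin (show w ∈ Icc tz σ from ⟨by linarith [hw.1], by linarith [hw.2]⟩)
      rw [kap_eq (by linarith) (by linarith) (Or.inr (by linarith))]
      nlinarith)
  have d2 := cmp_of_deriv (z := fun u => (49 / 100) ^ 2 * (u - t8) ^ 3 / (3 * (σ - t8) ^ 2)
      - 49 / 100 * (u - t8) ^ 2 / (2 * (σ - t8)))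
    (z' := fun u => (49 / 100 * (u - t8) / (σ - t8)) ^ 2 - 49 / 100 * (u - t8) / (σ - t8)) a3.le
    (fun w hw => h.dg w (m w ⟨by linarith [hw.1], hw.2⟩))
    (fun w _ => ((((((hasDerivAt_id' w).sub_const t8).fun_pow 3).const_mul ((49 / 100) ^ 2)).div_const
      _).fun_sub (((((hasDerivAt_id' w).sub_const t8).fun_pow 2).const_mul (49 / 100)).div_const
      _)).congr_deriv (by field_simp; simp; ring))
    (fun w hw => by
      have e1 := c2 w (Ioo_subset_Icc_self hw)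
      have e2 := a11 w ⟨hw.1, hw.2.le⟩
      have e3 := hup w ⟨by linarith [hw.1], hw.2.le⟩
      rw [kap_eq (by linarith) (by linarith) (Or.inr (by linarith))]
      nlinarith)
  have e1 : F ^ 2 * (t8 - t7) ^ 3 / (3 * (t8 - t7) ^ 2) = F ^ 2 * (t8 - t7) / 3 := by field_simp
  have e2 : F * (t8 - t7) ^ 2 / (2 * (t8 - t7)) = F * (t8 - t7) / 2 := by field_simp
  have e3 : (49 / 100) ^ 2 * (σ - t8) ^ 3 / (3 * (σ - t8) ^ 2) = (49 / 100) ^ 2 * (σ - t8) / 3 := by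
    field_simp
  have e4 : 49 / 100 * (σ - t8) ^ 2 / (2 * (σ - t8)) = 49 / 100 * (σ - t8) / 2 := by field_simp
  simp only [sub_self, ne_eq, OfNat.ofNat_ne_zero, not_false_eq_true, zero_pow, mul_zero,
    zero_div, e1, e2, e3, e4] at d1 d2
  have g9 := a9 σ ⟨by linarith, le_rfl⟩
  set l := t8 - t7
  set l' := σ - t8
  have k1 : p t8 * l ≤ F := by linarith
  have k2 : 49 / 100 ≤ p t8 * l' := by linarith
  have k3 : 49 / 100 * l ≤ F * l' := by nlinarith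
  have k4 : 49 / 100 * l ≤ 36 / 100 * l' := by nlinarith
  have k5 : F ^ 2 * l / 3 + F * l / 2 ≤ (36 / 100) ^ 2 * l / 3 + 36 / 100 * l / 2 := by
    have : F ^ 2 ≤ (36 / 100) ^ 2 := pow_le_pow_left₀ hF0.le hF1 2
    nlinarith
  linarith

theorem Sol.amp (hs : GoodS s) (h : Sol s T a b f p q g ν)
    (hN : ∀ t ∈ Ioc 0 T, ¬InV (f t) (p t) (q t) (g t)) (ha : a ∈ Ioc (1:ℝ) 100)
    (hT : 100000 ≤ T) (hE : f T + 2 * p T + q T = 0) :
    (∀ t ∈ Icc 0 T, -1 ≤ f t ∧ f t ≤ 100 ∧ kap (f t) (ν t) = f t ^ 2 - f t) ∧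
      ∀ t ∈ Icc 100000 T, f t ≤ 49 / 100 := by
  obtain ⟨tc, hc, hc0, hcp⟩ := h.descent hs hN ha hT hE
  have first : ∀ t ≤ T, (∀ r ∈ Icc 0 t, 0 ≤ f r) → ∀ r ∈ Icc 0 t,
      (-1 ≤ f r ∧ f r ≤ 100 ∧ kap (f r) (ν r) = f r ^ 2 - f r) ∧ (tc ≤ r → f r ≤ 49 / 100) := by
    intro t ht hf r hr
    have h1 := h.desc_anti hN ht hf le_rfl hr.1 hr.2
    rw [h.f0] at h1
    have h2 := hf r hr
    refine ⟨⟨by linarith, by linarith [ha.2], kap_eq (by linarith) (by linarith [ha.2])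
      (Or.inl (h.desc_ν hN ht hf r hr))⟩, fun h3 => ?_⟩
    linarith [h.desc_anti hN ht hf hc.1.le h3 hr.2]
  by_cases hex : ∃ t ∈ Icc 0 T, f t ≤ 0
  · obtain ⟨t, ht, hft⟩ := hex
    obtain ⟨tz, hz, hz0, hzp⟩ := first_zero ht.1
      ((contOn_of_deriv h.df).mono (Icc_subset_Icc_right ht.2)) (by rw [h.f0]; linarith [ha.1]) hft
    have hzf : ∀ r ∈ Icc 0 tz, 0 ≤ f r := by
      intro r hr
      rcases hr.2.eq_or_lt with h1 | h1
      · rw [h1, hz0]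
      · exact (hzp r ⟨hr.1, h1⟩).le
    have hzT := hz.2.trans ht.2
    have hup := h.up hs hN ha.2 hz.1 hz0 hzf
    have hlow := h.low hs hN ha.2 hz.1 hz0 hzf le_rfl (fun r hr => by linarith [hup r hr])
    constructor
    · intro r hr
      rcases le_total r tz with h1 | h1
      · exact (first tz hzT hzf r ⟨hr.1, h1⟩).1
      · have a1 := hup r ⟨h1, hr.2⟩
        have a2 := hlow r ⟨h1, hr.2⟩
        exact ⟨a2.le, by linarith, kap_eq (by linarith) (by linarith) (Or.inr (by linarith))⟩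
    · intro r hr
      rcases le_total r tz with h1 | h1
      · exact (first tz hzT hzf r ⟨by linarith [hr.1], h1⟩).2 (hc.2.trans hr.1)
      · exact (hup r ⟨h1, hr.2⟩).le
  · push Not at hex
    have := first T le_rfl (fun r hr => (hex r hr).le)
    exact ⟨fun r hr => (this r hr).1,
      fun r hr => (this r ⟨by linarith [hr.1], hr.2⟩).2 (hc.2.trans hr.1)⟩

end Pool.Agent.MP_6aeaf9_an.H53
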