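import Mathlib

/-! Elementary one-variable calculus tools. -/

namespace Pool.Agent.MP_6aeaf9_an.H53

open Set Filter Topology

theorem contOn_of_deriv {y y' : ℝ → ℝ} {a b : ℝ}
    (h : ∀ t ∈ Icc a b, HasDerivAt y (y' t) t) : ContinuousOn y (Icc a b) :=
  fun t ht => (h t ht).continuousAt.continuousWithinAt

/-- mean value theorem -/
theorem mvt {y y' : ℝ → ℝ} {a b : ℝ} (hab : a < b)
    (h : ∀ t ∈ Icc a b, HasDerivAt y (y' t) t) :
    ∃ c ∈ Ioo a b, y b - y a = y' c * (b - a) := by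
  obtain ⟨c, hc, he⟩ := exists_hasDerivAt_eq_slope y y' hab (contOn_of_deriv h)
    (fun t ht => h t (Ioo_subset_Icc_self ht))
  refine ⟨c, hc, ?_⟩
  rw [he]; field_simp [(sub_pos.mpr hab).ne']

theorem mono_of_deriv {y y' : ℝ → ℝ} {a b : ℝ} (hab : a ≤ b)
    (h : ∀ t ∈ Icc a b, HasDerivAt y (y' t) t) (h0 : ∀ t ∈ Ioo a b, 0 ≤ y' t) : y a ≤ y b := by
  rcases hab.eq_or_lt with rfl | hab
  · exact le_rfl
  obtain ⟨c, hc, he⟩ := mvt hab h
  have := mul_nonneg (h0 c hc) (sub_pos.mpr hab).le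
  linarith

theorem anti_of_deriv {y y' : ℝ → ℝ} {a b : ℝ} (hab : a ≤ b)
    (h : ∀ t ∈ Icc a b, HasDerivAt y (y' t) t) (h0 : ∀ t ∈ Ioo a b, y' t ≤ 0) : y b ≤ y a := by
  rcases hab.eq_or_lt with rfl | hab
  · exact le_rfl
  obtain ⟨c, hc, he⟩ := mvt hab h
  have := mul_nonpos_of_nonpos_of_nonneg (h0 c hc) (sub_pos.mpr hab).le
  linarith

theorem smono_of_deriv {y y' : ℝ → ℝ} {a b : ℝ} (hab : a < b)
    (h : ∀ t ∈ Icc a b, HasDerivAt y (y' t) t) (h0 : ∀ t ∈ Ioo a b, 0 < y' t) : y a < y b := by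
  obtain ⟨c, hc, he⟩ := mvt hab h
  have := mul_pos (h0 c hc) (sub_pos.mpr hab)
  linarith

theorem santi_of_deriv {y y' : ℝ → ℝ} {a b : ℝ} (hab : a < b)
    (h : ∀ t ∈ Icc a b, HasDerivAt y (y' t) t) (h0 : ∀ t ∈ Ioo a b, y' t < 0) : y b < y a := by
  obtain ⟨c, hc, he⟩ := mvt hab h
  have := mul_neg_of_neg_of_pos (h0 c hc) (sub_pos.mpr hab)
  linarith

theorem ge_of_deriv_ge {y y' : ℝ → ℝ} {a b c : ℝ} (hab : a ≤ b)
    (h : ∀ t ∈ Icc a b, HasDerivAt y (y' t) t) (h0 : ∀ t ∈ Ioo a b, c ≤ y' t) :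
    c * (b - a) ≤ y b - y a := by
  rcases hab.eq_or_lt with rfl | hab
  · simp
  obtain ⟨d, hd, he⟩ := mvt hab h
  rw [he]; exact mul_le_mul_of_nonneg_right (h0 d hd) (sub_pos.mpr hab).le

theorem le_of_deriv_le {y y' : ℝ → ℝ} {a b c : ℝ} (hab : a ≤ b)
    (h : ∀ t ∈ Icc a b, HasDerivAt y (y' t) t) (h0 : ∀ t ∈ Ioo a b, y' t ≤ c) :
    y b - y a ≤ c * (b - a) := by
  rcases hab.eq_or_lt with rfl | hab
  · simp
  obtain ⟨d, hd, he⟩ := mvt hab h
  rw [he]; exact mul_le_mul_of_nonneg_right (h0 d hd) (sub_pos.mpr hab).le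

theorem abs_sub_le_of_deriv {y y' : ℝ → ℝ} {a b c : ℝ} (hab : a ≤ b)
    (h : ∀ t ∈ Icc a b, HasDerivAt y (y' t) t) (h0 : ∀ t ∈ Ioo a b, |y' t| ≤ c) :
    |y b - y a| ≤ c * (b - a) := by
  have h1 := le_of_deriv_le hab h (fun t ht => (abs_le.mp (h0 t ht)).2)
  have h2 := ge_of_deriv_ge hab h (fun t ht => (abs_le.mp (h0 t ht)).1)
  rw [abs_le]; constructor <;> linarith

/-- comparison of two functions through their derivatives -/
theorem cmp_of_deriv {y y' z z' : ℝ → ℝ} {a b : ℝ} (hab : a ≤ b)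
    (hy : ∀ t ∈ Icc a b, HasDerivAt y (y' t) t) (hz : ∀ t ∈ Icc a b, HasDerivAt z (z' t) t)
    (h0 : ∀ t ∈ Ioo a b, y' t ≤ z' t) : y b - y a ≤ z b - z a := by
  have := mono_of_deriv (y := fun t => z t - y t) (y' := fun t => z' t - y' t) hab
    (fun t ht => (hz t ht).sub (hy t ht)) (fun t ht => sub_nonneg.mpr (h0 t ht))
  linarith

/-- last zero before a positive value -/
theorem last_zero {y : ℝ → ℝ} {a b : ℝ} (hab : a ≤ b) (hc : ContinuousOn y (Icc a b))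
    (ha : y a ≤ 0) (hb : 0 < y b) :
    ∃ c ∈ Ico a b, y c = 0 ∧ ∀ t ∈ Ioc c b, 0 < y t := by
  have hcl : IsClosed {t | t ∈ Icc a b ∧ y t ≤ 0} :=
    hc.preimage_isClosed_of_isClosed isClosed_Icc isClosed_Iic
  have hcp : IsCompact {t | t ∈ Icc a b ∧ y t ≤ 0} :=
    isCompact_Icc.of_isClosed_subset hcl (fun t ht => ht.1)
  obtain ⟨c, hcm, hmax⟩ := hcp.exists_isGreatest ⟨a, ⟨le_rfl, hab⟩, ha⟩
  have hcb : c < b := by
    rcases hcm.1.2.eq_or_lt with h | h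
    · rw [h] at hcm; exact absurd hcm.2 (not_le.mpr hb)
    · exact h
  have hpos : ∀ t ∈ Ioc c b, 0 < y t := by
    intro t ht
    by_contra hn
    have : t ≤ c := hmax ⟨⟨hcm.1.1.trans ht.1.le, ht.2⟩, not_lt.mp hn⟩
    exact absurd ht.1 (not_lt.mpr this)
  refine ⟨c, ⟨hcm.1.1, hcb⟩, ?_, hpos⟩
  have hsub : Icc c b ⊆ Icc a b := Icc_subset_Icc_left hcm.1.1
  obtain ⟨d, hd, hd0⟩ := intermediate_value_Icc hcb.le (hc.mono hsub) ⟨hcm.2, hb.le⟩
  rcases hd.1.eq_or_lt with h | h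
  · rw [h]; exact hd0
  · exact absurd hd0 (hpos d ⟨h, hd.2⟩).ne'

/-- first zero after a positive value -/
theorem first_zero {y : ℝ → ℝ} {a b : ℝ} (hab : a ≤ b) (hc : ContinuousOn y (Icc a b))
    (ha : 0 < y a) (hb : y b ≤ 0) :
    ∃ c ∈ Ioc a b, y c = 0 ∧ ∀ t ∈ Ico a c, 0 < y t := by
  have hc' : ContinuousOn (fun t => y (-t)) (Icc (-b) (-a)) := by
    refine hc.comp continuous_neg.continuousOn ?_
    intro t ht; exact ⟨by linarith [ht.2], by linarith [ht.1]⟩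
  obtain ⟨c, hcm, h0, hp⟩ := last_zero (y := fun t => y (-t)) (neg_le_neg hab) hc'
    (by simpa using hb) (by simpa using ha)
  refine ⟨-c, ⟨by linarith [hcm.2], by linarith [hcm.1]⟩, h0, fun t ht => ?_⟩
  have := hp (-t) ⟨by linarith [ht.2], by linarith [ht.1]⟩
  simpa using this

theorem exists_left_gt {y : ℝ → ℝ} {a b d : ℝ} (hab : a < b) (h : HasDerivAt y d b) (hd : d < 0) :
    ∃ t ∈ Ioo a b, y b < y t := by
  have h1 : Tendsto (slope y b) (𝓝[<] b) (𝓝 d) :=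
    (hasDerivAt_iff_tendsto_slope.mp h).mono_left (nhdsWithin_mono _ (fun t ht => ne_of_lt ht))
  have h2 : ∀ᶠ t in 𝓝[<] b, slope y b t < 0 := h1.eventually (gt_mem_nhds hd)
  have h3 : ∀ᶠ t in 𝓝[<] b, t ∈ Ioo a b := Ioo_mem_nhdsLT hab
  obtain ⟨t, ht1, ht2⟩ := (h2.and h3).exists
  refine ⟨t, ht2, ?_⟩
  rw [slope_def_field, div_neg_iff] at ht1
  rcases ht1 with h | h
  · linarith [h.1]
  · linarith [h.2, ht2.2]

theorem exists_right_gt {y : ℝ → ℝ} {a b d : ℝ} (hab : a < b) (h : HasDerivAt y d a) (hd : 0 < d) :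
    ∃ t ∈ Ioo a b, y a < y t := by
  have h1 : Tendsto (slope y a) (𝓝[>] a) (𝓝 d) :=
    (hasDerivAt_iff_tendsto_slope.mp h).mono_left (nhdsWithin_mono _ (fun t ht => ne_of_gt ht))
  have h2 : ∀ᶠ t in 𝓝[>] a, 0 < slope y a t := h1.eventually (lt_mem_nhds hd)
  have h3 : ∀ᶠ t in 𝓝[>] a, t ∈ Ioo a b := Ioo_mem_nhdsGT hab
  obtain ⟨t, ht1, ht2⟩ := (h2.and h3).exists
  refine ⟨t, ht2, ?_⟩
  rw [slope_def_field, div_pos_iff] at ht1
  rcases ht1 with h | h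
  · linarith [h.1]
  · linarith [h.2, ht2.1]

/-- backward persistence of positivity -/
theorem back_pos {y y' : ℝ → ℝ} {a b : ℝ}
    (h : ∀ t ∈ Icc a b, HasDerivAt y (y' t) t)
    (hs : ∀ t ∈ Ioc a b, 0 ≤ y t → y' t < 0) (hb : 0 ≤ y b) : ∀ t ∈ Ico a b, 0 < y t := by
  have key : ∀ b' ∈ Icc a b, 0 < y b' → ∀ t ∈ Icc a b', 0 < y t := by
    intro b' hb' hpos t ht
    by_contra hn
    have hsub : Icc t b' ⊆ Icc a b := Icc_subset_Icc ht.1 hb'.2
    obtain ⟨c, hc, hc0, hcp⟩ := last_zero ht.2 ((contOn_of_deriv h).mono hsub) (not_lt.mp hn) hpos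
    have hsub' : Icc c b' ⊆ Icc a b := Icc_subset_Icc (ht.1.trans hc.1) hb'.2
    have := santi_of_deriv hc.2 (fun s hs' => h s (hsub' hs'))
      (fun s hs' => hs s ⟨lt_of_le_of_lt (ht.1.trans hc.1) hs'.1, hs'.2.le.trans hb'.2⟩
        (hcp s ⟨hs'.1, hs'.2.le⟩).le)
    linarith
  intro t ht
  have hab : a < b := lt_of_le_of_lt ht.1 ht.2
  obtain ⟨u, hu, hyu⟩ := exists_left_gt ht.2 (h b ⟨hab.le, le_rfl⟩) (hs b ⟨hab, le_rfl⟩ hb)
  exact key u ⟨ht.1.trans hu.1.le, hu.2.le⟩ (by linarith) t ⟨ht.1, hu.1.le⟩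

/-- a concave function that is nonnegative at the ends is nonnegative -/
theorem chord {y y' y'' : ℝ → ℝ} {a b : ℝ}
    (h : ∀ t ∈ Icc a b, HasDerivAt y (y' t) t) (h' : ∀ t ∈ Icc a b, HasDerivAt y' (y'' t) t)
    (h0 : ∀ t ∈ Ioo a b, y'' t ≤ 0) (ha : 0 ≤ y a) (hb : 0 ≤ y b) : ∀ t ∈ Icc a b, 0 ≤ y t := by
  intro t ht
  by_contra hn
  push Not at hn
  have h1 : a < t := by
    rcases ht.1.eq_or_lt with h | h
    · rw [← h] at hn; linarith
    · exact h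
  have h2 : t < b := by
    rcases ht.2.eq_or_lt with h | h
    · rw [h] at hn; linarith
    · exact h
  obtain ⟨c, hc, hce⟩ := mvt h1 (fun s hs => h s ⟨hs.1, hs.2.trans ht.2⟩)
  obtain ⟨d, hd, hde⟩ := mvt h2 (fun s hs => h s ⟨ht.1.trans hs.1, hs.2⟩)
  have hc0 : y' c < 0 := by
    by_contra hh; push Not at hh
    have := mul_nonneg hh (sub_pos.mpr h1).le; linarith
  have hd0 : 0 < y' d := by
    by_contra hh; push Not at hh
    have := mul_nonpos_of_nonpos_of_nonneg hh (sub_pos.mpr h2).le; linarith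
  have := anti_of_deriv (hc.2.trans hd.1).le
    (fun s hs => h' s ⟨hc.1.le.trans hs.1, hs.2.trans hd.2.le⟩)
    (fun s hs => h0 s ⟨hc.1.trans hs.1, hs.2.trans hd.2⟩)
  linarith

theorem hasDerivAt_shift {y : ℝ → ℝ} {d t h : ℝ} (hy : HasDerivAt y d (t + h)) :
    HasDerivAt (fun s => y (s + h)) d t := by
  simpa using hy.comp_add_const t h

theorem second_diff {f p q : ℝ → ℝ} {t h γ : ℝ} (hh : 0 ≤ h)
    (hf : ∀ s ∈ Icc t (t + 2 * h), HasDerivAt f (p s) s)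
    (hp : ∀ s ∈ Icc t (t + 2 * h), HasDerivAt p (q s) s)
    (hq : ∀ s ∈ Icc t (t + 2 * h), γ ≤ q s) :
    γ * h ^ 2 ≤ f (t + 2 * h) - 2 * f (t + h) + f t := by
  have h1 : ∀ s ∈ Icc t (t + h), γ * h ≤ p (s + h) - p s := by
    intro s hs
    have := ge_of_deriv_ge (a := s) (b := s + h) (c := γ) (by linarith)
      (fun r hr => hp r ⟨by linarith [hr.1, hs.1], by linarith [hr.2, hs.2]⟩)
      (fun r hr => hq r ⟨by linarith [hr.1, hs.1], by linarith [hr.2, hs.2]⟩)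
    simpa using this
  have h2 := ge_of_deriv_ge (y := fun s => f (s + h) - f s) (y' := fun s => p (s + h) - p s)
    (a := t) (b := t + h) (c := γ * h) (by linarith)
    (fun r hr => (hasDerivAt_shift (hf _ ⟨by linarith [hr.1], by linarith [hr.2]⟩)).sub
      (hf r ⟨hr.1, by linarith [hr.2]⟩))
    (fun r hr => h1 r (Ioo_subset_Icc_self hr))
  rw [show t + h + h = t + 2 * h by ring] at h2
  nlinarith

theorem third_diff {f p q r : ℝ → ℝ} {t h γ : ℝ} (hh : 0 ≤ h)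
    (hf : ∀ s ∈ Icc t (t + 3 * h), HasDerivAt f (p s) s)
    (hp : ∀ s ∈ Icc t (t + 3 * h), HasDerivAt p (q s) s)
    (hq : ∀ s ∈ Icc t (t + 3 * h), HasDerivAt q (r s) s)
    (hr : ∀ s ∈ Icc t (t + 3 * h), γ ≤ r s) :
    γ * h ^ 3 ≤ f (t + 3 * h) - 3 * f (t + 2 * h) + 3 * f (t + h) - f t := by
  have h1 : ∀ s ∈ Icc t (t + h), γ * h ^ 2 ≤ p (s + 2 * h) - 2 * p (s + h) + p s := by
    intro s hs
    exact second_diff hh
      (fun u hu => hp u ⟨by linarith [hu.1, hs.1], by linarith [hu.2, hs.2]⟩)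
      (fun u hu => hq u ⟨by linarith [hu.1, hs.1], by linarith [hu.2, hs.2]⟩)
      (fun u hu => hr u ⟨by linarith [hu.1, hs.1], by linarith [hu.2, hs.2]⟩)
  have h2 := ge_of_deriv_ge (y := fun s => f (s + 2 * h) - 2 * f (s + h) + f s)
    (y' := fun s => p (s + 2 * h) - 2 * p (s + h) + p s)
    (a := t) (b := t + h) (c := γ * h ^ 2) (by linarith)
    (fun u hu => (((hasDerivAt_shift (hf _ ⟨by linarith [hu.1], by linarith [hu.2]⟩)).sub
      ((hasDerivAt_shift (hf _ ⟨by linarith [hu.1], by linarith [hu.2]⟩)).const_mul 2))).add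
      (hf u ⟨hu.1, by linarith [hu.2]⟩))
    (fun u hu => h1 u (Ioo_subset_Icc_self hu))
  rw [show t + h + 2 * h = t + 3 * h by ring, show t + h + h = t + 2 * h by ring] at h2
  nlinarith

/-- a continuous function with a continuous derivative off a countable set -/
theorem hasDerivAt_of_off_countable {F G : ℝ → ℝ} {S : Set ℝ} (hS : S.Countable)
    (hF : Continuous F) (hG : Continuous G) (h : ∀ x, x ∉ S → HasDerivAt F (G x) x) (x : ℝ) :
    HasDerivAt F (G x) x := by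
  have h1 : ∀ y, F y = F 0 + ∫ t in (0:ℝ)..y, G t := by
    intro y
    have := MeasureTheory.integral_eq_of_hasDerivAt_off_countable F G hS
      (a := 0) (b := y) hF.continuousOn (fun z hz => h z hz.2) (hG.intervalIntegrable _ _)
    rw [this]; ring
  have h2 : F = fun y => F 0 + ∫ t in (0:ℝ)..y, G t := funext h1
  rw [h2]
  exact (hG.integral_hasStrictDerivAt 0 x).hasDerivAt.const_add _

/-- Arzela-Ascoli on a segment -/
theorem arzela {E : Type} [NormedAddCommGroup E] [ProperSpace E] {a b : ℝ} (hab : a ≤ b)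
    (X : ℕ → ℝ → E) (M : ℝ) (hM : ∀ j, ∀ t ∈ Icc a b, ‖X j t‖ ≤ M)
    (he : ∀ ε > 0, ∃ δ > 0, ∀ j, ∀ s ∈ Icc a b, ∀ t ∈ Icc a b, |s - t| < δ →
      ‖X j s - X j t‖ < ε) :
    ∃ φ : ℕ → ℕ, StrictMono φ ∧ ∃ Y : ℝ → E, Continuous Y ∧
      TendstoUniformlyOn (fun j => X (φ j)) Y atTop (Icc a b) := by
  have hc : ∀ j, Continuous (fun t : Icc a b => X j t) := by
    intro j
    rw [Metric.continuous_iff]
    intro t ε hε
    obtain ⟨δ, hδ, h⟩ := he ε hε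
    refine ⟨δ, hδ, fun s hs => ?_⟩
    rw [dist_eq_norm]
    exact h j s s.2 t t.2 (by simpa [Subtype.dist_eq, Real.dist_eq] using hs)
  let Z : ℕ → BoundedContinuousFunction (Icc a b) E := fun j =>
    BoundedContinuousFunction.mkOfCompact ⟨fun t => X j t, hc j⟩
  have hcomp : IsCompact (closure (range Z)) := by
    refine BoundedContinuousFunction.arzela_ascoli (Metric.closedBall (0 : E) M)
      (isCompact_closedBall _ _) _ ?_ ?_
    · rintro f x ⟨j, rfl⟩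
      simpa [Z] using hM j x x.2
    · intro t
      rw [Metric.equicontinuousAt_iff]
      intro ε hε
      obtain ⟨δ, hδ, h⟩ := he ε hε
      refine ⟨δ, hδ, fun s hs => ?_⟩
      rintro ⟨f, j, rfl⟩
      rw [dist_eq_norm]
      exact h j t t.2 s s.2 (by rw [abs_sub_comm]; simpa [Subtype.dist_eq, Real.dist_eq] using hs)
  obtain ⟨W, -, φ, hφ, hlim⟩ := hcomp.tendsto_subseq (x := Z)
    (fun j => subset_closure (mem_range_self j))
  refine ⟨φ, hφ, fun t => W (projIcc a b hab t), W.continuous.comp continuous_projIcc, ?_⟩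
  rw [Metric.tendstoUniformlyOn_iff]
  intro ε hε
  have := (Metric.tendsto_nhds.mp hlim) ε hε
  filter_upwards [this] with j hj t ht
  rw [projIcc_of_mem hab ht, dist_comm]
  exact lt_of_le_of_lt (BoundedContinuousFunction.dist_coe_le_dist (f := Z (φ j)) (g := W) ⟨t, ht⟩) hj

end Pool.Agent.MP_6aeaf9_an.H53
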