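import Pool.Agent.MP_6aeaf9_an.H53.Flow

/-! The cone of sign patterns with one sign change and its forward invariance. -/

namespace Pool.Agent.MP_6aeaf9_an.H53

open Set Filter Topology Real

def InV (f p q g : ℝ) : Prop :=
  (0 ≤ f ∧ 0 ≤ p ∧ 0 ≤ q) ∨ (0 ≤ p ∧ 0 ≤ q ∧ 0 ≤ g) ∨ (0 ≤ q ∧ 0 ≤ g ∧ f ≤ 0) ∨
  (0 ≤ g ∧ f ≤ 0 ∧ p ≤ 0) ∨ (f ≤ 0 ∧ p ≤ 0 ∧ q ≤ 0) ∨ (p ≤ 0 ∧ q ≤ 0 ∧ g ≤ 0) ∨
  (q ≤ 0 ∧ g ≤ 0 ∧ 0 ≤ f) ∨ (g ≤ 0 ∧ 0 ≤ f ∧ 0 ≤ p)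

theorem InV.strict {f p q g : ℝ} (h : InV f p q g) (nz : ¬(f = 0 ∧ p = 0 ∧ q = 0 ∧ g = 0)) :
    (0 ≤ f ∧ 0 ≤ p ∧ 0 < q) ∨ (0 ≤ p ∧ 0 ≤ q ∧ 0 < g) ∨ (0 ≤ q ∧ 0 ≤ g ∧ 0 < -f) ∨
    (0 ≤ g ∧ 0 ≤ -f ∧ 0 < -p) ∨ (0 ≤ -f ∧ 0 ≤ -p ∧ 0 < -q) ∨ (0 ≤ -p ∧ 0 ≤ -q ∧ 0 < -g) ∨
    (0 ≤ -q ∧ 0 ≤ -g ∧ 0 < f) ∨ (0 ≤ -g ∧ 0 ≤ f ∧ 0 < p) := by
  unfold InV at h
  grind

theorem InV.zero {f p q g : ℝ} (h : InV f p q g) (hu : f + p - g = 0) (hv : p + q + g = 0) :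
    f = 0 ∧ p = 0 ∧ q = 0 ∧ g = 0 := by
  unfold InV at h
  rcases h with h | h | h | h | h | h | h | h <;> obtain ⟨h1, h2, h3⟩ := h <;>
    refine ⟨?_, ?_, ?_, ?_⟩ <;> linarith

theorem InV.right {f p q g : ℝ} (h : InV f p q g) (hg : 0 < g) :
    min (f + p - g) (-(p + q + g)) ≤ 0 := by
  unfold InV at h
  grind

theorem isClosed_InV : IsClosed {X : ℝ × ℝ × ℝ × ℝ | InV X.1 X.2.1 X.2.2.1 X.2.2.2} := by
  unfold InV
  simp only [Set.ofPred_or, Set.ofPred_and]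
  repeat' apply IsClosed.union
  all_goals
    refine IsClosed.inter (isClosed_le (by fun_prop) (by fun_prop))
      (IsClosed.inter (isClosed_le (by fun_prop) (by fun_prop)) (isClosed_le (by fun_prop) (by fun_prop)))

theorem triple_step {x y z x' y' z' : ℝ → ℝ} {t b : ℝ} (htb : t < b)
    (hx : ∀ s ∈ Icc t b, HasDerivAt x (x' s) s) (hy : ∀ s ∈ Icc t b, HasDerivAt y (y' s) s)
    (hz : ∀ s ∈ Icc t b, HasDerivAt z (z' s) s)
    (sx : ∀ s ∈ Icc t b, 0 ≤ y s → 0 ≤ x' s) (sy : ∀ s ∈ Icc t b, 0 ≤ z s → 0 ≤ y' s)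
    (h : 0 ≤ x t ∧ 0 ≤ y t ∧ 0 < z t) : ∃ u ∈ Ioc t b, 0 ≤ x u ∧ 0 ≤ y u ∧ 0 ≤ z u := by
  have h1 : ∀ᶠ s in 𝓝 t, 0 < z s :=
    (hz t ⟨le_rfl, htb.le⟩).continuousAt.eventually (lt_mem_nhds h.2.2)
  obtain ⟨u, hu, hu'⟩ := (mem_nhdsGE_iff_exists_Icc_subset (a := t)).mp
    ((h1.filter_mono nhdsWithin_le_nhds).and (Icc_mem_nhdsGE htb))
  have hub : u ≤ b := (hu' ⟨hu.le, le_rfl⟩).2.2
  have hy0 : ∀ s ∈ Icc t u, 0 ≤ y s := fun s hs => h.2.1.trans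
    (mono_of_deriv hs.1 (fun r hr => hy r ⟨hr.1, (hr.2.trans hs.2).trans hub⟩)
      (fun r hr => sy r ⟨hr.1.le, (hr.2.le.trans hs.2).trans hub⟩
        (hu' ⟨hr.1.le, hr.2.le.trans hs.2⟩).1.le))
  refine ⟨u, ⟨hu, hub⟩, h.1.trans ?_, hy0 u ⟨hu.le, le_rfl⟩, (hu' ⟨hu.le, le_rfl⟩).1.le⟩
  exact mono_of_deriv hu.le (fun r hr => hx r ⟨hr.1, hr.2.trans hub⟩)
    (fun r hr => sx r ⟨hr.1.le, hr.2.le.trans hub⟩ (hy0 r (Ioo_subset_Icc_self hr)))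

theorem cone_inv {f p q g r k : ℝ → ℝ} {a b : ℝ}
    (df : ∀ t ∈ Icc a b, HasDerivAt f (p t) t) (dp : ∀ t ∈ Icc a b, HasDerivAt p (q t) t)
    (dq : ∀ t ∈ Icc a b, HasDerivAt q (r t) t) (dg : ∀ t ∈ Icc a b, HasDerivAt g (k t) t)
    (r1 : ∀ t ∈ Icc a b, 0 ≤ g t → 0 ≤ r t) (r2 : ∀ t ∈ Icc a b, g t ≤ 0 → r t ≤ 0)
    (k1 : ∀ t ∈ Icc a b, f t ≤ 0 → 0 ≤ k t) (k2 : ∀ t ∈ Icc a b, 0 ≤ f t → k t ≤ 0)
    (nz : ∀ t ∈ Icc a b, ¬(f t = 0 ∧ p t = 0 ∧ q t = 0 ∧ g t = 0))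
    (h0 : InV (f a) (p a) (q a) (g a)) : ∀ t ∈ Icc a b, InV (f t) (p t) (q t) (g t) := by
  have hc : ContinuousOn (fun t => (f t, p t, q t, g t)) (Icc a b) :=
    (contOn_of_deriv df).prodMk ((contOn_of_deriv dp).prodMk
      ((contOn_of_deriv dq).prodMk (contOn_of_deriv dg)))
  have hcl : IsClosed ({t | InV (f t) (p t) (q t) (g t)} ∩ Icc a b) := by
    rw [inter_comm]; exact hc.preimage_isClosed_of_isClosed isClosed_Icc isClosed_InV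
  refine hcl.Icc_subset_of_forall_exists_gt h0 ?_
  rintro t ⟨hV, ht⟩ y hy
  have hlt : t < min y b := lt_min hy ht.2
  have hs : Icc t (min y b) ⊆ Icc a b := Icc_subset_Icc ht.1 (min_le_right _ _)
  have f1 := fun s h => df s (hs h)
  have p1 := fun s h => dp s (hs h)
  have q1 := fun s h => dq s (hs h)
  have g1 := fun s h => dg s (hs h)
  have f2 := fun s h => (df s (hs h)).fun_neg
  have p2 := fun s h => (dp s (hs h)).fun_neg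
  have q2 := fun s h => (dq s (hs h)).fun_neg
  have g2 := fun s h => (dg s (hs h)).fun_neg
  have R1 := fun s h => r1 s (hs h)
  have R2 : ∀ s ∈ Icc t (min y b), 0 ≤ -g s → 0 ≤ -r s :=
    fun s h h' => neg_nonneg.mpr (r2 s (hs h) (neg_nonneg.mp h'))
  have K1 : ∀ s ∈ Icc t (min y b), 0 ≤ -f s → 0 ≤ k s :=
    fun s h h' => k1 s (hs h) (neg_nonneg.mp h')
  have K2 : ∀ s ∈ Icc t (min y b), 0 ≤ f s → 0 ≤ -k s :=
    fun s h h' => neg_nonneg.mpr (k2 s (hs h) h')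
  have fin : ∀ u ∈ Ioc t (min y b), InV (f u) (p u) (q u) (g u) →
      ({t | InV (f t) (p t) (q t) (g t)} ∩ Ioc t y).Nonempty :=
    fun u hu h => ⟨u, h, hu.1, hu.2.trans (min_le_left _ _)⟩
  rcases InV.strict hV (nz t ⟨ht.1, ht.2.le⟩) with h | h | h | h | h | h | h | h
  · obtain ⟨u, hu, h'⟩ := triple_step hlt f1 p1 q1 (fun _ _ h => h) (fun _ _ h => h) h
    exact fin u hu (by unfold InV; grind)
  · obtain ⟨u, hu, h'⟩ := triple_step hlt p1 q1 g1 (fun _ _ h => h) R1 h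
    exact fin u hu (by unfold InV; grind)
  · obtain ⟨u, hu, h'⟩ := triple_step hlt q1 g1 f2 R1 K1 h
    exact fin u hu (by unfold InV; grind)
  · obtain ⟨u, hu, h'⟩ := triple_step hlt g1 f2 p2 K1 (fun _ _ h => h) h
    exact fin u hu (by unfold InV; grind)
  · obtain ⟨u, hu, h'⟩ := triple_step hlt f2 p2 q2 (fun _ _ h => h) (fun _ _ h => h) h
    exact fin u hu (by unfold InV; grind)
  · obtain ⟨u, hu, h'⟩ := triple_step hlt p2 q2 g2 (fun _ _ h => h) R2 h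
    exact fin u hu (by unfold InV; grind)
  · obtain ⟨u, hu, h'⟩ := triple_step hlt q2 g2 f1 R2 K2 h
    exact fin u hu (by unfold InV; grind)
  · obtain ⟨u, hu, h'⟩ := triple_step hlt g2 f1 p1 K2 (fun _ _ h => h) h
    exact fin u hu (by unfold InV; grind)

/-! properties of the nonlinearity -/

theorem kap_of_nonpos {f ν : ℝ} (hf : f ≤ 0) : 0 ≤ kap f ν := by
  unfold kap
  have h : max (-100) (min (min f (max ν (1 / 2))) 100) ≤ 0 :=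
    max_le (by norm_num) ((min_le_left _ _).trans ((min_le_left _ _).trans hf))
  nlinarith

theorem kap_of_nonneg {f ν : ℝ} (hf : 0 ≤ f) (hν : ν ≤ 1) : kap f ν ≤ 0 := by
  unfold kap
  have h : 0 ≤ max (-100) (min (min f (max ν (1 / 2))) 100) :=
    le_max_of_le_right (le_min (le_min hf (le_max_of_le_right (by norm_num))) (by norm_num))
  have h' : max (-100) (min (min f (max ν (1 / 2))) 100) ≤ 1 :=
    max_le (by norm_num) ((min_le_left _ _).trans ((min_le_right _ _).trans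
      (max_le hν (by norm_num))))
  nlinarith

theorem kap_of_ge {f ν m : ℝ} (hm : 1 ≤ m) (hm' : m ≤ 100) (hν : m ≤ ν) (hf : ν ≤ f) :
    m ^ 2 - m ≤ kap f ν := by
  unfold kap
  have h : m ≤ max (-100) (min (min f (max ν (1 / 2))) 100) :=
    le_max_of_le_right (le_min (le_min (hν.trans hf) (le_max_of_le_left hν)) hm')
  nlinarith

theorem kap_of_le {f ν : ℝ} (hf : f ≤ -100) : kap f ν = 10100 := by
  unfold kap
  rw [max_eq_left ((min_le_left _ _).trans ((min_le_left _ _).trans hf))]; norm_num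

theorem kap_eq {f ν : ℝ} (h1 : -100 ≤ f) (h2 : f ≤ 100) (h : f ≤ ν ∨ f ≤ 1 / 2) :
    kap f ν = f ^ 2 - f := by
  unfold kap
  rw [min_eq_left (le_max_iff.mpr h), min_eq_left h2, max_eq_right h1]

variable {s : ℝ → ℝ} {T a b : ℝ} {f p q g ν : ℝ → ℝ}

theorem Sol.ν_le (h : Sol s T a b f p q g ν) : ∀ t ∈ Icc 0 T, ν t ≤ f t := by
  intro t ht
  have := cmp_of_deriv ht.1 (fun r hr => h.dν r ⟨hr.1, hr.2.trans ht.2⟩)
    (fun r hr => h.df r ⟨hr.1, hr.2.trans ht.2⟩) (fun r _ => min_le_left _ _)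
  rw [h.f0, h.ν0] at this; linarith

theorem Sol.ν_anti (h : Sol s T a b f p q g ν) {t u : ℝ} (ht : 0 ≤ t) (htu : t ≤ u) (hu : u ≤ T) :
    ν u ≤ ν t :=
  anti_of_deriv htu (fun r hr => h.dν r ⟨ht.trans hr.1, hr.2.trans hu⟩) (fun _ _ => min_le_right _ _)

theorem Sol.inv2 (hs : GoodS s) (h : Sol s T a b f p q g ν) {t : ℝ} (ht : t ∈ Icc 0 T)
    (hν : ν t ≤ 1) (hV : InV (f t) (p t) (q t) (g t)) :
    ∀ u ∈ Icc t T, InV (f u) (p u) (q u) (g u) := by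
  have hsub : Icc t T ⊆ Icc 0 T := Icc_subset_Icc_left ht.1
  exact cone_inv (fun u hu => h.df u (hsub hu)) (fun u hu => h.dp u (hsub hu))
    (fun u hu => h.dq u (hsub hu)) (fun u hu => h.dg u (hsub hu))
    (fun u _ hg => hs.nonneg hg) (fun u _ hg => hs.nonpos hg)
    (fun u _ hf => kap_of_nonpos hf)
    (fun u hu hf => kap_of_nonneg hf ((h.ν_anti ht.1 hu.1 hu.2).trans hν))
    (fun u hu => h.nz u (hsub hu)) hV

theorem Sol.inv1 (hs : GoodS s) (h : Sol s T a b f p q g ν) {t : ℝ} (ht : t ∈ Icc 0 T)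
    (hν : 1 < ν t) (hp : 0 ≤ p t) (hq : 0 ≤ q t) (hg : 0 ≤ g t) :
    ∀ u ∈ Icc t T, 0 ≤ f u ∧ 0 ≤ p u ∧ 0 ≤ q u ∧ 0 ≤ g u := by
  have key : ∀ v ∈ Icc t T, (∀ u ∈ Ico t v, 1 < ν u) →
      ∀ u ∈ Icc t v, 0 ≤ p u ∧ 0 ≤ q u ∧ 0 ≤ g u := by
    intro v hv hν'
    have hsub : ∀ u ∈ Icc t v, Icc t u ⊆ Icc 0 T :=
      fun u hu => Icc_subset_Icc ht.1 (hu.2.trans hv.2)
    have g0 : ∀ u ∈ Icc t v, 0 ≤ g u := fun u hu => hg.trans
      (mono_of_deriv hu.1 (fun r hr => h.dg r (hsub u hu hr)) (fun r hr => by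
        have := kap_of_ge (m := 1) le_rfl (by norm_num) (hν' r ⟨hr.1.le, hr.2.trans_le hu.2⟩).le
          (h.ν_le r (hsub u hu (Ioo_subset_Icc_self hr)))
        linarith))
    have q0 : ∀ u ∈ Icc t v, 0 ≤ q u := fun u hu => hq.trans
      (mono_of_deriv hu.1 (fun r hr => h.dq r (hsub u hu hr))
        (fun r hr => hs.nonneg (g0 r ⟨hr.1.le, hr.2.le.trans hu.2⟩)))
    have p0 : ∀ u ∈ Icc t v, 0 ≤ p u := fun u hu => hp.trans
      (mono_of_deriv hu.1 (fun r hr => h.dp r (hsub u hu hr))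
        (fun r hr => q0 r ⟨hr.1.le, hr.2.le.trans hu.2⟩))
    exact fun u hu => ⟨p0 u hu, q0 u hu, g0 u hu⟩
  have hν1 : ∀ u ∈ Icc t T, 1 < ν u := by
    intro u hu
    by_contra hn
    have hsub : Icc t u ⊆ Icc 0 T := Icc_subset_Icc ht.1 hu.2
    obtain ⟨c, hc, hc0, hcp⟩ := first_zero (y := fun r => ν r - 1) hu.1
      (((contOn_of_deriv h.dν).mono hsub).sub continuousOn_const) (by linarith) (by linarith)
    have h1 := key c ⟨hc.1.le, hc.2.trans hu.2⟩ (fun r hr => by linarith [hcp r hr])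
    have h2 := mono_of_deriv hc.1.le (fun r hr => h.dν r (hsub ⟨hr.1, hr.2.trans hc.2⟩))
      (fun r hr => le_min (h1 r (Ioo_subset_Icc_self hr)).1 le_rfl)
    linarith
  intro u hu
  have := h.ν_le u ⟨ht.1.trans hu.1, hu.2⟩
  exact ⟨by linarith [hν1 u hu], key T ⟨ht.2, le_rfl⟩ (fun r hr => hν1 r (Ico_subset_Icc_self hr)) u hu⟩

/-- forward invariance of the cone at positive times -/
theorem Sol.inv (hs : GoodS s) (h : Sol s T a b f p q g ν) {t : ℝ} (ht : t ∈ Ioc 0 T)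
    (hV : InV (f t) (p t) (q t) (g t)) :
    ∀ u ∈ Icc t T, InV (f u) (p u) (q u) (g u) := by
  have ht' : t ∈ Icc 0 T := Ioc_subset_Icc_self ht
  rcases le_or_gt (ν t) 1 with hν | hν
  · exact h.inv2 hs ht' hν hV
  · have hg : 0 < g t := by
      have := smono_of_deriv ht.1 (fun r hr => h.dg r ⟨hr.1, hr.2.trans ht.2⟩) (fun r hr => by
        have h1 := h.ν_anti hr.1.le hr.2.le ht.2
        have := kap_of_ge (m := min (ν t) 100) (le_min hν.le (by norm_num)) (min_le_right _ _)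
          ((min_le_left _ _).trans h1) (h.ν_le r ⟨hr.1.le, hr.2.le.trans ht.2⟩)
        have h2 : 1 < min (ν t) 100 := lt_min hν (by norm_num)
        nlinarith)
      rwa [h.g0] at this
    have hf := h.ν_le t ht'
    have hpq : 0 ≤ p t ∧ 0 ≤ q t := by unfold InV at hV; grind
    intro u hu
    have := h.inv1 hs ht' hν hpq.1 hpq.2 hg.le u hu
    exact Or.inl ⟨this.1, this.2.1, this.2.2.1⟩

end Pool.Agent.MP_6aeaf9_an.H53
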