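import Pool.Agent.MP_6aeaf9_an.H53.Basic

/-! The regularised shooting system and its flow. -/

namespace Pool.Agent.MP_6aeaf9_an.H53

open Set Filter Topology Real

/-- regularised signed square root -/
noncomputable def sr (ε y : ℝ) : ℝ := √(max y 0 + ε ^ 2) - √(max (-y) 0 + ε ^ 2)

/-- truncated nonlinearity with memory -/
noncomputable def kap (f ν : ℝ) : ℝ :=
  (max (-100) (min (min f (max ν (1 / 2))) 100)) ^ 2 - max (-100) (min (min f (max ν (1 / 2))) 100)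

structure GoodS (s : ℝ → ℝ) : Prop where
  odd : ∀ y, s (-y) = -s y
  pos : ∀ y, 0 < y → 0 < s y
  ub : ∀ y m, 0 ≤ m → y ≤ m ^ 2 → s y ≤ m
  lb : ∀ y m, 0 ≤ m → m ^ 2 ≤ y → m - 1 ≤ s y

theorem GoodS.zero {s : ℝ → ℝ} (h : GoodS s) : s 0 = 0 := by
  have := h.odd 0; rw [neg_zero] at this; linarith

theorem GoodS.nonneg {s : ℝ → ℝ} (h : GoodS s) {y : ℝ} (hy : 0 ≤ y) : 0 ≤ s y := by
  rcases hy.eq_or_lt with rfl | hy
  · exact h.zero.ge
  · exact (h.pos y hy).le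

theorem GoodS.neg {s : ℝ → ℝ} (h : GoodS s) {y : ℝ} (hy : y < 0) : s y < 0 := by
  have := h.pos (-y) (by linarith); rw [h.odd] at this; linarith

theorem GoodS.nonpos {s : ℝ → ℝ} (h : GoodS s) {y : ℝ} (hy : y ≤ 0) : s y ≤ 0 := by
  have := h.nonneg (y := -y) (by linarith); rw [h.odd] at this; linarith

theorem GoodS.ub' {s : ℝ → ℝ} (h : GoodS s) {y m : ℝ} (hm : 0 ≤ m) (hy : -m ^ 2 ≤ y) : -m ≤ s y := by
  have := h.ub (-y) m hm (by linarith); rw [h.odd] at this; linarith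

theorem GoodS.lb' {s : ℝ → ℝ} (h : GoodS s) {y m : ℝ} (hm : 0 ≤ m) (hy : y ≤ -m ^ 2) :
    s y ≤ 1 - m := by
  have := h.lb (-y) m hm (by linarith); rw [h.odd] at this; linarith

theorem sr_neg (ε y : ℝ) : sr ε (-y) = -sr ε y := by simp [sr]

theorem sr_of_nonneg {ε y : ℝ} (hε : 0 ≤ ε) (hy : 0 ≤ y) : sr ε y = √(y + ε ^ 2) - ε := by
  rw [sr, max_eq_left hy, max_eq_right (by linarith), zero_add, sqrt_sq hε]

theorem sr_bounds {ε y : ℝ} (hε : 0 ≤ ε) (hy : 0 ≤ y) : √y - ε ≤ sr ε y ∧ sr ε y ≤ √y := by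
  rw [sr_of_nonneg hε hy]
  constructor
  · have := sqrt_le_sqrt (show y ≤ y + ε ^ 2 by nlinarith); linarith
  · have : √(y + ε ^ 2) ≤ √y + ε := by
      apply sqrt_le_iff.mpr ⟨by positivity, _⟩
      have := sq_sqrt hy
      have := sqrt_nonneg y
      nlinarith
    linarith

theorem goodS_sr {ε : ℝ} (hε : 0 ≤ ε) (hε1 : ε ≤ 1) : GoodS (sr ε) where
  odd := sr_neg ε
  pos := by
    intro y hy
    rw [sr_of_nonneg hε hy.le, sub_pos]
    exact lt_sqrt_of_sq_lt (by linarith)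
  ub := by
    intro y m hm h
    rcases le_total 0 y with hy | hy
    · exact (sr_bounds hε hy).2.trans (sqrt_le_iff.mpr ⟨hm, h⟩)
    · have h1 := sr_of_nonneg hε (show 0 ≤ -y by linarith)
      rw [sr_neg] at h1
      have : ε ≤ √(-y + ε ^ 2) := le_sqrt_of_sq_le (by linarith)
      linarith
  lb := by
    intro y m hm h
    have hy : 0 ≤ y := le_trans (sq_nonneg m) h
    have h1 := (sr_bounds hε hy).1
    have : m ≤ √y := le_sqrt_of_sq_le h
    linarith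

theorem sr_sub_le {ε y : ℝ} (hε : 0 ≤ ε) : |sr ε y - sr 0 y| ≤ ε := by
  wlog hy : 0 ≤ y generalizing y
  · have := this (y := -y) (by linarith)
    rw [sr_neg, sr_neg, ← abs_neg] at this
    convert this using 2; ring
  have h1 := sr_bounds hε hy
  have h2 := sr_bounds le_rfl hy
  rw [abs_le]; constructor <;> linarith [h1.1, h1.2, h2.1, h2.2]

theorem sr_zero_spec (y : ℝ) : |sr 0 y| * sr 0 y = y := by
  wlog hy : 0 ≤ y generalizing y
  · have := this (-y) (by linarith)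
    rw [sr_neg, abs_neg] at this; linarith
  rw [sr_of_nonneg le_rfl hy]
  simp only [ne_eq, OfNat.ofNat_ne_zero, not_false_eq_true, zero_pow, add_zero, sub_zero]
  rw [abs_of_nonneg (sqrt_nonneg y), mul_self_sqrt hy]

theorem continuous_sr (ε : ℝ) : Continuous (sr ε) := by unfold sr; fun_prop

theorem sqrt_lip {ε : ℝ} (hε : 0 < ε) {x y : ℝ} (hx : 0 ≤ x) (hy : 0 ≤ y) :
    |√(x + ε ^ 2) - √(y + ε ^ 2)| ≤ (1 / (2 * ε)) * |x - y| := by
  have h1 : ε ≤ √(x + ε ^ 2) := le_sqrt_of_sq_le (by linarith)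
  have h2 : ε ≤ √(y + ε ^ 2) := le_sqrt_of_sq_le (by linarith)
  have h3 : (√(x + ε ^ 2) - √(y + ε ^ 2)) * (√(x + ε ^ 2) + √(y + ε ^ 2)) = x - y := by
    have := sq_sqrt (show 0 ≤ x + ε ^ 2 by positivity)
    have := sq_sqrt (show 0 ≤ y + ε ^ 2 by positivity)
    nlinarith
  rw [← h3, abs_mul, abs_of_pos (by linarith : 0 < √(x + ε ^ 2) + √(y + ε ^ 2)), one_div,
    ← div_eq_inv_mul, le_div_iff₀ (by positivity)]
  exact mul_le_mul_of_nonneg_left (by linarith) (abs_nonneg _)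

theorem sr_lip {ε : ℝ} (hε : 0 < ε) : ∃ K, LipschitzWith K (sr ε) := by
  refine ⟨⟨1 / ε, by positivity⟩, LipschitzWith.of_dist_le_mul fun x y => ?_⟩
  rw [Real.dist_eq, Real.dist_eq]
  have h1 := sqrt_lip hε (le_max_right x 0) (le_max_right y 0)
  have h2 := sqrt_lip hε (le_max_right (-x) 0) (le_max_right (-y) 0)
  have h3 : |max x 0 - max y 0| ≤ |x - y| := abs_max_sub_max_le_abs x y 0
  have h4 : |max (-x) 0 - max (-y) 0| ≤ |x - y| := by
    have := abs_max_sub_max_le_abs (-x) (-y) 0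
    rwa [show -x - -y = -(x - y) by ring, abs_neg] at this
  have h5 : 0 ≤ 1 / (2 * ε) := by positivity
  have h6 := mul_le_mul_of_nonneg_left h3 h5
  have h7 := mul_le_mul_of_nonneg_left h4 h5
  have h8 : sr ε x - sr ε y = (√(max x 0 + ε ^ 2) - √(max y 0 + ε ^ 2))
      - (√(max (-x) 0 + ε ^ 2) - √(max (-y) 0 + ε ^ 2)) := by unfold sr; ring
  have h9 := abs_sub (√(max x 0 + ε ^ 2) - √(max y 0 + ε ^ 2))
    (√(max (-x) 0 + ε ^ 2) - √(max (-y) 0 + ε ^ 2))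
  have h10 : (1 / ε) * |x - y| = 1 / (2 * ε) * |x - y| + 1 / (2 * ε) * |x - y| := by
    field_simp; ring
  show |sr ε x - sr ε y| ≤ (1 / ε) * |x - y|
  rw [h8]; linarith

theorem clamp_mem (M y : ℝ) (hM : 0 ≤ M) : -M ≤ max (-M) (min y M) ∧ max (-M) (min y M) ≤ M :=
  ⟨le_max_left _ _, max_le (by linarith) (min_le_right _ _)⟩

theorem clamp_abs_le (M y : ℝ) (hM : 0 ≤ M) : |max (-M) (min y M)| ≤ |y| := by
  rw [abs_le]
  have h1 := le_abs_self y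
  have h2 := neg_abs_le y
  have h3 := abs_nonneg y
  constructor
  · exact le_max_of_le_right (le_min h2 (by linarith))
  · exact max_le (by linarith) ((min_le_left _ _).trans h1)

theorem clamp_eq {M y : ℝ} (h : |y| ≤ M) : max (-M) (min y M) = y := by
  rw [abs_le] at h
  rw [min_eq_left h.2, max_eq_right h.1]

theorem kap_bounds (f ν : ℝ) : -(1 / 4) ≤ kap f ν ∧ kap f ν ≤ 10100 := by
  unfold kap
  obtain ⟨h1, h2⟩ := clamp_mem 100 (min f (max ν (1 / 2))) (by norm_num)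
  constructor <;> nlinarith [sq_nonneg (max (-100) (min (min f (max ν (1 / 2))) 100) - 1 / 2)]

theorem kap_lip : ∃ K, LipschitzWith K (fun z : ℝ × ℝ => kap z.1 z.2) := by
  have h1 : LipschitzWith 201
      (fun y : ℝ => (max (-100) (min y 100)) ^ 2 - max (-100) (min y 100)) := by
    refine LipschitzWith.of_dist_le_mul fun x y => ?_
    rw [Real.dist_eq, Real.dist_eq]
    obtain ⟨a1, a2⟩ := clamp_mem 100 x (by norm_num)
    obtain ⟨b1, b2⟩ := clamp_mem 100 y (by norm_num)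
    have h3 : |max (-100) (min x 100) - max (-100) (min y 100)| ≤ |x - y| := by
      have := ((LipschitzWith.id.min_const (100:ℝ)).const_max (-100)).dist_le_mul x y
      simpa [Real.dist_eq] using this
    rw [show (max (-100) (min x 100)) ^ 2 - max (-100) (min x 100) -
      ((max (-100) (min y 100)) ^ 2 - max (-100) (min y 100)) =
      (max (-100) (min x 100) + max (-100) (min y 100) - 1) *
        (max (-100) (min x 100) - max (-100) (min y 100)) by ring, abs_mul]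
    refine mul_le_mul ?_ h3 (abs_nonneg _) (by norm_num)
    rw [abs_le]; constructor <;> push_cast <;> linarith
  exact ⟨_, h1.comp (LipschitzWith.prod_fst.min (LipschitzWith.prod_snd.max_const (1 / 2)))⟩

theorem osc_le0 {y y' : ℝ → ℝ} {T c : ℝ} (hc : 0 ≤ c)
    (h : ∀ t ∈ Icc 0 T, HasDerivAt y (y' t) t) (h0 : ∀ t ∈ Icc 0 T, |y' t| ≤ c)
    {s : ℝ} (hs : s ∈ Icc 0 T) : |y s - y 0| ≤ c * T := by
  have := abs_sub_le_of_deriv hs.1 (fun t ht => h t ⟨ht.1, ht.2.trans hs.2⟩)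
    (fun t ht => h0 t ⟨ht.1.le, ht.2.le.trans hs.2⟩)
  exact this.trans (mul_le_mul_of_nonneg_left (by linarith [hs.2]) hc)

/-- solutions of the regularised system with memory -/
structure Sol (s : ℝ → ℝ) (T a b : ℝ) (f p q g ν : ℝ → ℝ) : Prop where
  df : ∀ t ∈ Icc 0 T, HasDerivAt f (p t) t
  dp : ∀ t ∈ Icc 0 T, HasDerivAt p (q t) t
  dq : ∀ t ∈ Icc 0 T, HasDerivAt q (s (g t)) t
  dg : ∀ t ∈ Icc 0 T, HasDerivAt g (kap (f t) (ν t)) t
  dν : ∀ t ∈ Icc 0 T, HasDerivAt ν (min (p t) 0) t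
  f0 : f 0 = a
  p0 : p 0 = 0
  q0 : q 0 = b
  g0 : g 0 = 0
  ν0 : ν 0 = a
  nz : ∀ t ∈ Icc 0 T, ¬(f t = 0 ∧ p t = 0 ∧ q t = 0 ∧ g t = 0)

theorem exists_flow {ε T : ℝ} (hε : 0 < ε) (hε1 : ε ≤ 1) (hT : 0 < T) :
    ∃ Φ : (ℝ × ℝ) × ℝ → ℝ × ℝ × ℝ × ℝ × ℝ,
      ContinuousOn Φ ((Icc 1 100 ×ˢ Icc (-1000000) 0) ×ˢ Icc 0 T) ∧
      ∀ a ∈ Icc (1:ℝ) 100, ∀ b ∈ Icc (-1000000:ℝ) 0, Sol (sr ε) T a b
        (fun t => (Φ ((a, b), t)).1) (fun t => (Φ ((a, b), t)).2.1)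
        (fun t => (Φ ((a, b), t)).2.2.1) (fun t => (Φ ((a, b), t)).2.2.2.1)
        (fun t => (Φ ((a, b), t)).2.2.2.2) := by
  have hs := goodS_sr hε.le hε1
  set m1 : ℝ := 1 + 10100 * T with hm1
  set m2 : ℝ := 1000000 + m1 * T with hm2
  have hm10 : 0 < m1 := by positivity
  have hm20 : 0 < m2 := by positivity
  set M : ℝ := 10100 + m1 + m2 + m2 * T with hM
  have hm2T : 0 < m2 * T := by positivity
  have hM0 : 0 < M := by positivity
  let cl : ℝ → ℝ := fun y => max (-M) (min y M)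
  have hcl : LipschitzWith 1 cl := (LipschitzWith.id.min_const M).const_max (-M)
  let V : ℝ × ℝ × ℝ × ℝ × ℝ → ℝ × ℝ × ℝ × ℝ × ℝ := fun X =>
    (cl X.2.1, cl X.2.2.1, cl (sr ε X.2.2.2.1), kap X.1 X.2.2.2.2, min (cl X.2.1) 0)
  obtain ⟨K1, hK1⟩ := sr_lip hε
  obtain ⟨K2, hK2⟩ := kap_lip
  have l2 : LipschitzWith _ (fun X : ℝ × ℝ × ℝ × ℝ × ℝ => X.2.1) :=
    LipschitzWith.prod_fst.comp LipschitzWith.prod_snd
  have l3 : LipschitzWith _ (fun X : ℝ × ℝ × ℝ × ℝ × ℝ => X.2.2.1) :=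
    LipschitzWith.prod_fst.comp (LipschitzWith.prod_snd.comp LipschitzWith.prod_snd)
  have l4 : LipschitzWith _ (fun X : ℝ × ℝ × ℝ × ℝ × ℝ => X.2.2.2.1) :=
    LipschitzWith.prod_fst.comp (LipschitzWith.prod_snd.comp
      (LipschitzWith.prod_snd.comp LipschitzWith.prod_snd))
  have l5 : LipschitzWith _ (fun X : ℝ × ℝ × ℝ × ℝ × ℝ => X.2.2.2.2) :=
    LipschitzWith.prod_snd.comp (LipschitzWith.prod_snd.comp
      (LipschitzWith.prod_snd.comp LipschitzWith.prod_snd))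
  obtain ⟨K, hK⟩ : ∃ K, LipschitzWith K V :=
    ⟨_, (hcl.comp l2).prodMk ((hcl.comp l3).prodMk ((hcl.comp (hK1.comp l4)).prodMk
      ((hK2.comp (LipschitzWith.prod_fst.prodMk l5)).prodMk ((hcl.comp l2).min_const 0))))⟩
  have hclM : ∀ y, |cl y| ≤ M := fun y => abs_le.mpr (clamp_mem M y hM0.le)
  have hVb : ∀ X, ‖V X‖ ≤ M := by
    intro X
    simp only [V, Prod.norm_def, Real.norm_eq_abs, max_le_iff]
    refine ⟨hclM _, hclM _, hclM _, ?_, ?_⟩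
    · have := kap_bounds X.1 X.2.2.2.2
      rw [abs_le]; constructor <;> linarith [this.1, this.2]
    · have := abs_le.mp (hclM X.2.1)
      rw [abs_le]
      exact ⟨le_min this.1 (by linarith), (min_le_right _ _).trans hM0.le⟩
  have h0 : (0:ℝ) ∈ Icc (-1) (T + 1) := ⟨by norm_num, by linarith⟩
  have hPL : IsPicardLindelof (fun _ => V) (⟨0, h0⟩ : Icc (-1) (T + 1)) 0
      ⟨1000000 + M * (T + 1), by positivity⟩ ⟨1000000, by norm_num⟩ ⟨M, hM0.le⟩ K := by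
    refine ⟨fun _ _ => hK.lipschitzOnWith, fun _ _ => continuousOn_const, fun _ _ X _ => hVb X, ?_⟩
    show M * max (T + 1 - 0) (0 - -1) ≤ 1000000 + M * (T + 1) - 1000000
    rw [max_eq_left (by linarith)]; simp
  obtain ⟨α, hα, hαc⟩ := hPL.exists_forall_mem_closedBall_eq_hasDerivWithinAt_continuousOn
  have hball : ∀ a ∈ Icc (1:ℝ) 100, ∀ b ∈ Icc (-1000000:ℝ) 0,
      ((a, 0, b, 0, a) : ℝ × ℝ × ℝ × ℝ × ℝ) ∈ Metric.closedBall (0 : ℝ × ℝ × ℝ × ℝ × ℝ)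
        ((⟨1000000, by norm_num⟩ : NNReal) : ℝ) := by
    intro a ha b hb
    rw [mem_closedBall_zero_iff]
    simp only [Prod.norm_def, Real.norm_eq_abs, max_le_iff, abs_le]
    show (-1000000 ≤ a ∧ a ≤ 1000000) ∧ (-1000000 ≤ (0:ℝ) ∧ (0:ℝ) ≤ 1000000) ∧
      (-1000000 ≤ b ∧ b ≤ 1000000) ∧ (-1000000 ≤ (0:ℝ) ∧ (0:ℝ) ≤ 1000000) ∧
      (-1000000 ≤ a ∧ a ≤ 1000000)
    refine ⟨⟨?_, ?_⟩, ⟨?_, ?_⟩, ⟨?_, ?_⟩, ⟨?_, ?_⟩, ⟨?_, ?_⟩⟩ <;> linarith [ha.1, ha.2, hb.1, hb.2]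
  refine ⟨fun z => α ((z.1.1, 0, z.1.2, 0, z.1.1), z.2), ?_, ?_⟩
  · refine hαc.comp (by fun_prop) ?_
    rintro ⟨⟨a, b⟩, t⟩ ⟨⟨ha, hb⟩, ht⟩
    exact ⟨hball a ha b hb, ⟨by linarith [ht.1], by linarith [ht.2]⟩⟩
  intro a ha b hb
  obtain ⟨hi, hd⟩ := hα _ (hball a ha b hb)
  set X : ℝ → ℝ × ℝ × ℝ × ℝ × ℝ := fun t => α ((a, 0, b, 0, a), t) with hX
  have hX0 : X 0 = (a, 0, b, 0, a) := hi
  have hD : ∀ t ∈ Icc 0 T, HasDerivAt X (V (X t)) t := fun t ht =>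
    (hd t ⟨by linarith [ht.1], by linarith [ht.2]⟩).hasDerivAt
      (Icc_mem_nhds (by linarith [ht.1]) (by linarith [ht.2]))
  have d1 : ∀ t ∈ Icc 0 T, HasDerivAt (fun t => (X t).1) (cl (X t).2.1) t :=
    fun t ht => (hD t ht).fst
  have d2 : ∀ t ∈ Icc 0 T, HasDerivAt (fun t => (X t).2.1) (cl (X t).2.2.1) t :=
    fun t ht => (hD t ht).snd.fst
  have d3 : ∀ t ∈ Icc 0 T, HasDerivAt (fun t => (X t).2.2.1) (cl (sr ε (X t).2.2.2.1)) t :=
    fun t ht => (hD t ht).snd.snd.fst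
  have d4 : ∀ t ∈ Icc 0 T, HasDerivAt (fun t => (X t).2.2.2.1) (kap (X t).1 (X t).2.2.2.2) t :=
    fun t ht => (hD t ht).snd.snd.snd.fst
  have d5 : ∀ t ∈ Icc 0 T, HasDerivAt (fun t => (X t).2.2.2.2) (min (cl (X t).2.1) 0) t :=
    fun t ht => (hD t ht).snd.snd.snd.snd
  have m0 : (0:ℝ) ∈ Icc 0 T := ⟨le_rfl, hT.le⟩
  have b4 : ∀ t ∈ Icc 0 T, |sr ε (X t).2.2.2.1| ≤ m1 := by
    intro t ht
    have := osc_le0 (c := 10100) (by norm_num) d4 (fun r _ => by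
      have := kap_bounds (X r).1 (X r).2.2.2.2
      rw [abs_le]; constructor <;> linarith [this.1, this.2]) ht
    rw [hX0] at this
    simp only [sub_zero] at this
    rw [abs_le] at this ⊢
    have h1 : 10100 * T ≤ m1 ^ 2 := by rw [hm1]; nlinarith
    exact ⟨hs.ub' hm10.le (by linarith [this.1]), hs.ub _ _ hm10.le (by linarith [this.2])⟩
  have b3 : ∀ t ∈ Icc 0 T, |(X t).2.2.1| ≤ m2 := by
    intro t ht
    have := osc_le0 (c := m1) hm10.le d3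
      (fun r hr => (clamp_abs_le M _ hM0.le).trans (b4 r hr)) ht
    rw [hX0] at this
    simp only at this
    rw [abs_le] at this ⊢
    constructor <;> linarith [this.1, this.2, hb.1, hb.2]
  have b2 : ∀ t ∈ Icc 0 T, |(X t).2.1| ≤ m2 * T := by
    intro t ht
    have := osc_le0 (c := m2) hm20.le d2
      (fun r hr => (clamp_abs_le M _ hM0.le).trans (b3 r hr)) ht
    rw [hX0] at this
    simpa using this
  have e2 : ∀ t ∈ Icc 0 T, cl (X t).2.1 = (X t).2.1 :=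
    fun t ht => clamp_eq ((b2 t ht).trans (by linarith))
  have e3 : ∀ t ∈ Icc 0 T, cl (X t).2.2.1 = (X t).2.2.1 :=
    fun t ht => clamp_eq ((b3 t ht).trans (by linarith))
  have e4 : ∀ t ∈ Icc 0 T, cl (sr ε (X t).2.2.2.1) = sr ε (X t).2.2.2.1 :=
    fun t ht => clamp_eq ((b4 t ht).trans (by linarith))
  refine ⟨fun t ht => e2 t ht ▸ d1 t ht, fun t ht => e3 t ht ▸ d2 t ht,
    fun t ht => e4 t ht ▸ d3 t ht, d4, fun t ht => e2 t ht ▸ d5 t ht,
    congrArg (·.1) hX0, congrArg (·.2.1) hX0, congrArg (·.2.2.1) hX0, congrArg (·.2.2.2.1) hX0,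
    congrArg (·.2.2.2.2) hX0, ?_⟩
  rintro t ht ⟨z1, z2, z3, z4⟩
  have hc0 : cl 0 = 0 := clamp_eq (by simpa using hM0.le)
  have hXt : X t = (0, 0, 0, 0, (X t).2.2.2.2) := by
    exact Prod.ext z1 (Prod.ext z2 (Prod.ext z3 (Prod.ext z4 rfl)))
  have hV0 : V (0, 0, 0, 0, (X t).2.2.2.2) = 0 := by
    have : kap 0 (X t).2.2.2.2 = 0 := by
      unfold kap
      rw [min_eq_left (le_max_of_le_right (by norm_num : (0:ℝ) ≤ 1 / 2))]; norm_num
    simp [V, hc0, hs.zero, this]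
  have := ODE_solution_unique_of_mem_Icc_left (v := fun _ => V) (s := fun _ => univ) (K := K)
    (f := X) (g := fun _ => (0, 0, 0, 0, (X t).2.2.2.2)) (a := 0) (b := t)
    (fun _ _ => hK.lipschitzOnWith)
    (fun r hr => (hD r ⟨hr.1, hr.2.trans ht.2⟩).continuousAt.continuousWithinAt)
    (fun r hr => (hD r ⟨hr.1.le, hr.2.trans ht.2⟩).hasDerivWithinAt) (fun _ _ => trivial)
    continuousOn_const (fun r _ => by rw [hV0]; exact hasDerivWithinAt_const _ _ _)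
    (fun _ _ => trivial) hXt ⟨le_rfl, ht.1⟩
  rw [hX0] at this
  have : a = 0 := congrArg (·.1) this
  linarith [ha.1]

end Pool.Agent.MP_6aeaf9_an.H53
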