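import Pool.Agent.MP_6aeaf9_an.H53.Limit

/-! Reflection and extension by zero of the half profile. -/

namespace Pool.Agent.MP_6aeaf9_an.H53

open Set Filter Topology Real

noncomputable def Ev (T : ℝ) (y : ℝ → ℝ) (x : ℝ) : ℝ := y (min |x| T)

noncomputable def Od (T : ℝ) (y : ℝ → ℝ) (x : ℝ) : ℝ := y (min (max x 0) T) - y (min (max (-x) 0) T)

variable {T x : ℝ} {y y' : ℝ → ℝ}

theorem Ev_pos (h : x ∈ Ioo 0 T) : Ev T y x = y x := by
  unfold Ev; rw [abs_of_pos h.1, min_eq_left h.2.le]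

theorem Ev_neg (h : x ∈ Ioo (-T) 0) : Ev T y x = y (-x) := by
  unfold Ev; rw [abs_of_neg h.2, min_eq_left (by linarith [h.1])]

theorem Ev_far (h : T < |x|) : Ev T y x = y T := by
  unfold Ev; rw [min_eq_right h.le]

theorem Od_pos (h : x ∈ Ioo 0 T) : Od T y x = y x - y 0 := by
  unfold Od
  rw [max_eq_left h.1.le, min_eq_left h.2.le, max_eq_right (by linarith [h.1]),
    min_eq_left (by linarith [h.1, h.2])]

theorem Od_neg (h : x ∈ Ioo (-T) 0) : Od T y x = y 0 - y (-x) := by
  unfold Od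
  rw [max_eq_right h.2.le, min_eq_left (by linarith [h.1, h.2]), max_eq_left (by linarith [h.2]),
    min_eq_left (by linarith [h.1])]

theorem Od_far1 (hT : 0 < T) (h : T < x) : Od T y x = y T - y 0 := by
  unfold Od
  rw [max_eq_left (by linarith), min_eq_right h.le, max_eq_right (by linarith), min_eq_left hT.le]

theorem Od_far2 (hT : 0 < T) (h : x < -T) : Od T y x = y 0 - y T := by
  unfold Od
  rw [max_eq_right (by linarith), min_eq_left hT.le, max_eq_left (by linarith),
    min_eq_right (by linarith)]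

theorem continuous_Ev (h : Continuous y) : Continuous (Ev T y) := by unfold Ev; fun_prop

theorem continuous_Od (h : Continuous y) : Continuous (Od T y) := by unfold Od; fun_prop

theorem four_cases (hx : x ∉ ({0, T, -T} : Set ℝ)) :
    x ∈ Ioo 0 T ∨ x ∈ Ioo (-T) 0 ∨ T < x ∨ x < -T := by
  simp only [mem_insert_iff, mem_singleton_iff, mem_Ioo] at hx ⊢
  grind

theorem Ev_deriv (hT : 0 < T) (hy : Continuous y) (hy' : Continuous y')
    (hd : ∀ t ∈ Ioo 0 T, HasDerivAt y (y' t) t) (h0 : y' 0 = 0) (h1 : y' T = 0) (x : ℝ) :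
    HasDerivAt (Ev T y) (Od T y' x) x := by
  refine hasDerivAt_of_off_countable (S := {0, T, -T}) (Set.toFinite _).countable
    (continuous_Ev hy) (continuous_Od hy') (fun x hx => ?_) x
  rcases four_cases hx with h | h | h | h
  · rw [Od_pos h, h0, sub_zero]
    exact (hd x h).congr_of_eventuallyEq
      (eventually_of_mem (Ioo_mem_nhds h.1 h.2) fun _ h => Ev_pos h)
  · rw [Od_neg h, h0, zero_sub]
    have := (hd (-x) ⟨by linarith [h.2], by linarith [h.1]⟩).comp x (hasDerivAt_neg x)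
    exact (this.congr_deriv (by ring)).congr_of_eventuallyEq
      (eventually_of_mem (Ioo_mem_nhds h.1 h.2) fun _ h => Ev_neg h)
  · rw [Od_far1 hT h, h0, h1, sub_zero]
    exact (hasDerivAt_const x (y T)).congr_of_eventuallyEq
      (eventually_of_mem (Ioi_mem_nhds h) fun _ h => Ev_far (lt_of_lt_of_le h (le_abs_self _)))
  · rw [Od_far2 hT h, h0, h1, sub_zero]
    exact (hasDerivAt_const x (y T)).congr_of_eventuallyEq
      (eventually_of_mem (Iio_mem_nhds h) fun z h =>
        Ev_far (lt_of_lt_of_le (by linarith [mem_Iio.mp h]) (neg_le_abs z)))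

theorem Od_deriv (hT : 0 < T) (hy : Continuous y) (hy' : Continuous y')
    (hd : ∀ t ∈ Ioo 0 T, HasDerivAt y (y' t) t) (h1 : y' T = 0) (x : ℝ) :
    HasDerivAt (Od T y) (Ev T y' x) x := by
  refine hasDerivAt_of_off_countable (S := {0, T, -T}) (Set.toFinite _).countable
    (continuous_Od hy) (continuous_Ev hy') (fun x hx => ?_) x
  rcases four_cases hx with h | h | h | h
  · rw [Ev_pos h]
    exact ((hd x h).sub_const (y 0)).congr_of_eventuallyEq
      (eventually_of_mem (Ioo_mem_nhds h.1 h.2) fun _ h => Od_pos h)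
  · rw [Ev_neg h]
    have := ((hd (-x) ⟨by linarith [h.2], by linarith [h.1]⟩).comp x
      (hasDerivAt_neg x)).const_sub (y 0)
    exact (this.congr_deriv (by ring)).congr_of_eventuallyEq
      (eventually_of_mem (Ioo_mem_nhds h.1 h.2) fun _ h => Od_neg h)
  · rw [Ev_far (lt_of_lt_of_le h (le_abs_self _)), h1]
    exact (hasDerivAt_const x (y T - y 0)).congr_of_eventuallyEq
      (eventually_of_mem (Ioi_mem_nhds h) fun _ h => Od_far1 hT h)
  · rw [Ev_far (lt_of_lt_of_le (by linarith) (neg_le_abs x)), h1]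
    exact (hasDerivAt_const x (y 0 - y T)).congr_of_eventuallyEq
      (eventually_of_mem (Iio_mem_nhds h) fun _ h => Od_far2 hT h)

theorem Od_sr (hT : 0 < T) (h0 : y 0 = 0) (x : ℝ) :
    Od T (fun t => sr 0 (y t)) x = sr 0 (Od T y x) := by
  have hz := (goodS_sr le_rfl zero_le_one).zero
  unfold Od
  rcases le_total 0 x with h | h
  · rw [max_eq_right (by linarith : -x ≤ 0), min_eq_left hT.le]; simp only [h0, hz, sub_zero]
  · rw [max_eq_right h, min_eq_left hT.le]; simp only [h0, hz, zero_sub, sr_neg]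

theorem full_profile : ∃ T : ℝ, ∃ F P Q R G : ℝ → ℝ, Continuous R ∧
    (∀ x, HasDerivAt F (P x) x) ∧ (∀ x, HasDerivAt P (Q x) x) ∧ (∀ x, HasDerivAt Q (R x) x) ∧
    (∀ x, |R x| * R x = G x) ∧ (∀ x, HasDerivAt G (F x ^ 2 - F x) x) ∧ 1 ≤ F 0 ∧
    (∀ x, F (-x) = F x) ∧ ∀ x, T < |x| → F x = 0 := by
  obtain ⟨T, hT, f, p, q, g, cf, cp, cq, cg, df, dp, dq, dg, f0, p0, g0, f1, p1, q1, g1⟩ :=
    half_profile
  have hz := (goodS_sr le_rfl zero_le_one).zero
  have cs : Continuous fun t => sr 0 (g t) := (continuous_sr 0).comp cg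
  refine ⟨T, Ev T f, Od T p, Ev T q, Od T (fun t => sr 0 (g t)), Od T g, continuous_Od cs,
    Ev_deriv hT cf cp df p0 p1, Od_deriv hT cp cq dp q1,
    Ev_deriv hT cq cs dq (by rw [g0, hz]) (by rw [g1, hz]), fun x => ?_,
    Od_deriv (y' := fun t => f t ^ 2 - f t) hT cg (by fun_prop) dg (by simp [f1]), ?_,
    fun x => by simp [Ev], fun x hx => by rw [Ev_far hx, f1]⟩
  · rw [Od_sr hT g0, sr_zero_spec]
  · simpa [Ev, min_eq_left hT.le] using f0

end Pool.Agent.MP_6aeaf9_an.H53
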