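import Pool.Agent.MP_6aeaf9_an.H53.Cone
import Pool.Agent.MP_6aeaf9_an.H53.Miranda

/-! The two-parameter shooting argument. -/

namespace Pool.Agent.MP_6aeaf9_an.H53

open Set Filter Topology Real

variable {s : ℝ → ℝ} {T a b : ℝ} {f p q g ν : ℝ → ℝ}

theorem Sol.g_le (h : Sol s T a b f p q g ν) {t u : ℝ} (ht : 0 ≤ t) (htu : t ≤ u) (hu : u ≤ T) :
    g u - g t ≤ 10100 * (u - t) :=
  le_of_deriv_le htu (fun r hr => h.dg r ⟨ht.trans hr.1, hr.2.trans hu⟩)
    (fun _ _ => (kap_bounds _ _).2)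

theorem Sol.g_ge (h : Sol s T a b f p q g ν) {t u : ℝ} (ht : 0 ≤ t) (htu : t ≤ u) (hu : u ≤ T) :
    -(1 / 4) * (u - t) ≤ g u - g t :=
  ge_of_deriv_ge htu (fun r hr => h.dg r ⟨ht.trans hr.1, hr.2.trans hu⟩)
    (fun _ _ => (kap_bounds _ _).1)

theorem Sol.bottom (hs : GoodS s) (h : Sol s T a (-1000000) f p q g ν) (ha : a ≤ 100)
    (hT : 400 ≤ T) :
    (∀ t ∈ Icc (0:ℝ) 400, f t + 2 * p t + q t < 0) ∧ InV (f 400) (p 400) (q 400) (g 400) := by
  have hq : ∀ t ∈ Icc (0:ℝ) 400, q t ≤ -196000 := by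
    intro t ht
    have := le_of_deriv_le (c := 2010) ht.1 (fun r hr => h.dq r ⟨hr.1, by linarith [hr.2, ht.2]⟩)
      (fun r hr => hs.ub _ _ (by norm_num) (by
        have := h.g_le le_rfl hr.1.le (by linarith [hr.2, ht.2])
        rw [h.g0] at this; linarith [hr.2, ht.2]))
    rw [h.q0] at this; linarith [ht.2]
  have hp : ∀ t ∈ Icc (0:ℝ) 400, p t ≤ -196000 * t := by
    intro t ht
    have := le_of_deriv_le (c := -196000) ht.1 (fun r hr => h.dp r ⟨hr.1, by linarith [hr.2, ht.2]⟩)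
      (fun r hr => hq r ⟨hr.1.le, by linarith [hr.2, ht.2]⟩)
    rw [h.p0] at this; linarith
  have hf : ∀ t ∈ Icc (0:ℝ) 400, f t ≤ 100 := by
    intro t ht
    have := anti_of_deriv ht.1 (fun r hr => h.df r ⟨hr.1, by linarith [hr.2, ht.2]⟩)
      (fun r hr => by have := hp r ⟨hr.1.le, by linarith [hr.2, ht.2]⟩; nlinarith [hr.1])
    rw [h.f0] at this; linarith
  refine ⟨fun t ht => by nlinarith [hq t ht, hp t ht, hf t ht, ht.1], ?_⟩
  have h1 := le_of_deriv_le (c := -196000) (a := 1) (b := 400) (by norm_num)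
    (fun r hr => h.df r ⟨by linarith [hr.1], by linarith [hr.2]⟩)
    (fun r hr => by have := hp r ⟨by linarith [hr.1], hr.2.le⟩; nlinarith [hr.1])
  have h2 := hf 1 ⟨by norm_num, by norm_num⟩
  have h3 := hp 400 ⟨by norm_num, le_rfl⟩
  have h4 := hq 400 ⟨by norm_num, le_rfl⟩
  unfold InV
  exact Or.inr (Or.inr (Or.inr (Or.inr (Or.inl ⟨by linarith, by linarith, by linarith⟩))))

theorem Sol.right_fast (hs : GoodS s) (h : Sol s T 100 b f p q g ν) (hb : b ≤ -1600)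
    (hT : 400 ≤ T) : 0 < g 400 ∧ InV (f 400) (p 400) (q 400) (g 400) := by
  have hq : ∀ t ∈ Icc (0:ℝ) 1, q t ≤ -1499 := by
    intro t ht
    have := le_of_deriv_le (c := 101) ht.1 (fun r hr => h.dq r ⟨hr.1, by linarith [hr.2, ht.2]⟩)
      (fun r hr => hs.ub _ _ (by norm_num) (by
        have := h.g_le le_rfl hr.1.le (by linarith [hr.2, ht.2])
        rw [h.g0] at this; linarith [hr.2, ht.2]))
    rw [h.q0] at this; linarith [ht.2]
  have hp : ∀ t ∈ Icc (0:ℝ) 1, p t ≤ -1499 * t := by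
    intro t ht
    have := le_of_deriv_le (c := -1499) ht.1 (fun r hr => h.dp r ⟨hr.1, by linarith [hr.2, ht.2]⟩)
      (fun r hr => hq r ⟨hr.1.le, by linarith [hr.2, ht.2]⟩)
    rw [h.p0] at this; linarith
  have hf0 : f (2 / 5) ≤ 100 := by
    have := anti_of_deriv (a := 0) (b := 2 / 5) (by norm_num)
      (fun r hr => h.df r ⟨hr.1, by linarith [hr.2]⟩)
      (fun r hr => by have := hp r ⟨hr.1.le, by linarith [hr.2]⟩; nlinarith [hr.1])
    rw [h.f0] at this; linarith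
  have hf : ∀ t ∈ Icc (3 / 4 : ℝ) 1, f t ≤ -100 := by
    intro t ht
    have := le_of_deriv_le (c := -599) (a := 2 / 5) (b := t) (by linarith [ht.1])
      (fun r hr => h.df r ⟨by linarith [hr.1], by linarith [hr.2, ht.2]⟩)
      (fun r hr => by have := hp r ⟨by linarith [hr.1], by linarith [hr.2, ht.2]⟩; nlinarith [hr.1])
    linarith [ht.1]
  have g1 := h.g_ge (t := 0) (u := 3 / 4) le_rfl (by norm_num) (by linarith)
  have g2 := ge_of_deriv_ge (c := 10100) (a := 3 / 4) (b := 1) (by norm_num)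
    (fun r hr => h.dg r ⟨by linarith [hr.1], by linarith [hr.2]⟩)
    (fun r hr => (kap_of_le (hf r (Ioo_subset_Icc_self hr))).ge)
  have g3 := h.g_ge (t := 1) (u := 400) (by norm_num) (by norm_num) hT
  rw [h.g0] at g1
  refine ⟨by linarith, h.inv hs (t := 1) ⟨by norm_num, by linarith⟩ ?_ 400 ⟨by norm_num, hT⟩⟩
  have h2 := hf 1 ⟨by norm_num, by norm_num⟩
  have h3 := hp 1 ⟨by norm_num, le_rfl⟩
  have h4 := hq 1 ⟨by norm_num, le_rfl⟩
  unfold InV
  exact Or.inr (Or.inr (Or.inr (Or.inr (Or.inl ⟨by linarith, by linarith, by linarith⟩))))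

theorem Sol.right_slow (hs : GoodS s) (h : Sol s T 100 b f p q g ν) (hb : -1600 ≤ b)
    (hT : 400 ≤ T) : 0 < g 400 ∧ InV (f 400) (p 400) (q 400) (g 400) := by
  have hq : ∀ t ∈ Icc (0:ℝ) 1, -1601 ≤ q t := by
    intro t ht
    have := ge_of_deriv_ge (c := -(1 / 2)) ht.1
      (fun r hr => h.dq r ⟨hr.1, by linarith [hr.2, ht.2]⟩)
      (fun r hr => hs.ub' (by norm_num) (by
        have := h.g_ge le_rfl hr.1.le (by linarith [hr.2, ht.2])
        rw [h.g0] at this; linarith [hr.2, ht.2]))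
    rw [h.q0] at this; linarith [ht.2]
  have hp : ∀ t ∈ Icc (0:ℝ) 1, -1601 * t ≤ p t := by
    intro t ht
    have := ge_of_deriv_ge (c := -1601) ht.1 (fun r hr => h.dp r ⟨hr.1, by linarith [hr.2, ht.2]⟩)
      (fun r hr => hq r ⟨hr.1.le, by linarith [hr.2, ht.2]⟩)
    rw [h.p0] at this; linarith
  have hν : ∀ t ∈ Icc (0:ℝ) (1 / 10), 50 ≤ ν t := by
    intro t ht
    have := ge_of_deriv_ge (c := -161) ht.1 (fun r hr => h.dν r ⟨hr.1, by linarith [hr.2, ht.2]⟩)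
      (fun r hr => le_min (by
        have := hp r ⟨hr.1.le, by linarith [hr.2, ht.2]⟩; linarith [hr.2, ht.2]) (by norm_num))
    rw [h.ν0] at this; linarith [ht.2]
  have g1 := ge_of_deriv_ge (c := 2450) (a := 0) (b := 1 / 10) (by norm_num)
    (fun r hr => h.dg r ⟨hr.1, by linarith [hr.2]⟩)
    (fun r hr => by
      have := kap_of_ge (m := 50) (by norm_num) (by norm_num) (hν r (Ioo_subset_Icc_self hr))
        (h.ν_le r ⟨hr.1.le, by linarith [hr.2]⟩)
      linarith)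
  rw [h.g0] at g1
  have hg : ∀ t ∈ Icc (1:ℝ) 400, 144 ≤ g t := by
    intro t ht
    have := h.g_ge (t := 1 / 10) (u := t) (by norm_num) (by linarith [ht.1]) (by linarith [ht.2])
    linarith [ht.2]
  have hq' : ∀ t ∈ Icc (1:ℝ) 400, -1601 + 11 * (t - 1) ≤ q t := by
    intro t ht
    have := ge_of_deriv_ge (c := 11) ht.1
      (fun r hr => h.dq r ⟨by linarith [hr.1], by linarith [hr.2, ht.2]⟩)
      (fun r hr => by
        have := hs.lb (g r) 12 (by norm_num)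
          (by have := hg r ⟨hr.1.le, by linarith [hr.2, ht.2]⟩; linarith)
        linarith)
    linarith [hq 1 ⟨by norm_num, le_rfl⟩]
  have hz : ∀ r ∈ Icc (1:ℝ) 400, HasDerivAt (fun t : ℝ => -1601 * t + 11 / 2 * (t - 1) ^ 2)
      (-1601 + 11 * (r - 1)) r := by
    intro r _
    have := ((hasDerivAt_id r).const_mul (-1601)).add
      ((((hasDerivAt_id r).sub_const 1).pow 2).const_mul (11 / 2))
    exact this.congr_deriv (by simp; ring)
  have hp' := cmp_of_deriv (a := 1) (b := 400) (by norm_num) hz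
    (fun r hr => h.dp r ⟨by linarith [hr.1], by linarith [hr.2]⟩)
    (fun r hr => hq' r (Ioo_subset_Icc_self hr))
  have h1 := hp 1 ⟨by norm_num, le_rfl⟩
  have h2 := hq' 400 ⟨by norm_num, le_rfl⟩
  have h3 := hg 400 ⟨by norm_num, le_rfl⟩
  refine ⟨by linarith, ?_⟩
  unfold InV
  exact Or.inr (Or.inl ⟨by norm_num at hp'; linarith, by linarith, by linarith⟩)

theorem Sol.left (hs : GoodS s) (h : Sol s T 1 b f p q g ν) (hT : 0 ≤ T) :
    ∀ u ∈ Icc 0 T, InV (f u) (p u) (q u) (g u) := by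
  refine h.inv2 hs ⟨le_rfl, hT⟩ h.ν0.le ?_
  rw [h.f0, h.p0, h.g0]
  unfold InV; grind

theorem Sol.top (hs : GoodS s) (h : Sol s T a 0 f p q g ν) (ha : 1 < a) (hT : 0 ≤ T) :
    ∀ u ∈ Icc 0 T, 0 ≤ f u ∧ 0 ≤ p u ∧ 0 ≤ q u ∧ 0 ≤ g u :=
  h.inv1 hs ⟨le_rfl, hT⟩ (by rw [h.ν0]; exact ha) h.p0.ge h.q0.ge h.g0.ge

theorem shoot {ε T : ℝ} (hε : 0 < ε) (hε1 : ε ≤ 1) (hT : 400 ≤ T) :
    ∃ a ∈ Ioc (1:ℝ) 100, ∃ b ∈ Icc (-1000000:ℝ) 0, ∃ f p q g ν : ℝ → ℝ,
      Sol (sr ε) T a b f p q g ν ∧ f T + 2 * p T + q T = 0 ∧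
      ∀ t ∈ Ioc 0 T, ¬InV (f t) (p t) (q t) (g t) := by
  have hs := goodS_sr hε.le hε1
  obtain ⟨Φ, hΦc, hΦ⟩ := exists_flow hε hε1 (show 0 < T by linarith)
  let r1 : ℝ × ℝ → ℝ := fun z => max 1 (min z.1 100)
  let r2 : ℝ × ℝ → ℝ := fun z => max (-1000000) (min z.2 0)
  let lam : ℝ × ℝ → ℝ := fun z => min 1 (max |z.1 - r1 z| |z.2 - r2 z|)
  let τ : ℝ × ℝ → ℝ := fun z => (1 - lam z) * T + lam z * (400 * (r1 z - 1) / 99)
  have hr1 : ∀ z, r1 z ∈ Icc (1:ℝ) 100 :=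
    fun z => ⟨le_max_left _ _, max_le (by norm_num) (min_le_right _ _)⟩
  have hr2 : ∀ z, r2 z ∈ Icc (-1000000:ℝ) 0 :=
    fun z => ⟨le_max_left _ _, max_le (by norm_num) (min_le_right _ _)⟩
  have hlam : ∀ z, lam z ∈ Icc (0:ℝ) 1 :=
    fun z => ⟨le_min zero_le_one (le_max_of_le_left (abs_nonneg _)), min_le_left _ _⟩
  have hτ : ∀ z, τ z ∈ Icc 0 T := by
    intro z
    obtain ⟨h1, h2⟩ := hr1 z
    obtain ⟨h3, h4⟩ := hlam z
    have h5 : 0 ≤ 400 * (r1 z - 1) / 99 := by linarith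
    have h6 : 400 * (r1 z - 1) / 99 ≤ T := by linarith
    constructor <;> simp only [τ] <;> nlinarith
  let X : ℝ × ℝ → ℝ × ℝ × ℝ × ℝ × ℝ := fun z => Φ ((r1 z, r2 z), τ z)
  have hX : Continuous X :=
    hΦc.comp_continuous (by fun_prop) (fun z => ⟨⟨hr1 z, hr2 z⟩, hτ z⟩)
  let w1 : ℝ × ℝ → ℝ := fun z => min ((X z).1 + (X z).2.1 - (X z).2.2.2.1)
    (-((X z).2.1 + (X z).2.2.1 + (X z).2.2.2.1))
  let w2 : ℝ × ℝ → ℝ := fun z => (X z).1 + 2 * (X z).2.1 + (X z).2.2.1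
  have S := fun z => hΦ (r1 z) (hr1 z) (r2 z) (hr2 z)
  have right : ∀ z, r1 z = 100 → 0 < (Φ ((r1 z, r2 z), 400)).2.2.2.1 ∧
      InV (Φ ((r1 z, r2 z), 400)).1 (Φ ((r1 z, r2 z), 400)).2.1 (Φ ((r1 z, r2 z), 400)).2.2.1
        (Φ ((r1 z, r2 z), 400)).2.2.2.1 := by
    intro z hz
    have h := S z
    rw [hz] at h ⊢
    rcases le_total (r2 z) (-1600) with h1 | h1
    · exact h.right_fast hs h1 hT
    · exact h.right_slow hs h1 hT
  obtain ⟨x, hx, y, hy, e1, e2⟩ := miranda (w1 := w1) (w2 := w2) (by fun_prop) (by fun_prop)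
    (x0 := 0) (x1 := 101) (y0 := -1000001) (y1 := 1) (by norm_num) (by norm_num)
    (fun y _ => by
      have h1 : r1 (0, y) = 1 := by simp [r1]
      have h2 : lam (0, y) = 1 := by simp [lam, h1]
      have h3 : τ (0, y) = 0 := by simp [τ, h1, h2]
      have h := S (0, y)
      have a1 := h.f0
      have a2 := h.p0
      have a3 := h.q0
      have a4 := h.g0
      simp only [w1, X, h3]
      rw [a1, a2, a3, a4, h1]
      exact le_min (by norm_num) (by linarith [(hr2 (0, y)).2]))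
    (fun y _ => by
      have h1 : r1 (101, y) = 100 := by norm_num [r1]
      have h2 : lam (101, y) = 1 := by norm_num [lam, h1]
      have h3 : τ (101, y) = 400 := by norm_num [τ, h1, h2]
      simp only [w1, X, h3]
      exact (right _ h1).2.right (right _ h1).1)
    (fun x _ => by
      have h1 : r2 (x, -1000001) = -1000000 := by norm_num [r2]
      have h2 : lam (x, -1000001) = 1 := by norm_num [lam, h1]
      have h := S (x, -1000001)
      rw [h1] at h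
      have h4 := (h.bottom hs (hr1 _).2 hT).1 (τ (x, -1000001)) ⟨(hτ _).1, by
        simp only [τ, h2]; linarith [(hr1 (x, -1000001)).2]⟩
      simp only [w2, X, h1]
      exact h4.le)
    (fun x _ => by
      have h1 : r2 (x, 1) = 0 := by norm_num [r2]
      have h2 : lam (x, 1) = 1 := by norm_num [lam, h1]
      have h := S (x, 1)
      rw [h1] at h
      simp only [w2, X, h1]
      rcases (hr1 (x, 1)).1.eq_or_lt with h3 | h3
      · have h4 : τ (x, 1) = 0 := by simp [τ, h2, ← h3]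
        have a1 := h.f0
        have a2 := h.p0
        have a3 := h.q0
        rw [h4, a1, a2, a3, ← h3]; norm_num
      · have := h.top hs h3 (by linarith) _ (hτ (x, 1))
        linarith [this.1, this.2.1, this.2.2.1])
  set z : ℝ × ℝ := (x, y) with hz
  have h := S z
  have hu : (X z).1 + (X z).2.1 - (X z).2.2.2.1 = 0 ∧
      (X z).2.1 + (X z).2.2.1 + (X z).2.2.2.1 = 0 := by
    simp only [w1, w2] at e1 e2
    rcases min_choice ((X z).1 + (X z).2.1 - (X z).2.2.2.1)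
      (-((X z).2.1 + (X z).2.2.1 + (X z).2.2.2.1)) with h1 | h1 <;> rw [h1] at e1 <;>
      constructor <;> linarith
  have hnV : ¬InV (X z).1 (X z).2.1 (X z).2.2.1 (X z).2.2.2.1 :=
    fun hV => h.nz _ (hτ z) (hV.zero hu.1 hu.2)
  have n1 : r1 z ≠ 1 := by
    intro h1
    rw [h1] at h
    have := h.left hs (by linarith) _ (hτ z)
    rw [← h1] at this
    exact hnV this
  have n1' : 1 < r1 z := lt_of_le_of_ne (hr1 z).1 n1.symm
  have hl0 : lam z = 0 := by
    by_contra hl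
    have n2 : r2 z ≠ 0 := by
      intro h1
      rw [h1] at h
      have := h.top hs n1' (by linarith) _ (hτ z)
      rw [← h1] at this
      exact hnV (Or.inl ⟨h1 ▸ this.1, h1 ▸ this.2.1, h1 ▸ this.2.2.1⟩)
    have n3 : r1 z ≠ 100 := by
      intro h1
      refine hnV (h.inv hs (t := 400) ⟨by norm_num, hT⟩ (right z h1).2 _ ⟨?_, (hτ z).2⟩)
      simp only [τ, h1]
      nlinarith [(hlam z).1, (hlam z).2]
    have n4 : r2 z ≠ -1000000 := by
      intro h1
      have h' := h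
      rw [h1] at h'
      have hb := h'.bottom hs (hr1 _).2 hT
      rw [← h1] at hb
      rcases le_total (τ z) 400 with h2 | h2
      · have := hb.1 (τ z) ⟨(hτ z).1, h2⟩
        simp only [w2, X] at e2
        linarith
      · exact hnV (h.inv hs (t := 400) ⟨by norm_num, hT⟩ hb.2 _ ⟨h2, (hτ z).2⟩)
    apply hl
    have c1 : r1 z = z.1 := by
      simp only [r1] at n1 n3 ⊢
      grind
    have c2 : r2 z = z.2 := by
      simp only [r2] at n2 n4 ⊢
      grind
    simp [lam, c1, c2]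
  have hτT : τ z = T := by simp [τ, hl0]
  simp only [w2, X, hτT] at e2 hnV
  exact ⟨r1 z, ⟨n1', (hr1 z).2⟩, r2 z, hr2 z, _, _, _, _, _, h, e2,
    fun t ht hV => hnV (h.inv hs ht hV T ⟨ht.2, le_rfl⟩)⟩

end Pool.Agent.MP_6aeaf9_an.H53
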