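import Pool.Agent.MP_6aeaf9_an.H53.Basic

/-! Finite-distance extinction for the degenerate fourth-order system. -/

namespace Pool.Agent.MP_6aeaf9_an.H53

open Set Filter Topology

theorem osc_le {y y' : ℝ → ℝ} {a b c : ℝ} (hc : 0 ≤ c)
    (h : ∀ t ∈ Icc a b, HasDerivAt y (y' t) t) (h0 : ∀ t ∈ Icc a b, |y' t| ≤ c)
    {s s' : ℝ} (hs : s ∈ Icc a b) (hs' : s' ∈ Icc a b) : |y s - y s'| ≤ c * (b - a) := by
  wlog hle : s' ≤ s generalizing s s'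
  · rw [abs_sub_comm]; exact this hs' hs (not_le.mp hle).le
  have := abs_sub_le_of_deriv hle (fun t ht => h t ⟨hs'.1.trans ht.1, ht.2.trans hs.2⟩)
    (fun t ht => h0 t ⟨hs'.1.trans ht.1.le, ht.2.le.trans hs.2⟩)
  exact this.trans (mul_le_mul_of_nonneg_left (by linarith [hs.2, hs'.1]) hc)

/-- The degenerate system on a segment. -/
structure Sys (c0 c1 Λ : ℝ) (F F1 W W1 ρ c U : ℝ → ℝ) (α β : ℝ) : Prop where
  dF : ∀ t ∈ Icc α β, HasDerivAt F (F1 t / ρ t) t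
  dF1 : ∀ t ∈ Icc α β, HasDerivAt F1 (ρ t * U t) t
  dW : ∀ t ∈ Icc α β, HasDerivAt W (W1 t / ρ t) t
  dW1 : ∀ t ∈ Icc α β, HasDerivAt W1 (-(ρ t * c t * F t)) t
  hU : ∀ t ∈ Icc α β, W t = |U t| * U t
  ρ1 : ∀ t ∈ Icc α β, 1 ≤ ρ t
  ρ2 : ∀ t ∈ Icc α β, ρ t ≤ Λ
  c1' : ∀ t ∈ Icc α β, c0 ≤ c t
  c2' : ∀ t ∈ Icc α β, c t ≤ c1

theorem Sys.mono {c0 c1 Λ : ℝ} {F F1 W W1 ρ c U : ℝ → ℝ} {α β α' β' : ℝ}
    (h : Sys c0 c1 Λ F F1 W W1 ρ c U α β) (h1 : α ≤ α') (h2 : β' ≤ β) :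
    Sys c0 c1 Λ F F1 W W1 ρ c U α' β' := by
  have hs : Icc α' β' ⊆ Icc α β := Icc_subset_Icc h1 h2
  exact ⟨fun t ht => h.dF t (hs ht), fun t ht => h.dF1 t (hs ht), fun t ht => h.dW t (hs ht),
    fun t ht => h.dW1 t (hs ht), fun t ht => h.hU t (hs ht), fun t ht => h.ρ1 t (hs ht),
    fun t ht => h.ρ2 t (hs ht), fun t ht => h.c1' t (hs ht), fun t ht => h.c2' t (hs ht)⟩

theorem Sys.dJ {c0 c1 Λ : ℝ} {F F1 W W1 ρ c U : ℝ → ℝ} {α β : ℝ}
    (h : Sys c0 c1 Λ F F1 W W1 ρ c U α β) : ∀ t ∈ Icc α β,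
    HasDerivAt (fun s => W s * F1 s - W1 s * F s) (ρ t * (|U t| ^ 3 + c t * F t ^ 2)) t := by
  intro t ht
  have := ((h.dW t ht).mul (h.dF1 t ht)).sub ((h.dW1 t ht).mul (h.dF t ht))
  refine this.congr_deriv ?_
  rw [h.hU t ht]
  have h3 : |U t| ^ 3 = |U t| * (U t * U t) := by rw [← abs_mul_abs_self (U t)]; ring
  rw [h3]; ring

theorem Sys.E_nonneg {c0 c1 Λ : ℝ} {F F1 W W1 ρ c U : ℝ → ℝ} {α β : ℝ}
    (h : Sys c0 c1 Λ F F1 W W1 ρ c U α β) (hc0 : 0 < c0) : ∀ t ∈ Icc α β,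
    0 ≤ ρ t * (|U t| ^ 3 + c t * F t ^ 2) := by
  intro t ht
  have h1 := h.ρ1 t ht
  have h2 := h.c1' t ht
  have : 0 ≤ c t := by linarith
  positivity

theorem Sys.J_mono {c0 c1 Λ : ℝ} {F F1 W W1 ρ c U : ℝ → ℝ} {α β : ℝ}
    (h : Sys c0 c1 Λ F F1 W W1 ρ c U α β) (hc0 : 0 < c0) {s s' : ℝ} (h1 : α ≤ s) (h2 : s ≤ s')
    (h3 : s' ≤ β) : W s * F1 s - W1 s * F s ≤ W s' * F1 s' - W1 s' * F s' :=
  mono_of_deriv (y := fun s => W s * F1 s - W1 s * F s) h2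
    (fun t ht => h.dJ t ⟨h1.trans ht.1, ht.2.trans h3⟩)
    (fun t ht => h.E_nonneg hc0 t ⟨h1.trans ht.1.le, ht.2.le.trans h3⟩)

theorem small_point {c0 ρ c u f δ : ℝ} (hc0 : 0 < c0) (hc01 : c0 ≤ 1) (hδ : 0 < δ) (hρ : 1 ≤ ρ)
    (hc : c0 ≤ c) (h : ρ * (|u| ^ 3 + c * f ^ 2) ≤ c0 * δ ^ 12) :
    |f| ≤ δ ^ 6 ∧ abs (|u| * u) ≤ δ ^ 8 := by
  have hu : 0 ≤ |u| ^ 3 := by positivity
  have hf : 0 ≤ c0 * f ^ 2 := by positivity
  have hf' : c0 * f ^ 2 ≤ c * f ^ 2 := mul_le_mul_of_nonneg_right hc (sq_nonneg f)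
  have hs : |u| ^ 3 + c * f ^ 2 ≤ c0 * δ ^ 12 := by nlinarith
  have hd : 0 < δ ^ 12 := by positivity
  constructor
  · have : f ^ 2 ≤ (δ ^ 6) ^ 2 := by
      have : c0 * f ^ 2 ≤ c0 * (δ ^ 6) ^ 2 := by nlinarith
      exact le_of_mul_le_mul_left this hc0
    exact abs_le_of_sq_le_sq this (by positivity)
  · have h3 : |u| ^ 3 ≤ (δ ^ 4) ^ 3 := by nlinarith
    have h4 : |u| ≤ δ ^ 4 := le_of_pow_le_pow_left₀ (by norm_num) (by positivity) h3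
    rw [abs_mul, abs_abs]
    calc |u| * |u| ≤ δ ^ 4 * δ ^ 4 := mul_le_mul h4 h4 (abs_nonneg _) (by positivity)
      _ = δ ^ 8 := by ring

theorem slope_point {y y1 ρ : ℝ → ℝ} {a b m δ Λ : ℝ} (hδ : 0 < δ) (hab : δ / 3 ≤ b - a)
    (h : ∀ t ∈ Icc a b, HasDerivAt y (y1 t / ρ t) t) (h1 : ∀ t ∈ Icc a b, 1 ≤ ρ t)
    (h2 : ∀ t ∈ Icc a b, ρ t ≤ Λ) (ha : |y a| ≤ m * δ) (hb : |y b| ≤ m * δ) :
    ∃ z ∈ Icc a b, |y1 z| ≤ 6 * Λ * m := by
  have hlt : a < b := by linarith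
  obtain ⟨z, hz, he⟩ := mvt hlt h
  have hz' := Ioo_subset_Icc_self hz
  refine ⟨z, hz', ?_⟩
  have hρ := h1 z hz'
  have hρ2 := h2 z hz'
  have hm : 0 ≤ m := by
    have : 0 ≤ m * δ := (abs_nonneg _).trans ha
    exact nonneg_of_mul_nonneg_left this hδ
  have h3 : |y1 z / ρ z| * (b - a) ≤ 2 * (m * δ) := by
    rw [← abs_of_pos (sub_pos.mpr hlt), ← abs_mul, ← he]
    have := abs_sub (y b) (y a); linarith
  have h4 : |y1 z / ρ z| ≤ 6 * m := by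
    have h5 : |y1 z / ρ z| * (δ / 3) ≤ |y1 z / ρ z| * (b - a) :=
      mul_le_mul_of_nonneg_left hab (abs_nonneg _)
    have : |y1 z / ρ z| * δ ≤ (6 * m) * δ := by linarith
    exact le_of_mul_le_mul_right this hδ
  rw [abs_div, abs_of_pos (by linarith : 0 < ρ z), div_le_iff₀ (by linarith)] at h4
  nlinarith

theorem Sys.loc {c0 c1 Λ : ℝ} {F F1 W W1 ρ c U : ℝ → ℝ} {t δ : ℝ}
    (h : Sys c0 c1 Λ F F1 W W1 ρ c U t (t + δ)) (hc0 : 0 < c0) (hc01 : c0 ≤ 1) (hc1 : 1 ≤ c1)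
    (hΛ : 1 ≤ Λ) (hδ : 0 < δ)
    (he : (W (t + δ) * F1 (t + δ) - W1 (t + δ) * F (t + δ)) - (W t * F1 t - W1 t * F t)
      ≤ c0 / 3 * δ ^ 13) :
    ∀ s ∈ Icc t (t + δ), |W s * F1 s - W1 s * F s| ≤ 263 * c1 * Λ ^ 3 * δ ^ 13 := by
  set J : ℝ → ℝ := fun s => W s * F1 s - W1 s * F s with hJ
  have hJm : ∀ s s', t ≤ s → s ≤ s' → s' ≤ t + δ → J s ≤ J s' :=
    fun s s' h1 h2 h3 => h.J_mono hc0 h1 h2 h3
  have he' : J (t + δ) - J t ≤ c0 / 3 * δ ^ 13 := he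
  have pt : ∀ a, t ≤ a → a + δ / 3 ≤ t + δ → ∃ ξ ∈ Ioo a (a + δ / 3),
      |F ξ| ≤ δ ^ 6 ∧ |W ξ| ≤ δ ^ 8 := by
    intro a ha hb
    have hs : Icc a (a + δ / 3) ⊆ Icc t (t + δ) := Icc_subset_Icc ha hb
    obtain ⟨ξ, hξ, hE⟩ := mvt (y := J) (by linarith : a < a + δ / 3) (fun s hs' => h.dJ s (hs hs'))
    have hξ' := hs (Ioo_subset_Icc_self hξ)
    refine ⟨ξ, hξ, ?_⟩
    have h1 := hJm t a le_rfl ha (by linarith)
    have h2 := hJm (a + δ / 3) (t + δ) (by linarith) hb le_rfl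
    have h3 : ρ ξ * (|U ξ| ^ 3 + c ξ * F ξ ^ 2) * δ ≤ c0 * δ ^ 12 * δ := by
      have : a + δ / 3 - a = δ / 3 := by ring
      rw [this] at hE
      have h13 : δ ^ 13 = δ ^ 12 * δ := by ring
      rw [h13] at he'
      linarith
    rw [h.hU ξ hξ']
    exact small_point hc0 hc01 hδ (h.ρ1 ξ hξ') (h.c1' ξ hξ') (le_of_mul_le_mul_right h3 hδ)
  obtain ⟨ξ1, hξ1, hF1, hW1⟩ := pt t le_rfl (by linarith)
  obtain ⟨ξ2, hξ2, hF2, hW2⟩ := pt (t + 2 * δ / 3) (by linarith) (by linarith)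
  have hs12 : Icc ξ1 ξ2 ⊆ Icc t (t + δ) := Icc_subset_Icc hξ1.1.le (by linarith [hξ2.2])
  have hξ1' : ξ1 ∈ Icc t (t + δ) := ⟨hξ1.1.le, by linarith [hξ1.2]⟩
  have hd : δ / 3 ≤ ξ2 - ξ1 := by linarith [hξ1.2, hξ2.1]
  obtain ⟨z, hz, hz1⟩ := slope_point (m := δ ^ 5) hδ hd (fun s hs => h.dF s (hs12 hs))
    (fun s hs => h.ρ1 s (hs12 hs)) (fun s hs => h.ρ2 s (hs12 hs))
    (by rw [← pow_succ]; exact hF1) (by rw [← pow_succ]; exact hF2)
  obtain ⟨z', hz', hz1'⟩ := slope_point (m := δ ^ 7) hδ hd (fun s hs => h.dW s (hs12 hs))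
    (fun s hs => h.ρ1 s (hs12 hs)) (fun s hs => h.ρ2 s (hs12 hs))
    (by rw [← pow_succ]; exact hW1) (by rw [← pow_succ]; exact hW2)
  have hδ8 : 0 < δ ^ 8 := by positivity
  have hδ5 : 0 < δ ^ 5 := by positivity
  have hδ6 : 0 < δ ^ 6 := by positivity
  have hδ7 : 0 < δ ^ 7 := by positivity
  -- oscillation of F1
  have hpt : ∀ s ∈ Icc t (t + δ), |ρ s * U s| ≤
      ρ s * (|U s| ^ 3 + c s * F s ^ 2) / δ ^ 8 + Λ * δ ^ 4 := by
    intro s hs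
    have h1 := h.ρ1 s hs
    have h2 := h.ρ2 s hs
    have h3 : 0 ≤ c s * F s ^ 2 := mul_nonneg (by linarith [h.c1' s hs]) (sq_nonneg _)
    rw [abs_mul, abs_of_pos (by linarith : 0 < ρ s)]
    have hE := h.E_nonneg hc0 s hs
    rcases le_total |U s| (δ ^ 4) with h4 | h4
    · have : ρ s * |U s| ≤ Λ * δ ^ 4 := mul_le_mul h2 h4 (abs_nonneg _) (by linarith)
      have : 0 ≤ ρ s * (|U s| ^ 3 + c s * F s ^ 2) / δ ^ 8 := by positivity
      linarith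
    · have h5 : ρ s * |U s| ≤ ρ s * (|U s| ^ 3 + c s * F s ^ 2) / δ ^ 8 := by
        rw [le_div_iff₀ hδ8, mul_assoc]
        apply mul_le_mul_of_nonneg_left _ (by linarith)
        have : δ ^ 4 * δ ^ 4 ≤ |U s| * |U s| := mul_le_mul h4 h4 (by positivity) (abs_nonneg _)
        have h6 : |U s| * δ ^ 8 ≤ |U s| * (|U s| * |U s|) :=
          mul_le_mul_of_nonneg_left (by linarith [show δ ^ 8 = δ ^ 4 * δ ^ 4 by ring]) (abs_nonneg _)
        nlinarith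
      have : 0 ≤ Λ * δ ^ 4 := by positivity
      linarith
  have hosc : ∀ s ∈ Icc t (t + δ), ∀ s' ∈ Icc t (t + δ), s ≤ s' → |F1 s' - F1 s| ≤ 2 * Λ * δ ^ 5 := by
    intro s hs s' hs' hle
    have hsub : Icc s s' ⊆ Icc t (t + δ) := Icc_subset_Icc hs.1 hs'.2
    have hz : ∀ r ∈ Icc s s', HasDerivAt (fun r => J r / δ ^ 8 + Λ * δ ^ 4 * r)
        (ρ r * (|U r| ^ 3 + c r * F r ^ 2) / δ ^ 8 + Λ * δ ^ 4) r := by
      intro r hr
      have := ((h.dJ r (hsub hr)).div_const (δ ^ 8)).add ((hasDerivAt_id r).const_mul (Λ * δ ^ 4))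
      exact this.congr_deriv (by ring)
    have h1 := cmp_of_deriv hle (fun r hr => h.dF1 r (hsub hr)) hz
      (fun r hr => (le_abs_self _).trans (hpt r (hsub (Ioo_subset_Icc_self hr))))
    have h2 := cmp_of_deriv hle (fun r hr => (h.dF1 r (hsub hr)).neg) hz
      (fun r hr => (neg_le_abs _).trans (hpt r (hsub (Ioo_subset_Icc_self hr))))
    have h3 : J s' / δ ^ 8 - J s / δ ^ 8 ≤ δ ^ 5 := by
      rw [← sub_div, div_le_iff₀ hδ8]
      have h4 := hJm t s le_rfl hs.1 hs.2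
      have h5 := hJm s' (t + δ) hs'.1 hs'.2 le_rfl
      have h6 : δ ^ 5 * δ ^ 8 = δ ^ 13 := by ring
      have h7 : 0 < δ ^ 13 := by positivity
      nlinarith
    have h4 : Λ * δ ^ 4 * s' - Λ * δ ^ 4 * s ≤ Λ * δ ^ 5 := by
      have : Λ * δ ^ 4 * (s' - s) ≤ Λ * δ ^ 4 * δ :=
        mul_le_mul_of_nonneg_left (by linarith [hs.1, hs'.2]) (by positivity)
      nlinarith
    have h5 : δ ^ 5 ≤ Λ * δ ^ 5 := by nlinarith
    simp only [Pi.neg_apply] at h2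
    rw [abs_le]; constructor <;> linarith
  have bF1 : ∀ s ∈ Icc t (t + δ), |F1 s| ≤ 8 * Λ * δ ^ 5 := by
    intro s hs
    have : |F1 s - F1 z| ≤ 2 * Λ * δ ^ 5 := by
      rcases le_total s z with h1 | h1
      · rw [abs_sub_comm]; exact hosc s hs z (hs12 hz) h1
      · exact hosc z (hs12 hz) s hs h1
    have h2 := abs_add_le (F1 s - F1 z) (F1 z)
    rw [sub_add_cancel] at h2; linarith
  have bF : ∀ s ∈ Icc t (t + δ), |F s| ≤ 9 * Λ * δ ^ 6 := by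
    intro s hs
    have := osc_le (c := 8 * Λ * δ ^ 5) (by positivity) h.dF (fun r hr => by
      rw [abs_div, abs_of_pos (by linarith [h.ρ1 r hr] : 0 < ρ r)]
      exact (div_le_self (abs_nonneg _) (h.ρ1 r hr)).trans (bF1 r hr)) hs hξ1'
    have h2 := abs_add_le (F s - F ξ1) (F ξ1)
    rw [sub_add_cancel] at h2
    have h3 : 8 * Λ * δ ^ 5 * (t + δ - t) = 8 * Λ * δ ^ 6 := by ring
    nlinarith
  have hΛ2 : Λ ≤ c1 * Λ ^ 2 := by nlinarith
  have bW1 : ∀ s ∈ Icc t (t + δ), |W1 s| ≤ 15 * c1 * Λ ^ 2 * δ ^ 7 := by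
    intro s hs
    have := osc_le (c := 9 * c1 * Λ ^ 2 * δ ^ 6) (by positivity) h.dW1 (fun r hr => by
      have h1 := h.ρ1 r hr
      have h2 := h.c1' r hr
      rw [abs_neg, abs_mul, abs_mul, abs_of_pos (by linarith : 0 < ρ r),
        abs_of_pos (by linarith : 0 < c r)]
      calc ρ r * c r * |F r| ≤ Λ * c1 * (9 * Λ * δ ^ 6) :=
            mul_le_mul (mul_le_mul (h.ρ2 r hr) (h.c2' r hr) (by linarith) (by linarith))
              (bF r hr) (abs_nonneg _) (by positivity)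
        _ = 9 * c1 * Λ ^ 2 * δ ^ 6 := by ring) hs (hs12 hz')
    have h2 := abs_add_le (W1 s - W1 z') (W1 z')
    rw [sub_add_cancel] at h2
    have h3 : 9 * c1 * Λ ^ 2 * δ ^ 6 * (t + δ - t) = 9 * c1 * Λ ^ 2 * δ ^ 7 := by ring
    nlinarith
  have bW : ∀ s ∈ Icc t (t + δ), |W s| ≤ 16 * c1 * Λ ^ 2 * δ ^ 8 := by
    intro s hs
    have := osc_le (c := 15 * c1 * Λ ^ 2 * δ ^ 7) (by positivity) h.dW (fun r hr => by
      rw [abs_div, abs_of_pos (by linarith [h.ρ1 r hr] : 0 < ρ r)]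
      exact (div_le_self (abs_nonneg _) (h.ρ1 r hr)).trans (bW1 r hr)) hs hξ1'
    have h2 := abs_add_le (W s - W ξ1) (W ξ1)
    rw [sub_add_cancel] at h2
    have h3 : 15 * c1 * Λ ^ 2 * δ ^ 7 * (t + δ - t) = 15 * c1 * Λ ^ 2 * δ ^ 8 := by ring
    nlinarith
  intro s hs
  have h1 : |W s * F1 s| ≤ 16 * c1 * Λ ^ 2 * δ ^ 8 * (8 * Λ * δ ^ 5) := by
    rw [abs_mul]; exact mul_le_mul (bW s hs) (bF1 s hs) (abs_nonneg _) (by positivity)
  have h2 : |W1 s * F s| ≤ 15 * c1 * Λ ^ 2 * δ ^ 7 * (9 * Λ * δ ^ 6) := by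
    rw [abs_mul]; exact mul_le_mul (bW1 s hs) (bF s hs) (abs_nonneg _) (by positivity)
  have h3 := abs_sub (W s * F1 s) (W1 s * F s)
  calc |W s * F1 s - W1 s * F s| ≤ 16 * c1 * Λ ^ 2 * δ ^ 8 * (8 * Λ * δ ^ 5)
        + 15 * c1 * Λ ^ 2 * δ ^ 7 * (9 * Λ * δ ^ 6) := by linarith
    _ = 263 * c1 * Λ ^ 3 * δ ^ 13 := by ring

theorem extinct {J : ℝ → ℝ} {α β D κ δ t : ℝ} (hκ : 0 < κ) (hκD : κ ≤ D / 2)
    (mono : ∀ s s', α ≤ s → s ≤ s' → s' ≤ β → J s ≤ J s')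
    (H : ∀ s d, 0 < d → α ≤ s → s + d ≤ β → J (s + d) - J s ≤ κ * d ^ 13 → -(D / 2 * d ^ 13) ≤ J s)
    (ht : α ≤ t) (hδ : 0 < δ) (hN : t + 13 * D / κ * δ ≤ β) (hJ : -(D * δ ^ 13) ≤ J t) :
    0 ≤ J (t + 13 * D / κ * δ) := by
  have hD : 0 < D := by linarith
  set N := 13 * D / κ with hNdef
  set q := 1 - κ / (13 * D) with hq
  have hr : κ / (13 * D) ≤ 1 / 26 := by
    rw [div_le_div_iff₀ (by positivity) (by norm_num)]; linarith
  have hr0 : 0 < κ / (13 * D) := by positivity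
  have hq0 : 0 < q := by rw [hq]; linarith
  have hq1 : q < 1 := by rw [hq]; linarith
  have hNq : N * (1 - q) = 1 := by rw [hq, hNdef]; field_simp; ring
  have hN0 : 0 < N := by positivity
  have hq13 : 1 - κ / D ≤ q ^ 13 := by
    have := one_add_mul_le_pow (a := -(κ / (13 * D))) (by linarith) 13
    have h2 : (1 : ℝ) + (13 : ℕ) * -(κ / (13 * D)) = 1 - κ / D := by push_cast; field_simp; ring
    rw [h2] at this
    simpa [hq, sub_eq_add_neg] using this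
  have hkD : κ / D ≤ 1 / 2 := by rw [div_le_div_iff₀ hD (by norm_num)]; linarith
  have hle : ∀ k : ℕ, t + N * δ * (1 - q ^ k) ≤ t + N * δ := by
    intro k
    have : 0 < q ^ k := by positivity
    have : 0 < N * δ := by positivity
    nlinarith
  have hge : ∀ k : ℕ, t ≤ t + N * δ * (1 - q ^ k) := by
    intro k
    have : q ^ k ≤ 1 := pow_le_one₀ hq0.le hq1.le
    have : 0 < N * δ := by positivity
    nlinarith
  have ind : ∀ k : ℕ, -(D * (q ^ k * δ) ^ 13) ≤ J (t + N * δ * (1 - q ^ k)) := by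
    intro k
    induction k with
    | zero => simpa using hJ
    | succ k ih =>
      have hd : 0 < q ^ k * δ := by positivity
      have hstep : t + N * δ * (1 - q ^ (k + 1)) = t + N * δ * (1 - q ^ k) + q ^ k * δ := by
        have : N * δ * (1 - q ^ (k + 1)) = N * δ * (1 - q ^ k) + q ^ k * δ * (N * (1 - q)) := by ring
        rw [this, hNq]; ring
      have hb : t + N * δ * (1 - q ^ k) + q ^ k * δ ≤ β := by
        rw [← hstep]; exact (hle _).trans hN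
      have ha : α ≤ t + N * δ * (1 - q ^ k) := ht.trans (hge k)
      have hp : (q ^ (k + 1) * δ) ^ 13 = q ^ 13 * (q ^ k * δ) ^ 13 := by ring
      have hd13 : 0 < (q ^ k * δ) ^ 13 := by positivity
      rw [hstep, hp]
      have hDq : D - κ ≤ D * q ^ 13 := by
        have : D * (1 - κ / D) = D - κ := by field_simp
        nlinarith
      by_cases hc : J (t + N * δ * (1 - q ^ k) + q ^ k * δ) - J (t + N * δ * (1 - q ^ k))
          ≤ κ * (q ^ k * δ) ^ 13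
      · have h1 := H _ _ hd ha hb hc
        have h2 := mono _ _ ha (by linarith : t + N * δ * (1 - q ^ k) ≤ t + N * δ * (1 - q ^ k) + q ^ k * δ) hb
        nlinarith
      · push Not at hc
        nlinarith
  have hlim : Tendsto (fun k : ℕ => -(D * (q ^ k * δ) ^ 13)) atTop (𝓝 (-(D * (0 * δ) ^ 13))) :=
    ((((tendsto_pow_atTop_nhds_zero_of_lt_one hq0.le hq1).mul_const δ).pow 13).const_mul D).neg
  have : -(D * (0 * δ) ^ 13) ≤ J (t + N * δ) :=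
    le_of_tendsto' hlim (fun k => (ind k).trans (mono _ _ (ht.trans (hge k)) (hle k) hN))
  simpa using this

theorem vanish (c0 c1 Λ : ℝ) (hc0 : 0 < c0) (hc01 : c0 ≤ 1) (hc1 : 1 ≤ c1) (hΛ : 1 ≤ Λ) :
    ∃ L > 0, ∃ κ > 0, ∀ (F F1 W W1 ρ c U : ℝ → ℝ) (α : ℝ),
      Sys c0 c1 Λ F F1 W W1 ρ c U α (α + L) →
      (W (α + L) * F1 (α + L) - W1 (α + L) * F (α + L)) - (W α * F1 α - W1 α * F α) ≤ κ →
      ∃ t ∈ Ioo α (α + L), F t = 0 ∧ F1 t = 0 ∧ W t = 0 ∧ W1 t = 0 := by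
  set D := 526 * c1 * Λ ^ 3 with hD
  have hΛ3 : 1 ≤ Λ ^ 3 := one_le_pow₀ hΛ
  have hD1 : 526 ≤ D := by rw [hD]; nlinarith
  set κ := c0 / 3 with hκ
  have hκ0 : 0 < κ := by positivity
  set N := 13 * D / κ with hN
  have hN0 : 0 < N := by positivity
  refine ⟨2 * N + 1, by positivity, κ, hκ0, ?_⟩
  intro F F1 W W1 ρ c U α h he
  set β := α + (2 * N + 1) with hβ
  set J : ℝ → ℝ := fun s => W s * F1 s - W1 s * F s with hJ
  have hJm : ∀ s s', α ≤ s → s ≤ s' → s' ≤ β → J s ≤ J s' :=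
    fun s s' h1 h2 h3 => h.J_mono hc0 h1 h2 h3
  have he' : J β - J α ≤ κ := he
  have H : ∀ s d, 0 < d → α ≤ s → s + d ≤ β → J (s + d) - J s ≤ κ * d ^ 13 →
      ∀ r ∈ Icc s (s + d), |J r| ≤ D / 2 * d ^ 13 := by
    intro s d hd h1 h2 h3 r hr
    have := (h.mono h1 h2).loc hc0 hc01 hc1 hΛ hd h3 r hr
    calc |J r| ≤ 263 * c1 * Λ ^ 3 * d ^ 13 := this
      _ = D / 2 * d ^ 13 := by rw [hD]; ring
  have hκD : κ ≤ D / 2 := by rw [hκ]; linarith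
  have hα : |J α| ≤ D / 2 * 1 ^ 13 := H α 1 one_pos le_rfl (by linarith)
    (by have := hJm (α + 1) β (by linarith) (by linarith) le_rfl; linarith) α ⟨le_rfl, by linarith⟩
  have hβ' : |J β| ≤ D / 2 * 1 ^ 13 := H (β - 1) 1 one_pos (by linarith) (by linarith)
    (by have := hJm α (β - 1) le_rfl (by linarith) (by linarith)
        rw [sub_add_cancel]; linarith) β ⟨by linarith, by linarith⟩
  have h1 : 0 ≤ J (α + N * 1) := extinct hκ0 hκD hJm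
    (fun s d hd h1 h2 h3 => (abs_le.mp (H s d hd h1 h2 h3 s ⟨le_rfl, by linarith⟩)).1)
    le_rfl one_pos (by linarith) (by have := (abs_le.mp hα).1; linarith)
  have h2 : 0 ≤ -J (-(-β + N * 1)) := extinct (J := fun s => -J (-s)) (α := -β) (β := -α) hκ0 hκD
    (fun s s' h1 h2 h3 => neg_le_neg (hJm (-s') (-s) (by linarith) (by linarith) (by linarith)))
    (fun s d hd h1 h2 h3 => by
      have := H (-(s + d)) d hd (by linarith) (by linarith)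
        (by rw [show -(s + d) + d = -s by ring]; linarith) (-s) ⟨by linarith, by linarith⟩
      have := (abs_le.mp this).2
      linarith)
    le_rfl one_pos (by linarith) (by have := (abs_le.mp hβ').2; simp only [neg_neg]; linarith)
  have hz : ∀ s ∈ Icc (α + N) (α + N + 1), J s = 0 := by
    intro s hs
    have h3 := hJm (α + N * 1) s (by linarith) (by linarith [hs.1]) (by linarith [hs.2])
    have h4 := hJm s (-(-β + N * 1)) (by linarith [hs.1]) (by linarith [hs.2]) (by linarith)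
    linarith
  have hsub : Ioo (α + N) (α + N + 1) ⊆ Icc α β := fun s hs =>
    ⟨by linarith [hs.1], by linarith [hs.2]⟩
  have hFW : ∀ s ∈ Ioo (α + N) (α + N + 1), F s = 0 ∧ W s = 0 := by
    intro s hs
    have h3 : J =ᶠ[𝓝 s] fun _ => 0 :=
      eventually_of_mem (Ioo_mem_nhds hs.1 hs.2) (fun r hr => hz r (Ioo_subset_Icc_self hr))
    have h4 : HasDerivAt J 0 s := (hasDerivAt_const s (0:ℝ)).congr_of_eventuallyEq h3
    have h5 := (h.dJ s (hsub hs)).unique h4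
    have h6 := h.ρ1 s (hsub hs)
    have h7 := h.c1' s (hsub hs)
    have h8 : |U s| ^ 3 + c s * F s ^ 2 = 0 := by
      rcases mul_eq_zero.mp h5 with h9 | h9
      · linarith
      · exact h9
    have h9 : 0 ≤ |U s| ^ 3 := by positivity
    have h10 : 0 ≤ c s * F s ^ 2 := mul_nonneg (by linarith) (sq_nonneg _)
    constructor
    · have : c s * F s ^ 2 = 0 := by linarith
      rcases mul_eq_zero.mp this with h11 | h11
      · linarith
      · exact pow_eq_zero_iff (by norm_num) |>.mp h11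
    · have : |U s| ^ 3 = 0 := by linarith
      have : |U s| = 0 := pow_eq_zero_iff (by norm_num) |>.mp this
      rw [h.hU s (hsub hs), this, zero_mul]
  have hm : α + N + 1 / 2 ∈ Ioo (α + N) (α + N + 1) := ⟨by linarith, by linarith⟩
  have hρ : ρ (α + N + 1 / 2) ≠ 0 := by linarith [h.ρ1 _ (hsub hm)]
  refine ⟨α + N + 1 / 2, ⟨by linarith, by linarith⟩, (hFW _ hm).1, ?_, (hFW _ hm).2, ?_⟩
  · have h3 : F =ᶠ[𝓝 (α + N + 1 / 2)] fun _ => 0 :=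
      eventually_of_mem (Ioo_mem_nhds hm.1 hm.2) (fun r hr => (hFW r hr).1)
    have h5 := (h.dF _ (hsub hm)).unique ((hasDerivAt_const _ (0:ℝ)).congr_of_eventuallyEq h3)
    exact (div_eq_zero_iff.mp h5).resolve_right hρ
  · have h3 : W =ᶠ[𝓝 (α + N + 1 / 2)] fun _ => 0 :=
      eventually_of_mem (Ioo_mem_nhds hm.1 hm.2) (fun r hr => (hFW r hr).2)
    have h5 := (h.dW _ (hsub hm)).unique ((hasDerivAt_const _ (0:ℝ)).congr_of_eventuallyEq h3)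
    exact (div_eq_zero_iff.mp h5).resolve_right hρ

end Pool.Agent.MP_6aeaf9_an.H53
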