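import Pool.Agent.MP_6aeaf9_an.H53.Amp
import Pool.Agent.MP_6aeaf9_an.H53.Shoot
import Pool.Agent.MP_6aeaf9_an.H53.Vanish

/-! Removing the regularisation; the half profile reaches zero at a finite point. -/

namespace Pool.Agent.MP_6aeaf9_an.H53

open Set Filter Topology Real

theorem lim_deriv {y y' : ℕ → ℝ → ℝ} {Y Y' : ℝ → ℝ} {T M : ℝ}
    (hd : ∀ j, ∀ t ∈ Icc 0 T, HasDerivAt (y j) (y' j t) t)
    (hc : ∀ j, ContinuousOn (y' j) (Icc 0 T)) (hM : ∀ j, ∀ t ∈ Icc 0 T, |y' j t| ≤ M)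
    (hy : ∀ t ∈ Icc 0 T, Tendsto (fun j => y j t) atTop (𝓝 (Y t)))
    (hy' : ∀ t ∈ Icc 0 T, Tendsto (fun j => y' j t) atTop (𝓝 (Y' t))) (hY : Continuous Y') :
    ∀ t ∈ Ioo 0 T, HasDerivAt Y (Y' t) t := by
  have key : ∀ t ∈ Icc 0 T, Y t = Y 0 + ∫ r in (0:ℝ)..t, Y' r := by
    intro t ht
    have hsub : uIcc 0 t ⊆ Icc 0 T := by
      rw [uIcc_of_le ht.1]; exact Icc_subset_Icc_right ht.2
    have hsub' : uIoc 0 t ⊆ Icc 0 T := uIoc_subset_uIcc.trans hsub
    have h1 : ∀ j, ∫ r in (0:ℝ)..t, y' j r = y j t - y j 0 := fun j =>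
      intervalIntegral.integral_eq_sub_of_hasDerivAt (fun r hr => hd j r (hsub hr))
        ((hc j).mono hsub).intervalIntegrable
    have h2 : Tendsto (fun j => ∫ r in (0:ℝ)..t, y' j r) atTop (𝓝 (∫ r in (0:ℝ)..t, Y' r)) := by
      refine intervalIntegral.tendsto_integral_filter_of_dominated_convergence (fun _ => M)
        (Eventually.of_forall fun j => ((hc j).mono hsub').aestronglyMeasurable measurableSet_uIoc)
        (Eventually.of_forall fun j => MeasureTheory.ae_of_all _ fun r hr => hM j r (hsub' hr))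
        intervalIntegrable_const (MeasureTheory.ae_of_all _ fun r hr => hy' r (hsub' hr))
    simp_rw [h1] at h2
    have := tendsto_nhds_unique h2 ((hy t ht).sub (hy 0 ⟨le_rfl, ht.1.trans ht.2⟩))
    linarith
  intro t ht
  have h3 : Y =ᶠ[𝓝 t] fun t => Y 0 + ∫ r in (0:ℝ)..t, Y' r :=
    eventually_of_mem (Icc_mem_nhds ht.1 ht.2) key
  exact ((hY.integral_hasStrictDerivAt 0 t).hasDerivAt.const_add _).congr_of_eventuallyEq h3

theorem limit_sol {T : ℝ} (hT : 100000 ≤ T) : ∃ f p q g : ℝ → ℝ,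
    Continuous f ∧ Continuous p ∧ Continuous q ∧ Continuous g ∧
    (∀ t ∈ Ioo 0 T, HasDerivAt f (p t) t) ∧ (∀ t ∈ Ioo 0 T, HasDerivAt p (q t) t) ∧
    (∀ t ∈ Ioo 0 T, HasDerivAt q (sr 0 (g t)) t) ∧
    (∀ t ∈ Ioo 0 T, HasDerivAt g (f t ^ 2 - f t) t) ∧
    1 ≤ f 0 ∧ p 0 = 0 ∧ g 0 = 0 ∧ ∀ t ∈ Icc 100000 T, -1 ≤ f t ∧ f t ≤ 49 / 100 := by
  have hε0 : ∀ j : ℕ, (0:ℝ) < 1 / ((j:ℝ) + 1) := fun j => by positivity
  have hε1 : ∀ j : ℕ, 1 / ((j:ℝ) + 1) ≤ 1 := fun j => by
    rw [div_le_one (by positivity)]; linarith [Nat.cast_nonneg (α := ℝ) j]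
  have hs : ∀ j : ℕ, GoodS (sr (1 / ((j:ℝ) + 1))) := fun j => goodS_sr (hε0 j).le (hε1 j)
  have := fun j : ℕ => shoot (hε0 j) (hε1 j) (show 400 ≤ T by linarith)
  choose a ha b hb f p q g ν h hE hN using this
  have hA := fun j => (h j).amp (hs j) (hN j) (ha j) hT (hE j)
  have hT0 : 0 < T := by linarith
  set m1 : ℝ := 1 + 10100 * T with hm1
  set m2 : ℝ := 1000000 + m1 * T with hm2
  have hm10 : 0 < m1 := by positivity
  have hm20 : 0 < m2 := by positivity
  set M : ℝ := 10100 + m1 + m2 + m2 * T with hM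
  have hm2T : 0 < m2 * T := by positivity
  have hM0 : 0 < M := by positivity
  have bk : ∀ j, ∀ t ∈ Icc 0 T, |kap (f j t) (ν j t)| ≤ 10100 := fun j t _ => by
    have := kap_bounds (f j t) (ν j t)
    rw [abs_le]; constructor <;> linarith [this.1, this.2]
  have bg : ∀ j, ∀ t ∈ Icc 0 T, |g j t| ≤ 10100 * T := fun j t ht => by
    have := osc_le0 (c := 10100) (by norm_num) (h j).dg (bk j) ht
    rwa [(h j).g0, sub_zero] at this
  have bs : ∀ j : ℕ, ∀ t ∈ Icc 0 T, |sr (1 / ((j:ℝ) + 1)) (g j t)| ≤ m1 := fun j t ht => by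
    have := abs_le.mp (bg j t ht)
    have h1 : 10100 * T ≤ m1 ^ 2 := by rw [hm1]; nlinarith
    exact abs_le.mpr ⟨(hs j).ub' hm10.le (by linarith [this.1]),
      (hs j).ub _ _ hm10.le (by linarith [this.2])⟩
  have bq : ∀ j, ∀ t ∈ Icc 0 T, |q j t| ≤ m2 := fun j t ht => by
    have := osc_le0 hm10.le (h j).dq (bs j) ht
    rw [(h j).q0] at this
    rw [abs_le] at this ⊢
    constructor <;> linarith [this.1, this.2, (hb j).1, (hb j).2]
  have bp : ∀ j, ∀ t ∈ Icc 0 T, |p j t| ≤ m2 * T := fun j t ht => by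
    have := osc_le0 hm20.le (h j).dp (bq j) ht
    rwa [(h j).p0, sub_zero] at this
  have bf : ∀ j, ∀ t ∈ Icc 0 T, |f j t| ≤ 100 := fun j t ht => by
    have := (hA j).1 t ht
    rw [abs_le]; constructor <;> linarith [this.1, this.2.1]
  have lip : ∀ {y y' : ℝ → ℝ}, (∀ t ∈ Icc 0 T, HasDerivAt y (y' t) t) →
      (∀ t ∈ Icc 0 T, |y' t| ≤ M) → ∀ s ∈ Icc 0 T, ∀ t ∈ Icc 0 T, |y s - y t| ≤ M * |s - t| := by
    intro y y' h1 h2 s hs t ht
    wlog hle : t ≤ s generalizing s t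
    · rw [abs_sub_comm, abs_sub_comm s]; exact this t ht s hs (not_le.mp hle).le
    rw [abs_of_nonneg (sub_nonneg.mpr hle)]
    exact abs_sub_le_of_deriv hle (fun r hr => h1 r ⟨ht.1.trans hr.1, hr.2.trans hs.2⟩)
      (fun r hr => h2 r ⟨ht.1.trans hr.1.le, hr.2.le.trans hs.2⟩)
  obtain ⟨φ, hφ, Y, hYc, hY⟩ := arzela hT0.le (fun j t => (f j t, p j t, q j t, g j t)) M
    (fun j t ht => by
      simp only [Prod.norm_def, Real.norm_eq_abs, max_le_iff]
      exact ⟨by linarith [bf j t ht], by linarith [bp j t ht], by linarith [bq j t ht],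
        by linarith [bg j t ht]⟩)
    (fun ε hε => ⟨ε / M, by positivity, fun j s hs t ht hst => by
      have h0 : M * |s - t| < ε := by rwa [lt_div_iff₀' hM0] at hst
      simp only [Prod.mk_sub_mk, Prod.norm_def, Real.norm_eq_abs, max_lt_iff]
      exact ⟨(lip (h j).df (fun r hr => by linarith [bp j r hr]) s hs t ht).trans_lt h0,
        (lip (h j).dp (fun r hr => by linarith [bq j r hr]) s hs t ht).trans_lt h0,
        (lip (h j).dq (fun r hr => by linarith [bs j r hr]) s hs t ht).trans_lt h0,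
        (lip (h j).dg (fun r hr => by linarith [bk j r hr]) s hs t ht).trans_lt h0⟩⟩)
  have lf : ∀ t ∈ Icc 0 T, Tendsto (fun j => f (φ j) t) atTop (𝓝 (Y t).1) :=
    fun t ht => (continuous_fst.tendsto _).comp (hY.tendsto_at ht)
  have lp : ∀ t ∈ Icc 0 T, Tendsto (fun j => p (φ j) t) atTop (𝓝 (Y t).2.1) :=
    fun t ht => ((continuous_fst.comp continuous_snd).tendsto _).comp (hY.tendsto_at ht)
  have lq : ∀ t ∈ Icc 0 T, Tendsto (fun j => q (φ j) t) atTop (𝓝 (Y t).2.2.1) :=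
    fun t ht => ((continuous_fst.comp (continuous_snd.comp continuous_snd)).tendsto _).comp
      (hY.tendsto_at ht)
  have lg : ∀ t ∈ Icc 0 T, Tendsto (fun j => g (φ j) t) atTop (𝓝 (Y t).2.2.2) :=
    fun t ht => ((continuous_snd.comp (continuous_snd.comp continuous_snd)).tendsto _).comp
      (hY.tendsto_at ht)
  have lε : Tendsto (fun j => 1 / ((φ j : ℝ) + 1)) atTop (𝓝 0) :=
    tendsto_one_div_add_atTop_nhds_zero_nat.comp hφ.tendsto_atTop
  have ls : ∀ t ∈ Icc 0 T, Tendsto (fun j => sr (1 / ((φ j : ℝ) + 1)) (g (φ j) t)) atTop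
      (𝓝 (sr 0 (Y t).2.2.2)) := by
    intro t ht
    have h1 := ((continuous_sr 0).tendsto _).comp (lg t ht)
    have h2 : Tendsto (fun j => sr (1 / ((φ j : ℝ) + 1)) (g (φ j) t) - sr 0 (g (φ j) t)) atTop (𝓝 0) :=
      squeeze_zero_norm (fun j => sr_sub_le (hε0 _).le) lε
    simpa using h2.add h1
  refine ⟨fun t => (Y t).1, fun t => (Y t).2.1, fun t => (Y t).2.2.1, fun t => (Y t).2.2.2,
    by fun_prop, by fun_prop, by fun_prop, by fun_prop,
    lim_deriv (fun j => (h (φ j)).df) (fun j => contOn_of_deriv (h (φ j)).dp) (fun j => bp (φ j))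
      lf lp (by fun_prop),
    lim_deriv (fun j => (h (φ j)).dp) (fun j => contOn_of_deriv (h (φ j)).dq) (fun j => bq (φ j))
      lp lq (by fun_prop),
    lim_deriv (fun j => (h (φ j)).dq)
      (fun j => (continuous_sr _).comp_continuousOn (contOn_of_deriv (h (φ j)).dg))
      (fun j => bs (φ j)) lq ls ((continuous_sr 0).comp (by fun_prop)),
    lim_deriv (y' := fun j t => f (φ j) t ^ 2 - f (φ j) t) (M := 10100)
      (fun j t ht => ((hA (φ j)).1 t ht).2.2 ▸ (h (φ j)).dg t ht)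
      (fun j => ((contOn_of_deriv (h (φ j)).df).pow 2).sub (contOn_of_deriv (h (φ j)).df))
      (fun j t ht => ((hA (φ j)).1 t ht).2.2 ▸ bk (φ j) t ht) lg
      (fun t ht => ((lf t ht).pow 2).sub (lf t ht)) (by fun_prop), ?_, ?_, ?_, ?_⟩
  · exact ge_of_tendsto' (lf 0 ⟨le_rfl, hT0.le⟩) (fun j => by rw [(h _).f0]; exact (ha _).1.le)
  · have := lp 0 ⟨le_rfl, hT0.le⟩
    simp_rw [fun j => (h j).p0] at this
    exact tendsto_nhds_unique this tendsto_const_nhds
  · have := lg 0 ⟨le_rfl, hT0.le⟩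
    simp_rw [fun j => (h j).g0] at this
    exact tendsto_nhds_unique this tendsto_const_nhds
  · intro t ht
    have m : t ∈ Icc 0 T := ⟨by linarith [ht.1], ht.2⟩
    exact ⟨ge_of_tendsto' (lf t m) (fun j => ((hA _).1 t m).1),
      le_of_tendsto' (lf t m) (fun j => (hA _).2 t ht)⟩

theorem pigeon (J : ℝ → ℝ) (α L κ : ℝ) (m : ℕ) (h : J (α + m * L) - J α < m * κ) :
    ∃ i : ℕ, i < m ∧ J (α + i * L + L) - J (α + i * L) ≤ κ := by
  by_contra hn
  push Not at hn
  have : ∀ i : ℕ, i ≤ m → i * κ ≤ J (α + i * L) - J α := by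
    intro i
    induction i with
    | zero => simp
    | succ i ih =>
      intro hi
      have h1 := ih (by omega)
      have h2 := hn i (by omega)
      push_cast
      rw [show α + (i + 1) * L = α + i * L + L by ring]
      linarith
  linarith [this m le_rfl]

theorem tail_bounds {f p q g : ℝ → ℝ} {α β : ℝ}
    (df : ∀ t ∈ Icc α (β + 6), HasDerivAt f (p t) t) (dp : ∀ t ∈ Icc α (β + 6), HasDerivAt p (q t) t)
    (dq : ∀ t ∈ Icc α (β + 6), HasDerivAt q (sr 0 (g t)) t)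
    (dg : ∀ t ∈ Icc α (β + 6), HasDerivAt g (f t ^ 2 - f t) t)
    (hf : ∀ t ∈ Icc α (β + 6), -1 ≤ f t ∧ f t ≤ 49 / 100) :
    ∀ t ∈ Icc α β, |g t * q t - (f t ^ 2 - f t) * p t| ≤ 3000 := by
  have hs := goodS_sr le_rfl zero_le_one
  have bk : ∀ t ∈ Icc α (β + 6), |f t ^ 2 - f t| ≤ 2 := fun t ht => by
    have := hf t ht
    rw [abs_le]; constructor <;> nlinarith [this.1, this.2, sq_nonneg (f t - 1 / 2)]
  have bf : ∀ t ∈ Icc α (β + 6), -1 ≤ f t ∧ f t ≤ 1 :=
    fun t ht => ⟨(hf t ht).1, by linarith [(hf t ht).2]⟩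
  have bg : ∀ t ∈ Icc α (β + 3), |g t| ≤ 106 := by
    intro t ht
    have hs' : Icc t (t + 3 * 1) ⊆ Icc α (β + 6) := Icc_subset_Icc ht.1 (by linarith [ht.2])
    have o : ∀ u ∈ Icc t (t + 3 * 1), |g u - g t| ≤ 2 * (t + 3 * 1 - t) := fun u hu =>
      osc_le (by norm_num) (fun r hr => dg r (hs' hr)) (fun r hr => bk r (hs' hr)) hu
        ⟨le_rfl, by linarith⟩
    have a1 := bf (t + 3 * 1) (hs' ⟨by linarith, by linarith⟩)
    have a2 := bf (t + 2 * 1) (hs' ⟨by linarith, by linarith⟩)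
    have a3 := bf (t + 1) (hs' ⟨by linarith, by linarith⟩)
    have a4 := bf t (hs' ⟨by linarith, by linarith⟩)
    rw [abs_le]
    constructor
    · by_contra hn
      have := third_diff (f := fun u => -f u) (p := fun u => -p u) (q := fun u => -q u)
        (r := fun u => -sr 0 (g u)) (t := t) (h := 1) (γ := 9) (by norm_num)
        (fun u hu => (df u (hs' hu)).fun_neg) (fun u hu => (dp u (hs' hu)).fun_neg)
        (fun u hu => (dq u (hs' hu)).fun_neg)
        (fun u hu => by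
          have := hs.lb' (y := g u) (m := 10) (by norm_num) (by linarith [(abs_le.mp (o u hu)).2])
          linarith)
      linarith [a1.1, a2.2, a3.1, a4.2]
    · by_contra hn
      have := third_diff (t := t) (h := 1) (γ := 9) (by norm_num)
        (fun u hu => df u (hs' hu)) (fun u hu => dp u (hs' hu)) (fun u hu => dq u (hs' hu))
        (fun u hu => by
          have := hs.lb (g u) 10 (by norm_num) (by linarith [(abs_le.mp (o u hu)).1])
          linarith)
      linarith [a1.2, a2.1, a3.2, a4.1]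
  have bs : ∀ t ∈ Icc α (β + 3), |sr 0 (g t)| ≤ 11 := fun t ht => by
    have := abs_le.mp (bg t ht)
    exact abs_le.mpr ⟨hs.ub' (by norm_num) (by linarith [this.1]),
      hs.ub _ _ (by norm_num) (by linarith [this.2])⟩
  have bq : ∀ t ∈ Icc α (β + 1), |q t| ≤ 27 := by
    intro t ht
    have hs' : Icc t (t + 2 * 1) ⊆ Icc α (β + 6) := Icc_subset_Icc ht.1 (by linarith [ht.2])
    have o : ∀ u ∈ Icc t (t + 2 * 1), |q u - q t| ≤ 11 * (t + 2 * 1 - t) := fun u hu =>
      osc_le (by norm_num) (fun r hr => dq r (hs' hr))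
        (fun r hr => bs r ⟨ht.1.trans hr.1, by linarith [hr.2, ht.2]⟩) hu ⟨le_rfl, by linarith⟩
    have a2 := bf (t + 2 * 1) (hs' ⟨by linarith, by linarith⟩)
    have a3 := bf (t + 1) (hs' ⟨by linarith, by linarith⟩)
    have a4 := bf t (hs' ⟨by linarith, by linarith⟩)
    rw [abs_le]
    constructor
    · by_contra hn
      have := second_diff (f := fun u => -f u) (p := fun u => -p u) (q := fun u => -q u)
        (t := t) (h := 1) (γ := 5) (by norm_num)
        (fun u hu => (df u (hs' hu)).fun_neg) (fun u hu => (dp u (hs' hu)).fun_neg)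
        (fun u hu => by linarith [(abs_le.mp (o u hu)).2])
      linarith [a2.1, a3.2, a4.1]
    · by_contra hn
      have := second_diff (t := t) (h := 1) (γ := 5) (by norm_num)
        (fun u hu => df u (hs' hu)) (fun u hu => dp u (hs' hu))
        (fun u hu => by linarith [(abs_le.mp (o u hu)).1])
      linarith [a2.2, a3.1, a4.2]
  have bp : ∀ t ∈ Icc α β, |p t| ≤ 30 := by
    intro t ht
    have hs' : Icc t (t + 1) ⊆ Icc α (β + 6) := Icc_subset_Icc ht.1 (by linarith [ht.2])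
    have o : ∀ u ∈ Icc t (t + 1), |p u - p t| ≤ 27 * (t + 1 - t) := fun u hu =>
      osc_le (by norm_num) (fun r hr => dp r (hs' hr))
        (fun r hr => bq r ⟨ht.1.trans hr.1, by linarith [hr.2, ht.2]⟩) hu ⟨le_rfl, by linarith⟩
    have a3 := bf (t + 1) (hs' ⟨by linarith, by linarith⟩)
    have a4 := bf t (hs' ⟨by linarith, by linarith⟩)
    rw [abs_le]
    constructor
    · by_contra hn
      have := le_of_deriv_le (c := -3) (by linarith : t ≤ t + 1) (fun u hu => df u (hs' hu))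
        (fun u hu => by linarith [(abs_le.mp (o u (Ioo_subset_Icc_self hu))).2])
      linarith [a3.1, a4.2]
    · by_contra hn
      have := ge_of_deriv_ge (c := 3) (by linarith : t ≤ t + 1) (fun u hu => df u (hs' hu))
        (fun u hu => by linarith [(abs_le.mp (o u (Ioo_subset_Icc_self hu))).1])
      linarith [a3.2, a4.1]
  intro t ht
  have h1 : |g t * q t| ≤ 106 * 27 := by
    rw [abs_mul]
    exact mul_le_mul (bg t ⟨ht.1, by linarith [ht.2]⟩) (bq t ⟨ht.1, by linarith [ht.2]⟩)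
      (abs_nonneg _) (by norm_num)
  have h2 : |(f t ^ 2 - f t) * p t| ≤ 2 * 30 := by
    rw [abs_mul]
    exact mul_le_mul (bk t ⟨ht.1, by linarith [ht.2]⟩) (bp t ht) (abs_nonneg _) (by norm_num)
  linarith [abs_sub (g t * q t) ((f t ^ 2 - f t) * p t)]

theorem half_profile : ∃ T > 0, ∃ f p q g : ℝ → ℝ,
    Continuous f ∧ Continuous p ∧ Continuous q ∧ Continuous g ∧
    (∀ t ∈ Ioo 0 T, HasDerivAt f (p t) t) ∧ (∀ t ∈ Ioo 0 T, HasDerivAt p (q t) t) ∧
    (∀ t ∈ Ioo 0 T, HasDerivAt q (sr 0 (g t)) t) ∧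
    (∀ t ∈ Ioo 0 T, HasDerivAt g (f t ^ 2 - f t) t) ∧
    1 ≤ f 0 ∧ p 0 = 0 ∧ g 0 = 0 ∧ f T = 0 ∧ p T = 0 ∧ q T = 0 ∧ g T = 0 := by
  obtain ⟨L, hL, κ, hκ, hv⟩ := vanish (1 / 50) 3 1 (by norm_num) (by norm_num) (by norm_num) le_rfl
  obtain ⟨m, hm⟩ := exists_nat_gt (6000 / κ)
  have hm' : 6000 < m * κ := by rwa [div_lt_iff₀ hκ] at hm
  have hmL : 0 ≤ m * L := by positivity
  obtain ⟨f, p, q, g, cf, cp, cq, cg, df, dp, dq, dg, f0, p0, g0, hf⟩ :=
    limit_sol (T := 100000 + m * L + 7) (by linarith)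
  have hs : Icc 100000 (100000 + m * L + 6) ⊆ Ioo 0 (100000 + m * L + 7) :=
    fun t ht => ⟨by linarith [ht.1], by linarith [ht.2]⟩
  have hb := tail_bounds (α := 100000) (β := 100000 + m * L) (fun t ht => df t (hs ht))
    (fun t ht => dp t (hs ht)) (fun t ht => dq t (hs ht)) (fun t ht => dg t (hs ht))
    (fun t ht => hf t ⟨ht.1, by linarith [ht.2]⟩)
  obtain ⟨i, hi, hJ⟩ := pigeon (fun t => g t * q t - (f t ^ 2 - f t) * p t) 100000 L κ m (by
    have h1 := abs_le.mp (hb 100000 ⟨le_rfl, by linarith⟩)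
    have h2 := abs_le.mp (hb (100000 + m * L) ⟨by linarith, le_rfl⟩)
    linarith [h1.1, h2.2])
  have hi' : (i:ℝ) + 1 ≤ m := by exact_mod_cast hi
  have hiL : 0 ≤ i * L := by positivity
  have hiL' : i * L + L ≤ m * L := by nlinarith
  have hs' : Icc (100000 + i * L) (100000 + i * L + L) ⊆ Icc 100000 (100000 + m * L + 6) :=
    Icc_subset_Icc (by linarith) (by linarith)
  have hf' : ∀ t ∈ Icc (100000 + i * L) (100000 + i * L + L), -1 ≤ f t ∧ f t ≤ 49 / 100 :=
    fun t ht => hf t ⟨(hs' ht).1, by linarith [(hs' ht).2]⟩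
  obtain ⟨t, ht, z1, z2, z3, z4⟩ := hv p q g (fun t => f t ^ 2 - f t) (fun _ => 1)
    (fun t => 1 - 2 * f t) (fun t => sr 0 (g t)) (100000 + i * L)
    ⟨fun t ht => by simpa using dp t (hs (hs' ht)), fun t ht => by simpa using dq t (hs (hs' ht)),
      fun t ht => by simpa using dg t (hs (hs' ht)),
      fun t ht => (((df t (hs (hs' ht))).fun_pow 2).fun_sub (df t (hs (hs' ht)))).congr_deriv
        (by simp; ring),
      fun t _ => (sr_zero_spec _).symm, fun _ _ => le_rfl, fun _ _ => le_rfl,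
      fun t ht => by linarith [(hf' t ht).2], fun t ht => by linarith [(hf' t ht).1]⟩ hJ
  have hsub : Ioo 0 t ⊆ Ioo 0 (100000 + m * L + 7) :=
    Ioo_subset_Ioo_right (by linarith [ht.2])
  refine ⟨t, by linarith [ht.1], f, p, q, g, cf, cp, cq, cg, fun u hu => df u (hsub hu),
    fun u hu => dp u (hsub hu), fun u hu => dq u (hsub hu), fun u hu => dg u (hsub hu),
    f0, p0, g0, ?_, z1, z2, z3⟩
  have h1 := (hf' t (Ioo_subset_Icc_self ht)).2
  have h2 : f t * (f t - 1) = 0 := by linarith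
  rcases mul_eq_zero.mp h2 with h3 | h3
  · exact h3
  · linarith

end Pool.Agent.MP_6aeaf9_an.H53
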